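import Pool.Agent.FJ3.LIN

/-!
# FJ3 / BUN: the bundle of forms of multidegree `m`, and its quotients
-/

set_option linter.unusedSectionVars false

namespace Pool.Agent.FJ3

open Pool.Agent.Helper38.Scroll Pool.Agent.FJ Matrix Module

section

variable {k K : Type} [Field k] [Field K] [Algebra (RatFunc k) K] [Algebra k K]
  [IsScalarTower k (RatFunc k) K] {J : Type} [DecidableEq J] {n : J → ℕ}

/-- the exponents of weight `m` are finitely many -/
lemma bun_finite [Fintype J] (m : J → ℕ) :
    {d : Var n →₀ ℕ | Finsupp.weight (wt n) d = m}.Finite := by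
  classical
  refine (Set.finite_Iic (Finsupp.equivFunOnFinite.symm fun p : Var n => m p.1)).subset ?_
  intro d hd
  have hd' : Finsupp.weight (wt n) d = m := hd
  rw [Set.mem_Iic, Finsupp.le_def]
  intro p
  have hw : Finsupp.weight (wt n) d = ∑ q : Var n, d q • wt n q := by
    rw [Finsupp.weight_apply, Finsupp.sum_fintype]
    exact fun _ => zero_smul _ _
  rw [Finsupp.equivFunOnFinite_symm_apply_apply, ← hd', hw, Finset.sum_apply]
  refine le_trans ?_ (Finset.single_le_sum (f := fun q : Var n => (d q • wt n q) p.1)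
    (fun _ _ => Nat.zero_le _) (Finset.mem_univ p))
  simp [wt]

lemma bun_fg {R : Type} [CommRing R] [Fintype J] (m : J → ℕ) : (MH R n m).FG := by
  have h : MH R n m = Submodule.span R ((fun d : Var n →₀ ℕ =>
      (MvPolynomial.monomial d (1 : R) : MvPolynomial (Var n) R)) ''
        {d | Finsupp.weight (wt n) d = m}) := by
    apply le_antisymm
    · intro P hP
      rw [MvPolynomial.as_sum P]
      refine Submodule.sum_mem _ fun s hs => ?_
      have e : MvPolynomial.monomial s (P.coeff s) =
          (P.coeff s) • (MvPolynomial.monomial s (1 : R) : MvPolynomial (Var n) R) := by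
        rw [MvPolynomial.smul_monomial, smul_eq_mul, mul_one]
      rw [e]
      exact Submodule.smul_mem _ _ (Submodule.subset_span
        ⟨s, hP (MvPolynomial.mem_support_iff.1 hs), rfl⟩)
    · rw [Submodule.span_le]
      rintro _ ⟨d, hd, rfl⟩
      exact MvPolynomial.isWeightedHomogeneous_monomial _ _ _ hd
  rw [h]
  exact Submodule.fg_span ((bun_finite m).image _)

/-- A polynomial with regular coefficients comes from a polynomial over the regular ring. -/
lemma bun_exists_map {a : Option k} {P : MvPolynomial (Var n) K}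
    (hP : ∀ s, P.coeff s ∈ regRing k K a) :
    ∃ P' : MvPolynomial (Var n) (regRing k K a),
      MvPolynomial.map (algebraMap (regRing k K a) K) P' = P := by
  refine ⟨∑ s ∈ P.support, MvPolynomial.monomial s ⟨P.coeff s, hP s⟩, ?_⟩
  rw [map_sum]
  conv_rhs => rw [MvPolynomial.as_sum P]
  refine Finset.sum_congr rfl fun s _ => ?_
  rw [MvPolynomial.map_monomial]
  rfl

/-- Substitution by regular matrices preserves the regularity of the coefficients. -/
lemma bun_coeff_substb {a : Option k} {g : ∀ j, Matrix (Fin (n j)) (Fin (n j)) K}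
    (hg : ∀ j i i', g j i i' ∈ regRing k K a) {P : MvPolynomial (Var n) K}
    (hP : ∀ s, P.coeff s ∈ regRing k K a) (s : Var n →₀ ℕ) :
    (substb g P).coeff s ∈ regRing k K a := by
  obtain ⟨P', rfl⟩ := bun_exists_map hP
  set G : Var n → MvPolynomial (Var n) (regRing k K a) := fun p =>
    linb p.1 (fun i => (⟨g p.1 i p.2, hg p.1 i p.2⟩ : regRing k K a)) with hG
  have h1 : substb g (MvPolynomial.map (algebraMap (regRing k K a) K) P') =
      MvPolynomial.map (algebraMap (regRing k K a) K) (MvPolynomial.aeval G P') := by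
    induction P' using MvPolynomial.induction_on with
    | C c =>
      rw [MvPolynomial.map_C, substb, ← MvPolynomial.algebraMap_eq, AlgHom.commutes,
        ← MvPolynomial.algebraMap_eq, AlgHom.commutes, MvPolynomial.algebraMap_eq,
        MvPolynomial.algebraMap_eq, MvPolynomial.map_C]
    | add p q hp hq =>
      rw [map_add, map_add, map_add, map_add, hp (fun s => by
        rw [MvPolynomial.coeff_map]; exact Subtype.property _), hq (fun s => by
        rw [MvPolynomial.coeff_map]; exact Subtype.property _)]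
    | mul_X p i hp =>
      rw [map_mul, map_mul, map_mul, map_mul, hp (fun s => by
        rw [MvPolynomial.coeff_map]; exact Subtype.property _), MvPolynomial.map_X,
        MvPolynomial.aeval_X, hG, map_linb, substb, MvPolynomial.aeval_X]
      rfl
  rw [h1, MvPolynomial.coeff_map]
  exact Subtype.property _

end

section

variable {k K : Type} [Field k] [Field K] [Algebra (RatFunc k) K] [Algebra k K]
  [IsScalarTower k (RatFunc k) K] [IsAlgClosed k] [CharZero k] [FiniteDimensional (RatFunc k) K]
  {J : Type} [DecidableEq J] [Fintype J] {n : J → ℕ}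

/-- a power of the uniformizer makes the coefficients regular -/
lemma bun_coeff_absorb (a : Option k) (P : MvPolynomial (Var n) K) :
    ∃ e : ℕ, ∀ s, (unifAt a) ^ e • P.coeff s ∈ regRing k K a := by
  classical
  choose e he using fun s => regRing_absorb (k := k) a (P.coeff s)
  refine ⟨∑ s ∈ P.support, e s, fun s => ?_⟩
  by_cases hs : s ∈ P.support
  · have h1 : e s ≤ ∑ s ∈ P.support, e s :=
      Finset.single_le_sum (fun _ _ => Nat.zero_le _) hs
    obtain ⟨d, hd⟩ := Nat.exists_eq_add_of_le' h1
    rw [hd, pow_add, mul_smul]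
    exact smul_regRing_mem (pow_mem (unifAt_mem a) d) (he s)
  · rw [MvPolynomial.notMem_support_iff.1 hs, smul_zero]
    exact Subalgebra.zero_mem _

lemma bun_absorb (m : J → ℕ) {R : ℕ} (a : Option k)
    {g : ∀ j, Matrix (Fin (n j)) (Fin (n j)) K} (hg : ∀ j, (g j).det ≠ 0)
    (π : MvPolynomial (Var n) K →ₗ[K] (Fin R → K)) (hπ : ∀ c, ∃ P ∈ MH K n m, π P = c)
    (v : Fin R → K) : ∃ e : ℕ, ∃ T ∈ MH (regRing k K a) n m,
      π (locMapb a 1 g T) = (unifAt a) ^ e • v := by
  obtain ⟨P, hP, rfl⟩ := hπ v
  obtain ⟨e, he⟩ := bun_coeff_absorb a (substb (fun j => (g j)⁻¹) P)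
  set c : K := algebraMap (RatFunc k) K ((unifAt a) ^ e) with hc
  have hcP : c • P ∈ MH K n m := Submodule.smul_mem _ _ hP
  obtain ⟨T, hT1, hT2⟩ := exists_locMapb (a := a) (t := (1 : K)) one_ne_zero hg hcP (by
    intro s
    rw [inv_one, MvPolynomial.C_1, one_mul, map_smul, MvPolynomial.coeff_smul, hc,
      algebraMap_smul]
    exact he s)
  refine ⟨e, T, hT1, ?_⟩
  rw [hT2, map_smul, hc, algebraMap_smul]

lemma bun_absorb_cond (Q : Cond k K n) (m : J → ℕ) {R : ℕ} (a : Option k)
    {g : ∀ j, Matrix (Fin (n j)) (Fin (n j)) K} (hg : ∀ j, (g j).det ≠ 0)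
    (π : MvPolynomial (Var n) K →ₗ[K] (Fin R → K)) (hπ : ∀ c, ∃ P ∈ MH K n m, π P = c)
    (v : Fin R → K) : ∃ e : ℕ, ∃ T ∈ condMod Q m a,
      π (locMapb a 1 g T) = (unifAt a) ^ e • v := by
  obtain ⟨e, T, hT, h1⟩ := bun_absorb m a hg π hπ v
  obtain ⟨e', he'⟩ := Q.absorb a T
  set c : localRing a := ⟨_, pow_mem (unifAt_mem a) e'⟩ with hc
  have h2 : c • T = (algebraMap (localRing a) (regRing k K a) c) • T :=
    (algebraMap_smul (regRing k K a) c T).symm
  refine ⟨e' + e, c • T, ⟨he', ?_⟩, ?_⟩
  · rw [h2]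
    exact Submodule.smul_mem _ _ hT
  · rw [h2, map_smul, pow_add, mul_smul, ← h1]
    have h3 : ∀ w : MvPolynomial (Var n) K, (algebraMap (localRing a) (regRing k K a) c) • w =
        (algebraMap (RatFunc k) K ((unifAt a) ^ e')) • w := fun w => rfl
    rw [h3, map_smul, algebraMap_smul]

lemma bun_frame {m : J → ℕ} {R : ℕ} {a : Option k}
    {g : ∀ j, Matrix (Fin (n j)) (Fin (n j)) K}
    (π : MvPolynomial (Var n) K →ₗ[K] (Fin R → K))
    (N : Submodule (regRing k K a) (MvPolynomial (Var n) (regRing k K a)))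
    (hN : N ≤ MH (regRing k K a) n m)
    (habs : ∀ v : Fin R → K, ∃ e : ℕ, ∃ T ∈ N, π (locMapb a 1 g T) = (unifAt a) ^ e • v) :
    ∃ H : Matrix (Fin R) (Fin R) K, H.det ≠ 0 ∧ lattice a H = N.map
      ((π.restrictScalars (regRing k K a)) ∘ₗ locMapb a 1 g) := by
  refine exists_frame a _ ?_ fun v => ?_
  · exact ((bun_fg m).map _).of_le (Submodule.map_mono hN)
  · obtain ⟨e, T, hT, h1⟩ := habs v
    exact ⟨e, T, hT, h1⟩

theorem exists_mbundle {g : ∀ j, Option k → Matrix (Fin (n j)) (Fin (n j)) K}
    (hg : ∀ j, IsBundle (g j)) (m : J → ℕ) {R : ℕ}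
    (π : MvPolynomial (Var n) K →ₗ[K] (Fin R → K)) (hπ : ∀ c, ∃ P ∈ MH K n m, π P = c) :
    ∃ H : Option k → Matrix (Fin R) (Fin R) K, IsBundle H ∧
      ∀ a, lattice a (H a) = (MH (regRing k K a) n m).map
        ((π.restrictScalars (regRing k K a)) ∘ₗ locMapb a 1 fun j => g j a) := by
  classical
  have hH : ∀ a, ∃ H : Matrix (Fin R) (Fin R) K, H.det ≠ 0 ∧ lattice a H =
      (MH (regRing k K a) n m).map
        ((π.restrictScalars (regRing k K a)) ∘ₗ locMapb a 1 fun j => g j a) := fun a =>
    bun_frame π _ le_rfl (bun_absorb m a (fun j => (hg j).1 a) π hπ)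
  choose H hHd hHl using hH
  refine ⟨H, ⟨hHd, ?_⟩, hHl⟩
  -- the sections of `π`
  choose P hP hPπ using fun l : Fin R => hπ (Pi.single l 1)
  have f1 : {a : Option k | ∃ j, lattice a (g j a) ≠ lattice a 1}.Finite := by
    have : {a : Option k | ∃ j, lattice a (g j a) ≠ lattice a 1} =
        ⋃ j, {a | lattice a (g j a) ≠ lattice a 1} := by
      ext a
      simp
    rw [this]
    exact Set.finite_iUnion fun j => (hg j).2
  have f2 : {a : Option k | ∃ l, ∃ s ∈ (P l).support, (P l).coeff s ∉ regRing k K a}.Finite := by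
    have : {a : Option k | ∃ l, ∃ s ∈ (P l).support, (P l).coeff s ∉ regRing k K a} =
        ⋃ l, ⋃ s ∈ (P l).support, {a : Option k | (P l).coeff s ∉ regRing k K a} := by
      ext a
      simp
    rw [this]
    exact Set.finite_iUnion fun l =>
      Set.Finite.biUnion (Finset.finite_toSet _) fun s _ => regRing_cofinite _
  have f3 : {a : Option k | ∃ d ∈ (bun_finite (n := n) m).toFinset, ∃ i,
      π (MvPolynomial.monomial d 1) i ∉ regRing k K a}.Finite := by
    have : {a : Option k | ∃ d ∈ (bun_finite (n := n) m).toFinset, ∃ i,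
        π (MvPolynomial.monomial d 1) i ∉ regRing k K a} =
        ⋃ d ∈ (bun_finite (n := n) m).toFinset, ⋃ i,
          {a : Option k | π (MvPolynomial.monomial d 1) i ∉ regRing k K a} := by
      ext a
      simp
    rw [this]
    exact Set.Finite.biUnion (Finset.finite_toSet _) fun d _ =>
      Set.finite_iUnion fun i => regRing_cofinite _
  refine ((f1.union f2).union f3).subset ?_
  intro a ha
  by_contra hcon
  simp only [Set.mem_union, Set.mem_ofPred_eq, not_or, not_exists, not_and, not_not] at hcon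
  obtain ⟨⟨h1, h2⟩, h3⟩ := hcon
  apply ha
  have hint := fun j => integral_of_lattice_eq ((hg j).1 a) (h1 j)
  rw [hHl a]
  ext v
  rw [mem_lattice_one]
  constructor
  · rintro ⟨T, hT, rfl⟩ i
    change π (locMapb a 1 (fun j => g j a) T) i ∈ regRing k K a
    set S : MvPolynomial (Var n) K := locMapb a 1 (fun j => g j a) T with hS
    have hSw : S.IsWeightedHomogeneous (wt n) m := locMapb_isWH 1 _ hT
    have hSc : ∀ s, S.coeff s ∈ regRing k K a := by
      intro s
      have e1 : S = substb (fun j => g j a)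
          (MvPolynomial.map (algebraMap (regRing k K a) K) T) := by
        rw [hS]
        change MvPolynomial.C 1 * _ = _
        rw [MvPolynomial.C_1, one_mul]
      rw [e1]
      refine bun_coeff_substb (fun j i i' => (hint j).1 i i') (fun s => ?_) s
      rw [MvPolynomial.coeff_map]
      exact Subtype.property _
    rw [MvPolynomial.as_sum S, map_sum, Finset.sum_apply]
    refine Subalgebra.sum_mem _ fun s hs => ?_
    have e2 : MvPolynomial.monomial s (S.coeff s) =
        (S.coeff s) • (MvPolynomial.monomial s (1 : K) : MvPolynomial (Var n) K) := by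
      rw [MvPolynomial.smul_monomial, smul_eq_mul, mul_one]
    rw [e2, map_smul, Pi.smul_apply, smul_eq_mul]
    refine Subalgebra.mul_mem _ (hSc s) (h3 s ?_ i)
    rw [Set.Finite.mem_toFinset]
    exact hSw (MvPolynomial.mem_support_iff.1 hs)
  · intro hv
    -- the section
    have hT : ∀ l, ∃ T ∈ MH (regRing k K a) n m,
        locMapb a 1 (fun j => g j a) T = P l := by
      intro l
      have hc : ∀ s, (P l).coeff s ∈ regRing k K a := by
        intro s
        by_cases hs : s ∈ (P l).support
        · exact h2 l s hs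
        · rw [MvPolynomial.notMem_support_iff.1 hs]
          exact Subalgebra.zero_mem _
      obtain ⟨T, hT1, hT2⟩ := exists_locMapb (a := a) (t := (1 : K)) one_ne_zero
        (g := fun j => g j a) (fun j => (hg j).1 a) (hP l) (by
        intro s
        rw [inv_one, MvPolynomial.C_1, one_mul]
        exact bun_coeff_substb (fun j i i' => (hint j).2 i i') hc s)
      exact ⟨T, hT1, hT2⟩
    choose T hT1 hT2 using hT
    refine ⟨∑ l, (⟨v l, hv l⟩ : regRing k K a) • T l,
      Submodule.sum_mem _ fun l _ => Submodule.smul_mem _ _ (hT1 l), ?_⟩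
    rw [map_sum]
    have e3 : ∀ l, ((π.restrictScalars (regRing k K a)) ∘ₗ locMapb a 1 fun j => g j a)
        ((⟨v l, hv l⟩ : regRing k K a) • T l) = v l • (Pi.single l (1 : K) : Fin R → K) := by
      intro l
      rw [map_smul]
      change (⟨v l, hv l⟩ : regRing k K a) • π (locMapb a 1 (fun j => g j a) (T l)) = _
      rw [hT2, hPπ]
      rfl
    simp only [e3]
    ext i
    rw [Finset.sum_apply]
    simp [Pi.single_apply]

/-- the image of the forms in an ideal of finite colength -/
theorem exists_condFrame (Q : Cond k K n) {a : Option k}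
    {g : ∀ j, Matrix (Fin (n j)) (Fin (n j)) K}
    (hg : ∀ j, (g j).det ≠ 0) (m : J → ℕ) {R : ℕ}
    (π : MvPolynomial (Var n) K →ₗ[K] (Fin R → K)) (hπ : ∀ c, ∃ P ∈ MH K n m, π P = c)
    {H₀ : Matrix (Fin R) (Fin R) K} (hd : H₀.det ≠ 0)
    (hH₀ : lattice a H₀ = (MH (regRing k K a) n m).map
        ((π.restrictScalars (regRing k K a)) ∘ₗ locMapb a 1 g)) :
    ∃ H₁ : Matrix (Fin R) (Fin R) K, H₁.det ≠ 0 ∧
      lattice a H₁ = (condMod Q m a).map
        ((π.restrictScalars (regRing k K a)) ∘ₗ locMapb a 1 g) ∧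
      ordOver a H₁.det ≤ ordOver a H₀.det + Q.c a := by
  obtain ⟨H₁, hd₁, hH₁⟩ := bun_frame π (condMod Q m a) inf_le_right
    (bun_absorb_cond Q m a hg π hπ)
  refine ⟨H₁, hd₁, hH₁, ordOver_det_le a hd hd₁ ?_ ?_⟩
  · rw [hH₀, hH₁]
    exact Submodule.map_mono inf_le_right
  · have h1 : CodimLE k (MH (regRing k K a) n m : Set (MvPolynomial (Var n) (regRing k K a)))
        (condMod Q m a) (Q.c a) := by
      intro ι _ v hv hind
      refine Q.codim a ι v (fun _ => trivial) fun c hc => hind c ⟨hc, ?_⟩
      exact ((MH (regRing k K a) n m).restrictScalars k).sum_mem fun i _ =>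
        ((MH (regRing k K a) n m).restrictScalars k).smul_mem _ (hv i)
    have h2 := h1.image
      (((π.restrictScalars (regRing k K a)) ∘ₗ locMapb a 1 g).restrictScalars k)
    rw [hH₀, hH₁]
    exact h2

end

end Pool.Agent.FJ3
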