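import Pool.Agent.FJ3.Defs

/-!
# FJ3 / Cnd: the conditions of vanishing at points
-/

set_option linter.unusedSectionVars false

namespace Pool.Agent.FJ3

open Pool.Agent.Helper38.Scroll Pool.Agent.FJ Matrix Module

section

variable {k K : Type} [Field k] [Field K] [Algebra (RatFunc k) K] [Algebra k K]
  [IsScalarTower k (RatFunc k) K] [IsAlgClosed k] [CharZero k] [FiniteDimensional (RatFunc k) K]
  {J : Type} [DecidableEq J] [Fintype J] {n : J → ℕ}

section eval

variable {R : Type} [CommRing R] [Algebra k R] {a : Option k}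
  (θ : regRing k K a →ₐ[k] R) (ℓ : Var n → R)

/-- The ideal of the polynomials vanishing at an `R`-valued point. -/
noncomputable def conIdeal : Ideal (MvPolynomial (Var n) (regRing k K a)) :=
  RingHom.ker (MvPolynomial.eval₂Hom (θ : regRing k K a →+* R) ℓ)

lemma mem_conIdeal {T : MvPolynomial (Var n) (regRing k K a)} :
    T ∈ conIdeal θ ℓ ↔ MvPolynomial.eval₂ (θ : regRing k K a →+* R) ℓ T = 0 := Iff.rfl

lemma con_smul (m : ℕ) (T : MvPolynomial (Var n) (regRing k K a)) :
    (⟨_, pow_mem (unifAt_mem a) m⟩ : localRing a) • T = MvPolynomial.C (unifB a ^ m) * T := by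
  apply MvPolynomial.ext
  intro s
  rw [MvPolynomial.coeff_smul, MvPolynomial.coeff_C_mul]
  apply Subtype.ext
  change unifAt a ^ m • ((T.coeff s : regRing k K a) : K) =
    ((unifB a : regRing k K a) : K) ^ m * ((T.coeff s : regRing k K a) : K)
  have h2 : ((unifB a : regRing k K a) : K) = algebraMap (RatFunc k) K (unifAt a) := rfl
  rw [h2, ← map_pow, Algebra.smul_def]

lemma con_absorb {m : ℕ} (hm : θ (unifB a) ^ m = 0)
    (T : MvPolynomial (Var n) (regRing k K a)) :
    ∃ m : ℕ, (⟨_, pow_mem (unifAt_mem a) m⟩ : localRing a) • T ∈ conIdeal θ ℓ := by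
  refine ⟨m, ?_⟩
  rw [mem_conIdeal, con_smul, MvPolynomial.eval₂_mul, MvPolynomial.eval₂_C]
  have h1 : (θ : regRing k K a →+* R) (unifB a ^ m) = 0 := by
    rw [map_pow]
    exact hm
  rw [h1, zero_mul]

lemma con_codim [FiniteDimensional k R] {c : ℕ} (hc : finrank k R ≤ c) :
    CodimLE k (Set.univ : Set (MvPolynomial (Var n) (regRing k K a))) (conIdeal θ ℓ) c := by
  intro ι _ v _ hind
  refine le_trans ?_ hc
  let ev : MvPolynomial (Var n) (regRing k K a) →ₗ[k] R :=
    { toFun := fun T => MvPolynomial.eval₂ (θ : regRing k K a →+* R) ℓ T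
      map_add' := fun S T => MvPolynomial.eval₂_add _ _
      map_smul' := by
        intro t T
        have h1 : t • T = MvPolynomial.C (algebraMap k (regRing k K a) t) * T := by
          apply MvPolynomial.ext
          intro s
          rw [MvPolynomial.coeff_smul, MvPolynomial.coeff_C_mul, Algebra.smul_def]
        rw [h1, MvPolynomial.eval₂_mul, MvPolynomial.eval₂_C, RingHom.id_apply]
        have h2 : (θ : regRing k K a →+* R) (algebraMap k (regRing k K a) t) =
            algebraMap k R t := θ.commutes t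
        rw [h2, Algebra.smul_def] }
  let φ : (ι → k) →ₗ[k] R := ev ∘ₗ (Fintype.linearCombination k v)
  have hφ : Function.Injective φ := by
    rw [injective_iff_map_eq_zero]
    intro g hg
    apply hind g
    have h1 : Fintype.linearCombination k v g = ∑ i, g i • v i := rfl
    rw [← h1]
    exact hg
  have := LinearMap.finrank_le_finrank_of_injective hφ
  rwa [Module.finrank_fintype_fun_eq_card] at this

end eval

variable (k K n) in
/-- No conditions. -/
noncomputable def conTop : Cond k K n where
  I := fun _ => ⊤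
  c := fun _ => 0
  fin := by simp
  cfin := by simp
  absorb := fun a v => ⟨0, trivial⟩
  codim := by
    intro a ι _ v _ hind
    exact codimLE_self' (k := k) (MvPolynomial (Var n) (regRing k K a)) ⊤ ι v
      (fun i => trivial) (fun g _ => hind g trivial)

open Classical in
/-- Impose a condition at `a`. -/
noncomputable def conUpd (Q : Cond k K n) (a : Option k)
    (I₀ : Ideal (MvPolynomial (Var n) (regRing k K a))) (c₀ : ℕ)
    (habs : ∀ T : MvPolynomial (Var n) (regRing k K a), ∃ m : ℕ,
      (⟨_, pow_mem (unifAt_mem a) m⟩ : localRing a) • T ∈ I₀)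
    (hcod : CodimLE k (Set.univ : Set (MvPolynomial (Var n) (regRing k K a))) I₀ c₀) :
    Cond k K n where
  I := Function.update Q.I a I₀
  c := Function.update Q.c a c₀
  fin := by
    refine (Q.fin.insert a).subset ?_
    intro b hb
    by_cases hba : b = a
    · left; exact hba
    · right
      simp only [Set.mem_ofPred_eq] at hb ⊢
      rwa [Function.update_of_ne hba] at hb
  cfin := by
    refine (Q.cfin.insert a).subset ?_
    intro b hb
    by_cases hba : b = a
    · left; exact hba
    · right
      simp only [Set.mem_ofPred_eq] at hb ⊢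
      rwa [Function.update_of_ne hba] at hb
  absorb := by
    intro b v
    by_cases hba : b = a
    · subst hba
      rw [Function.update_self]
      exact habs v
    · rw [Function.update_of_ne hba]
      exact Q.absorb b v
  codim := by
    intro b
    by_cases hba : b = a
    · subst hba
      rw [Function.update_self, Function.update_self]
      exact hcod
    · rw [Function.update_of_ne hba, Function.update_of_ne hba]
      exact Q.codim b

/-- the condition of vanishing at an `R`-valued point -/
theorem exists_cond_one {R : Type} [CommRing R] [Algebra k R] [FiniteDimensional k R]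
    {a : Option k} (θ : regRing k K a →ₐ[k] R) (ℓ : Var n → R) {m : ℕ}
    (hm : θ (unifB a) ^ m = 0) (hc : finrank k R ≤ 2) :
    ∃ Q : Cond k K n, ∑ᶠ a, Q.c a ≤ 2 ∧
      ∀ T ∈ Q.I a, MvPolynomial.eval₂ (θ : regRing k K a →+* R) ℓ T = 0 := by
  classical
  refine ⟨conUpd (conTop k K n) a (conIdeal θ ℓ) 2 (con_absorb θ ℓ hm) (con_codim θ ℓ hc),
    ?_, ?_⟩
  · rw [finsum_eq_single _ a]
    · simp [conUpd]
    · intro b hb
      simp [conUpd, conTop, hb]
  · intro T hT
    have h1 : (conUpd (conTop k K n) a (conIdeal θ ℓ) 2 (con_absorb θ ℓ hm)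
        (con_codim θ ℓ hc)).I a = conIdeal θ ℓ := by
      simp [conUpd]
    rw [h1] at hT
    exact hT

/-- the condition of vanishing at two points in different fibres over the line -/
theorem exists_cond_two {a b : Option k} (hab : b ≠ a) (χ : regRing k K a →ₐ[k] k)
    (ℓ : Var n → k) (χ' : regRing k K b →ₐ[k] k) (ℓ' : Var n → k) :
    ∃ Q : Cond k K n, ∑ᶠ a, Q.c a ≤ 2 ∧
      (∀ T ∈ Q.I a, MvPolynomial.eval₂ (χ : regRing k K a →+* k) ℓ T = 0) ∧
      ∀ T ∈ Q.I b, MvPolynomial.eval₂ (χ' : regRing k K b →+* k) ℓ' T = 0 := by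
  classical
  have h1 : finrank k k ≤ 1 := (finrank_self k).le
  have hu : χ (unifB a) ^ 1 = 0 := by rw [hom_unifB, pow_one]
  have hu' : χ' (unifB b) ^ 1 = 0 := by rw [hom_unifB, pow_one]
  set Q₁ : Cond k K n := conUpd (conTop k K n) a (conIdeal χ ℓ) 1 (con_absorb χ ℓ hu)
    (con_codim χ ℓ h1) with hQ₁
  set Q : Cond k K n := conUpd Q₁ b (conIdeal χ' ℓ') 1 (con_absorb χ' ℓ' hu')
    (con_codim χ' ℓ' h1) with hQ
  have hIa : Q.I a = conIdeal χ ℓ := by
    simp [hQ, hQ₁, conUpd, hab.symm]
  have hIb : Q.I b = conIdeal χ' ℓ' := by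
    simp [hQ, conUpd]
  have hca : Q.c a = 1 := by
    simp [hQ, hQ₁, conUpd, hab.symm]
  have hcb : Q.c b = 1 := by
    simp [hQ, conUpd]
  refine ⟨Q, ?_, ?_, ?_⟩
  · have h2 : ∑ᶠ x, Q.c x = ∑ x ∈ {a, b}, Q.c x := by
      apply finsum_eq_sum_of_support_subset
      intro x hx
      by_contra hcon
      simp only [Finset.coe_insert, Finset.coe_singleton, Set.mem_insert_iff,
        Set.mem_singleton_iff, not_or] at hcon
      apply hx
      simp [hQ, hQ₁, conUpd, conTop, hcon.1, hcon.2]
    rw [h2, Finset.sum_pair hab.symm, hca, hcb]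
  · intro T hT
    rw [hIa] at hT
    exact hT
  · intro T hT
    rw [hIb] at hT
    exact hT

end

end Pool.Agent.FJ3
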