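import Pool.Agent.FJ.NUM

/-!
# FJ3: fibre products of projective bundles: internal definitions
-/

set_option linter.unusedSectionVars false

namespace Pool.Agent.FJ3

open Pool.Agent.Helper38.Scroll Pool.Agent.FJ Matrix Module

section

variable {J : Type} [DecidableEq J]

/-- The variables: `n j` variables for the factor `j`. -/
abbrev Var (n : J → ℕ) : Type := Σ j : J, Fin (n j)

/-- The multidegrees of the variables. -/
def wt (n : J → ℕ) : Var n → J → ℕ := fun p => Pi.single p.1 1

/-- The forms of multidegree `D`. -/
noncomputable abbrev MH (R : Type) [CommRing R] (n : J → ℕ) (D : J → ℕ) :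
    Submodule R (MvPolynomial (Var n) R) :=
  MvPolynomial.weightedHomogeneousSubmodule R (wt n) D

/-- The linear form of a vector in the variables of the factor `j`. -/
noncomputable def linb {R : Type} [CommRing R] {n : J → ℕ} (j : J) (v : Fin (n j) → R) :
    MvPolynomial (Var n) R :=
  ∑ i, MvPolynomial.C (v i) * MvPolynomial.X ⟨j, i⟩

/-- The product of the linear forms of a family of vectors. -/
noncomputable def prodb {R : Type} [CommRing R] [Fintype J] {n D : J → ℕ}
    (v : ∀ p : (Σ j : J, Fin (D j)), Fin (n p.1) → R) : MvPolynomial (Var n) R :=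
  ∏ p, linb p.1 (v p)

end

section

variable {k K : Type} [Field k] [Field K] [Algebra (RatFunc k) K] [Algebra k K]
  [IsScalarTower k (RatFunc k) K] {J : Type} [DecidableEq J] {n : J → ℕ}

/-- The substitution `linb j v ↦ linb j (g j *ᵥ v)`. -/
noncomputable def substb (g : ∀ j, Matrix (Fin (n j)) (Fin (n j)) K) :
    MvPolynomial (Var n) K →ₐ[K] MvPolynomial (Var n) K :=
  MvPolynomial.aeval (fun p => linb p.1 (fun i => g p.1 i p.2))

/-- From local coordinates to rational forms. -/
noncomputable def locMapb (a : Option k) (t : K) (g : ∀ j, Matrix (Fin (n j)) (Fin (n j)) K) :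
    MvPolynomial (Var n) (regRing k K a) →ₗ[regRing k K a] MvPolynomial (Var n) K where
  toFun T := MvPolynomial.C t *
    substb g (MvPolynomial.map (algebraMap (regRing k K a) K) T)
  map_add' T T' := by rw [map_add, map_add, mul_add]
  map_smul' c T := by
    have h1 : MvPolynomial.map (algebraMap (regRing k K a) K) (c • T) =
        (c : K) • MvPolynomial.map (algebraMap (regRing k K a) K) T := by
      rw [MvPolynomial.smul_eq_C_mul, map_mul, MvPolynomial.map_C, MvPolynomial.smul_eq_C_mul]
      rfl
    rw [h1, map_smul, mul_smul_comm]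
    rfl

variable (K n) in
/-- The rational forms of multidegree `D`. -/
abbrev MForms (D : J → ℕ) : Type := ↥(MH K n D)

variable (k K n) in
/-- Conditions: ideals of the rings of forms with regular coefficients, of finite colength. -/
structure Cond where
  I : ∀ a : Option k, Ideal (MvPolynomial (Var n) (regRing k K a))
  c : Option k → ℕ
  fin : {a | I a ≠ ⊤}.Finite
  cfin : {a | c a ≠ 0}.Finite
  absorb : ∀ a (T : MvPolynomial (Var n) (regRing k K a)), ∃ m : ℕ,
    (⟨_, pow_mem (unifAt_mem a) m⟩ : localRing a) • T ∈ I a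
  codim : ∀ a, CodimLE k (Set.univ : Set (MvPolynomial (Var n) (regRing k K a))) (I a) (c a)

/-- The forms of multidegree `D` with regular coefficients in the ideal. -/
noncomputable def condMod (Q : Cond k K n) (D : J → ℕ) (a : Option k) :
    Submodule (regRing k K a) (MvPolynomial (Var n) (regRing k K a)) :=
  (Q.I a).restrictScalars (regRing k K a) ⊓ MH (regRing k K a) n D

lemma mem_condMod {Q : Cond k K n} {D : J → ℕ} {a : Option k}
    {T : MvPolynomial (Var n) (regRing k K a)} :
    T ∈ condMod Q D a ↔ T ∈ Q.I a ∧ T.IsWeightedHomogeneous (wt n) D := Iff.rfl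

/-- The lattices. -/
noncomputable def Wlb (Q : Cond k K n) (g : ∀ j, Option k → Matrix (Fin (n j)) (Fin (n j)) K)
    (D : J → ℕ) (τ : Option k → K) (a : Option k) : Submodule (localRing a) (MForms K n D) :=
  (((condMod Q D a).map (locMapb a (τ a) fun j => g j a)).restrictScalars (localRing a)).comap
    ((MH K n D).subtype.restrictScalars (localRing a))

lemma mem_Wlb {Q : Cond k K n} {g : ∀ j, Option k → Matrix (Fin (n j)) (Fin (n j)) K}
    {D : J → ℕ} {τ : Option k → K} {a : Option k} {u : MForms K n D} :
    u ∈ Wlb Q g D τ a ↔ ∃ T ∈ condMod Q D a, locMapb a (τ a) (fun j => g j a) T =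
      (u : MvPolynomial (Var n) K) := Iff.rfl

variable (k K) in
/-- A global section, internal form. -/
structure Secb (g : ∀ j, Option k → Matrix (Fin (n j)) (Fin (n j)) K) (D : J → ℕ)
    (τ : Option k → K) where
  form : MvPolynomial (Var n) K
  loc : ∀ a : Option k, MvPolynomial (Var n) (regRing k K a)
  mh : ∀ a, (loc a).IsWeightedHomogeneous (wt n) D
  eq : ∀ a, form = locMapb a (τ a) (fun j => g j a) (loc a)

/-- Its value at a point. -/
noncomputable def Secb.value {g : ∀ j, Option k → Matrix (Fin (n j)) (Fin (n j)) K} {D : J → ℕ}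
    {τ : Option k → K} (s : Secb k K g D τ) {R : Type} [CommRing R] [Algebra k R]
    {a : Option k} (θ : regRing k K a →ₐ[k] R) (ℓ : ∀ j, Fin (n j) → R) : R :=
  MvPolynomial.eval₂ (θ : regRing k K a →+* R) (fun p => ℓ p.1 p.2) (s.loc a)

end

end Pool.Agent.FJ3
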