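import Pool.Agent.FJ3.Defs

/-!
# FJ3, module SPN: the forms of multidegree `D` are spanned by the products of linear forms
-/

set_option linter.unusedSectionVars false

namespace Pool.Agent.FJ3

open Pool.Agent.Helper38.Scroll Pool.Agent.FJ Matrix Module

section

variable {J : Type} [DecidableEq J] {n : J → ℕ}

theorem spn_linb_isWH {R : Type} [CommRing R] (j : J) (v : Fin (n j) → R) :
    (linb j v).IsWeightedHomogeneous (wt n) (Pi.single j 1) := by
  unfold linb
  refine MvPolynomial.IsWeightedHomogeneous.sum _ _ _ fun i _ => ?_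
  exact (MvPolynomial.isWeightedHomogeneous_X R (wt n) (⟨j, i⟩ : Var n)).C_mul (v i)

theorem spn_prodb_isWH {R : Type} [CommRing R] [Fintype J] {D : J → ℕ}
    (v : ∀ p : (Σ j : J, Fin (D j)), Fin (n p.1) → R) :
    (prodb v).IsWeightedHomogeneous (wt n) D := by
  have h := MvPolynomial.IsWeightedHomogeneous.prod (Finset.univ : Finset (Σ j : J, Fin (D j)))
    (fun p => linb p.1 (v p)) (fun p => (Pi.single p.1 1 : J → ℕ)) (w := wt n)
    (fun p _ => spn_linb_isWH p.1 (v p))
  have h2 : ∑ p : (Σ j : J, Fin (D j)), (Pi.single p.1 1 : J → ℕ) = D := by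
    funext j
    rw [Finset.sum_apply, Fintype.sum_sigma, Finset.sum_eq_single j]
    · simp
    · intro j' _ hj'
      refine Finset.sum_eq_zero fun i _ => ?_
      exact Pi.single_eq_of_ne hj'.symm _
    · intro h
      exact absurd (Finset.mem_univ j) h
  rw [h2] at h
  exact h

theorem spn_linb_single {R : Type} [CommRing R] (j : J) (i : Fin (n j)) :
    linb (n := n) (R := R) j (Pi.single i 1) = MvPolynomial.X ⟨j, i⟩ := by
  unfold linb
  rw [Finset.sum_eq_single i]
  · rw [Pi.single_eq_same, map_one, one_mul]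
  · intro l _ hl
    rw [Pi.single_eq_of_ne hl, map_zero, zero_mul]
  · intro h
    exact absurd (Finset.mem_univ i) h

theorem spn_weight [Fintype J] (s : Var n →₀ ℕ) (j : J) :
    Finsupp.weight (wt n) s j = ∑ i : Fin (n j), s ⟨j, i⟩ := by
  rw [Finsupp.weight_apply, Finsupp.sum_fintype _ _ (fun i => zero_smul ℕ (wt n i)),
    Finset.sum_apply, Fintype.sum_sigma, Finset.sum_eq_single j]
  · refine Finset.sum_congr rfl fun i _ => ?_
    simp [wt]
  · intro j' _ hj'
    refine Finset.sum_eq_zero fun i _ => ?_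
    simp [wt, hj'.symm]
  · intro h
    exact absurd (Finset.mem_univ j) h

theorem spn_monomial {R : Type} [CommRing R] [Fintype J] {D : J → ℕ} (s : Var n →₀ ℕ)
    (hs : Finsupp.weight (wt n) s = D) :
    ∃ c : (∀ p : (Σ j : J, Fin (D j)), Fin (n p.1)),
      (MvPolynomial.monomial s 1 : MvPolynomial (Var n) R) =
        prodb fun p => Pi.single (c p) 1 := by
  have hD : ∀ j, ∑ i : Fin (n j), s ⟨j, i⟩ = D j := fun j => by rw [← spn_weight, hs]
  have e' : ∀ j, Fin (D j) ≃ (Σ i : Fin (n j), Fin (s ⟨j, i⟩)) := by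
    intro j
    refine Fintype.equivOfCardEq ?_
    rw [Fintype.card_fin, Fintype.card_sigma, ← hD j]
    simp
  have h3 : ∀ j, ∏ l : Fin (D j), (MvPolynomial.X (⟨j, (e' j l).1⟩ : Var n) :
      MvPolynomial (Var n) R) = ∏ i, MvPolynomial.X (⟨j, i⟩ : Var n) ^ s ⟨j, i⟩ := by
    intro j
    have h4 := Equiv.prod_comp (e' j) (fun q : (Σ i : Fin (n j), Fin (s ⟨j, i⟩)) =>
      (MvPolynomial.X (⟨j, q.1⟩ : Var n) : MvPolynomial (Var n) R))
    rw [h4, Fintype.prod_sigma]
    simp only [Finset.prod_const, Finset.card_univ, Fintype.card_fin]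
  refine ⟨fun p => (e' p.1 p.2).1, ?_⟩
  rw [MvPolynomial.monomial_eq, map_one, one_mul,
    Finsupp.prod_fintype _ _ (fun _ => pow_zero _), Fintype.prod_sigma]
  unfold prodb
  rw [Fintype.prod_sigma]
  simp only [spn_linb_single]
  exact Finset.prod_congr rfl fun j _ => (h3 j).symm

theorem spn_key {R : Type} [CommRing R] [Fintype J] (D : J → ℕ) :
    MH R n D ≤ Submodule.span R (Set.range fun c : (∀ p : (Σ j : J, Fin (D j)), Fin (n p.1)) =>
      (prodb fun p => (Pi.single (c p) 1 : Fin (n p.1) → R) : MvPolynomial (Var n) R)) := by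
  intro P hP
  rw [MvPolynomial.mem_weightedHomogeneousSubmodule] at hP
  rw [P.as_sum]
  refine Submodule.sum_mem _ fun s hs => ?_
  have hw : Finsupp.weight (wt n) s = D := hP (MvPolynomial.mem_support_iff.1 hs)
  obtain ⟨c, hc⟩ := spn_monomial (R := R) s hw
  have h1 : (MvPolynomial.monomial s (MvPolynomial.coeff s P) : MvPolynomial (Var n) R) =
      MvPolynomial.coeff s P • MvPolynomial.monomial s 1 := by
    rw [MvPolynomial.smul_monomial, smul_eq_mul, mul_one]
  rw [h1, hc]
  exact Submodule.smul_mem _ _ (Submodule.subset_span ⟨c, rfl⟩)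

theorem MH_le_span {R : Type} [CommRing R] [Fintype J] (D : J → ℕ) :
    MH R n D ≤ Submodule.span R (Set.range fun v : (∀ p : (Σ j : J, Fin (D j)), Fin (n p.1) → R) =>
      prodb v) := by
  refine (spn_key D).trans (Submodule.span_mono ?_)
  rintro _ ⟨c, rfl⟩
  exact ⟨_, rfl⟩

/-- the products of a form of multidegree `m`, and a product of linear forms of multidegree `D`,
generate the forms of multidegree `m + D` -/
theorem MH_add_le_span {R : Type} [CommRing R] [Fintype J] (m D : J → ℕ) :
    MH R n (m + D) ≤ Submodule.span R {P | ∃ Z ∈ MH R n m,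
      ∃ v : (∀ p : (Σ j : J, Fin (D j)), Fin (n p.1) → R), P = Z * prodb v} := by
  refine (MH_le_span (m + D)).trans (Submodule.span_mono ?_)
  rintro _ ⟨v, rfl⟩
  refine ⟨prodb (D := m) fun p => v ⟨p.1, Fin.castAdd (D p.1) p.2⟩, ?_,
    fun p => v ⟨p.1, Fin.natAdd (m p.1) p.2⟩, ?_⟩
  · exact (MvPolynomial.mem_weightedHomogeneousSubmodule _ _ _ _).2 (spn_prodb_isWH _)
  · change prodb v = _
    unfold prodb
    rw [Fintype.prod_sigma, Fintype.prod_sigma, Fintype.prod_sigma, ← Finset.prod_mul_distrib]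
    refine Finset.prod_congr rfl fun j _ => ?_
    exact Fin.prod_univ_add (fun l : Fin (m j + D j) => linb j (v ⟨j, l⟩))

instance MH_finite (K : Type) [Field K] [Finite J] (n D : J → ℕ) :
    FiniteDimensional K (MH K n D) := by
  cases nonempty_fintype J
  have h1 : FiniteDimensional K (Submodule.span K
      (Set.range fun c : (∀ p : (Σ j : J, Fin (D j)), Fin (n p.1)) =>
        (prodb fun p => (Pi.single (c p) 1 : Fin (n p.1) → K) : MvPolynomial (Var n) K))) :=
    FiniteDimensional.span_of_finite K (Set.finite_range _)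
  exact Submodule.finiteDimensional_of_le (spn_key D)

end

end Pool.Agent.FJ3
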