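import Pool.Agent.FJ3.LIN
import Pool.Agent.FJ3.SPN
import Pool.Agent.FJ.LAT

/-!
# FJ3: the lattice family of the forms with conditions
-/

set_option linter.unusedSectionVars false

namespace Pool.Agent.FJ3

open Pool.Agent.Helper38.Scroll Pool.Agent.FJ Matrix Module

section

variable {k K : Type} [Field k] [Field K] [Algebra (RatFunc k) K] [Algebra k K]
  [IsScalarTower k (RatFunc k) K] {J : Type} [DecidableEq J] {n : J → ℕ}

/-- A polynomial with regular coefficients comes from a polynomial over the regular ring. -/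
theorem lat_exists_map {a : Option k} {P : MvPolynomial (Var n) K}
    (hP : ∀ s, P.coeff s ∈ regRing k K a) :
    ∃ P' : MvPolynomial (Var n) (regRing k K a),
      MvPolynomial.map (algebraMap (regRing k K a) K) P' = P := by
  refine ⟨∑ s ∈ P.support, MvPolynomial.monomial s ⟨P.coeff s, hP s⟩, ?_⟩
  rw [map_sum]
  conv_rhs => rw [MvPolynomial.as_sum P]
  refine Finset.sum_congr rfl fun s _ => ?_
  rw [MvPolynomial.map_monomial]
  rfl

/-- Substitution by regular matrices preserves the regularity of the coefficients. -/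
theorem lat_coeff_subst {a : Option k} {g : ∀ j, Matrix (Fin (n j)) (Fin (n j)) K}
    (hg : ∀ j i i', g j i i' ∈ regRing k K a) {P : MvPolynomial (Var n) K}
    (hP : ∀ s, P.coeff s ∈ regRing k K a) (s : Var n →₀ ℕ) :
    (substb g P).coeff s ∈ regRing k K a := by
  obtain ⟨P', rfl⟩ := lat_exists_map hP
  set G : Var n → MvPolynomial (Var n) (regRing k K a) := fun p =>
    linb p.1 (fun i => (⟨g p.1 i p.2, hg p.1 i p.2⟩ : regRing k K a)) with hG
  have h1 : substb g (MvPolynomial.map (algebraMap (regRing k K a) K) P') =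
      MvPolynomial.map (algebraMap (regRing k K a) K) (MvPolynomial.aeval G P') := by
    induction P' using MvPolynomial.induction_on with
    | C c =>
      rw [MvPolynomial.map_C, substb, ← MvPolynomial.algebraMap_eq, AlgHom.commutes,
        ← MvPolynomial.algebraMap_eq, AlgHom.commutes, MvPolynomial.algebraMap_eq,
        MvPolynomial.algebraMap_eq, MvPolynomial.map_C]
    | add p q hp hq =>
      rw [map_add, map_add, map_add, map_add, hp (fun s => by
        rw [MvPolynomial.coeff_map]; exact Subtype.property _), hq (fun s => by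
        rw [MvPolynomial.coeff_map]; exact Subtype.property _)]
    | mul_X p i hp =>
      rw [map_mul, map_mul, map_mul, map_mul, hp (fun s => by
        rw [MvPolynomial.coeff_map]; exact Subtype.property _), MvPolynomial.map_X,
        MvPolynomial.aeval_X, hG, map_linb, substb, MvPolynomial.aeval_X]
      rfl
  rw [h1, MvPolynomial.coeff_map]
  exact Subtype.property _

variable [IsAlgClosed k] [CharZero k] [FiniteDimensional (RatFunc k) K] [Fintype J]

theorem Wlb_fin (Q : Cond k K n) {g : ∀ j, Option k → Matrix (Fin (n j)) (Fin (n j)) K}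
    (hg : ∀ j, IsBundle (g j)) (D : J → ℕ) {τ : Option k → K} (hτ : IsTwist τ)
    (u : MForms K n D) : {a | u ∉ Wlb Q g D τ a}.Finite := by
  have hcoef : {a : Option k | ∃ s ∈ (u : MvPolynomial (Var n) K).support,
      (u : MvPolynomial (Var n) K).coeff s ∉ regRing k K a}.Finite := by
    have h1 : {a : Option k | ∃ s ∈ (u : MvPolynomial (Var n) K).support,
      (u : MvPolynomial (Var n) K).coeff s ∉ regRing k K a} =
      ⋃ s ∈ (u : MvPolynomial (Var n) K).support,
        {a : Option k | (u : MvPolynomial (Var n) K).coeff s ∉ regRing k K a} := by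
      ext a
      simp
    rw [h1]
    exact Set.Finite.biUnion (Finset.finite_toSet _) fun s _ => regRing_cofinite _
  have hgf : {a : Option k | ∃ j, lattice a (g j a) ≠ lattice a 1}.Finite := by
    have h1 : {a : Option k | ∃ j, lattice a (g j a) ≠ lattice a 1} =
        ⋃ j, {a : Option k | lattice a (g j a) ≠ lattice a 1} := by
      ext a
      simp
    rw [h1]
    exact Set.finite_iUnion fun j => (hg j).2
  refine (((Q.fin.union hgf).union hτ.2).union hcoef).subset ?_
  intro a ha
  by_contra hcon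
  simp only [Set.mem_union, Set.mem_ofPred_eq, not_or, not_not, not_exists, not_and] at hcon
  obtain ⟨⟨⟨h1, h2⟩, h3⟩, h4⟩ := hcon
  apply ha
  have h6 : ∀ j i i', (g j a)⁻¹ i i' ∈ regRing k K a := fun j =>
    (integral_of_lattice_eq ((hg j).1 a) (h2 j)).2
  have h4' : ∀ s, (u : MvPolynomial (Var n) K).coeff s ∈ regRing k K a := by
    intro s
    by_cases hs : s ∈ (u : MvPolynomial (Var n) K).support
    · exact h4 s hs
    · rw [MvPolynomial.notMem_support_iff.1 hs]
      exact Subalgebra.zero_mem _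
  have hhom : (u : MvPolynomial (Var n) K).IsWeightedHomogeneous (wt n) D :=
    (MvPolynomial.mem_weightedHomogeneousSubmodule _ _ _ _).1 u.2
  obtain ⟨T, hT1, hT2⟩ := exists_locMapb (a := a) (hτ.1 a) (fun j => (hg j).1 a) hhom (by
    intro s
    rw [MvPolynomial.coeff_C_mul]
    exact Subalgebra.mul_mem _ h3 (lat_coeff_subst h6 h4' s))
  exact mem_Wlb.2 ⟨T, mem_condMod.2 ⟨by rw [h1]; exact Submodule.mem_top, hT1⟩, hT2⟩

theorem Wlb_absorb (Q : Cond k K n) {g : ∀ j, Option k → Matrix (Fin (n j)) (Fin (n j)) K}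
    (hg : ∀ j, IsBundle (g j)) (D : J → ℕ) {τ : Option k → K} (hτ : IsTwist τ) (a : Option k)
    (u : MForms K n D) : ∃ m : ℕ, (unifAt a) ^ m • u ∈ Wlb Q g D τ a := by
  have hhom : (u : MvPolynomial (Var n) K).IsWeightedHomogeneous (wt n) D :=
    (MvPolynomial.mem_weightedHomogeneousSubmodule _ _ _ _).1 u.2
  set X : MvPolynomial (Var n) K := MvPolynomial.C (τ a)⁻¹ *
    substb (fun j => (g j a)⁻¹) (u : MvPolynomial (Var n) K) with hX
  obtain ⟨m₁, hm₁⟩ : ∃ m : ℕ, ∀ s, (unifAt a) ^ m • X.coeff s ∈ regRing k K a := by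
    choose m hm using fun s => regRing_absorb (k := k) a (X.coeff s)
    refine ⟨∑ s ∈ X.support, m s, fun s => ?_⟩
    by_cases hs : s ∈ X.support
    · have h1 : m s ≤ ∑ s ∈ X.support, m s :=
        Finset.single_le_sum (fun _ _ => Nat.zero_le _) hs
      obtain ⟨d, hd⟩ := Nat.exists_eq_add_of_le' h1
      rw [hd, pow_add, mul_smul]
      exact smul_regRing_mem (pow_mem (unifAt_mem a) d) (hm s)
    · rw [MvPolynomial.notMem_support_iff.1 hs, smul_zero]
      exact Subalgebra.zero_mem _
  have hhom' : ((unifAt a) ^ m₁ • (u : MvPolynomial (Var n) K)).IsWeightedHomogeneous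
      (wt n) D :=
    (MvPolynomial.mem_weightedHomogeneousSubmodule _ _ _ _).1 ((unifAt a) ^ m₁ • u).2
  obtain ⟨T, hT1, hT2⟩ := exists_locMapb (a := a) (hτ.1 a) (fun j => (hg j).1 a) hhom' (by
    intro s
    have h1 : MvPolynomial.C (τ a)⁻¹ * substb (fun j => (g j a)⁻¹)
        ((unifAt a) ^ m₁ • (u : MvPolynomial (Var n) K)) = (unifAt a) ^ m₁ • X := by
      rw [hX, ← algebraMap_smul K ((unifAt a) ^ m₁) (u : MvPolynomial (Var n) K), map_smul,
        mul_smul_comm, algebraMap_smul]
    rw [h1, MvPolynomial.coeff_smul]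
    exact hm₁ s)
  obtain ⟨m₂, hm₂⟩ := Q.absorb a T
  have hm₃ : (⟨_, pow_mem (unifAt_mem a) m₂⟩ : localRing a) • T ∈ condMod Q D a := by
    refine mem_condMod.2 ⟨hm₂, ?_⟩
    rw [← algebraMap_smul (regRing k K a)
      (⟨_, pow_mem (unifAt_mem a) m₂⟩ : localRing a) T]
    exact (MvPolynomial.mem_weightedHomogeneousSubmodule _ _ _ _).1
      (Submodule.smul_mem _ _ ((MvPolynomial.mem_weightedHomogeneousSubmodule _ _ _ _).2 hT1))
  refine ⟨m₂ + m₁, mem_Wlb.2 ⟨_, hm₃, ?_⟩⟩
  rw [← algebraMap_smul (regRing k K a)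
    (⟨_, pow_mem (unifAt_mem a) m₂⟩ : localRing a) T, map_smul, hT2, pow_add, mul_smul]
  refine MvPolynomial.ext _ _ fun s => ?_
  change _ = MvPolynomial.coeff s ((unifAt a) ^ m₂ • ((unifAt a) ^ m₁ •
    (u : MvPolynomial (Var n) K)))
  simp only [MvPolynomial.coeff_smul]
  rw [Algebra.smul_def ((unifAt a) ^ m₂)]
  rfl

/-- The lattice family. -/
noncomputable def latFamb (Q : Cond k K n)
    {g : ∀ j, Option k → Matrix (Fin (n j)) (Fin (n j)) K}
    (hg : ∀ j, IsBundle (g j)) (D : J → ℕ) {τ : Option k → K} (hτ : IsTwist τ) :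
    LatticeFamily k (MForms K n D) where
  W := Wlb Q g D τ
  fin := Wlb_fin Q hg D hτ
  absorb := Wlb_absorb Q hg D hτ

variable (k K) in
/-- The vanishing hypothesis: for all conditions of total colength at most two. -/
def Vanishb (g : ∀ j, Option k → Matrix (Fin (n j)) (Fin (n j)) K) (hg : ∀ j, IsBundle (g j))
    (D : J → ℕ) (τ : Option k → K) (hτ : IsTwist τ) : Prop :=
  ∀ Q : Cond k K n, ∑ᶠ a, Q.c a ≤ 2 → ∀ u : MForms K n D,
    u ∈ (latFamb Q hg D hτ).W0 ⊔ (latFamb Q hg D hτ).Wi

end

end Pool.Agent.FJ3
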