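import Pool.Agent.FJ.Statement

/-!
# Line bundles on fibre products of projective bundles over a curve: definitions

`C` is the smooth projective curve with function field `K`, a finite extension of `k(x)`, and
`E₁, ..., E_t` are vector bundles of ranks `n₁, ..., n_t` on `C`, given by frames `g j` (see
`Pool/Agent/Helper38/Scroll/Statement.lean`). The line bundles on the fibre product
`X = ℙ(E₁) ×_C ... ×_C ℙ(E_t)` of the projective bundles of one-dimensional quotients are the
`O(m₁, ..., m_t) ⊗ B`, `B` a line bundle on `C`, given by local generators `β a ∈ K^×`, one for the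
points over each `a ∈ ℙ¹` (see `Pool/Agent/FJ/Statement.lean`). A form of multidegree
`d = (d₁, ..., d_t)` is a polynomial in the variables `X ⟨j, i⟩`, `j = 1, ..., t`,
`i = 1, ..., n_j`, which is homogeneous of degree `d_j` in the variables `X ⟨j, i⟩` for each `j`,
i.e. weighted homogeneous of weight `d` if `X ⟨j, i⟩` has as weight the `j`-th unit vector.
-/

namespace Pool.Agent.FJ3

open Pool.Agent.Helper38.Scroll Pool.Agent.FJ MvPolynomial

variable {k K : Type} [Field k] [Field K] [Algebra (RatFunc k) K] {t : ℕ} {n : Fin t → ℕ}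

/-- Positivity of the line bundle `A = O(m₁, ..., m_t) ⊗ B` on `X`: the degrees `m_j` on the lines
in the fibres are positive, and `∑ m_j deg Q_j / s_j + deg B > 0` for all quotient bundles `Q_j` of
`E_j` of ranks `s_j > 0`. This holds if `A` is ample: if all `m_j ≥ 1`, then the number on the left
is a positive multiple of the top self-intersection number of the restriction of `A` to
`ℙ(Q₁) ×_C ... ×_C ℙ(Q_t)`. -/
def IsPositive₃ (g : ∀ j, Option k → Matrix (Fin (n j)) (Fin (n j)) K) (m : Fin t → ℕ)
    (β : Option k → K) : Prop :=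
  (∀ j, 0 < m j) ∧ ∀ (s : Fin t → ℕ) (A : ∀ j, Matrix (Fin (s j)) (Fin (n j)) K)
    (h : ∀ j, Option k → Matrix (Fin (s j)) (Fin (s j)) K),
    (∀ j, 0 < s j ∧ (A j).rank = s j ∧ Curve.IsQuotientBundle (g j) (A j) (h j)) →
      0 < ∑ j, (m j : ℚ) * (Curve.degree (h j) / s j) + lineDegree β

/-- Nonnegativity of the line bundle `L = O(y₁, ..., y_t) ⊗ M` on `X`, where `μ` are local
generators of `M`: the degrees `y_j` on the lines in the fibres are nonnegative, and
`∑ y_j deg Q_j / s_j + deg M ≥ 0` for all quotient bundles `Q_j` of `E_j` of ranks `s_j > 0`. This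
holds if `L` is nef, in particular if `L` is ample or trivial. -/
def IsNef₃ (g : ∀ j, Option k → Matrix (Fin (n j)) (Fin (n j)) K) (y : Fin t → ℕ)
    (μ : Option k → K) : Prop :=
  ∀ (s : Fin t → ℕ) (A : ∀ j, Matrix (Fin (s j)) (Fin (n j)) K)
    (h : ∀ j, Option k → Matrix (Fin (s j)) (Fin (s j)) K),
    (∀ j, 0 < s j ∧ (A j).rank = s j ∧ Curve.IsQuotientBundle (g j) (A j) (h j)) →
      0 ≤ ∑ j, (y j : ℚ) * (Curve.degree (h j) / s j) + lineDegree μ

variable [Algebra k K] [IsScalarTower k (RatFunc k) K]

/-- A global section of `Sym^d₁ E₁ ⊗ ... ⊗ Sym^d_t E_t ⊗ M`, where `E_j` has frames `g j` and the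
line bundle `M` has local generators `τ`: over each `a` it is `τ a` times the form `loc a` of
multidegree `d` in the columns of the frames `g j a`, with coefficients regular over `a`. (The
vector `v` of `K^(n j)` is identified with the linear form `∑ v_i X ⟨j, i⟩`.) -/
structure GlobalSection₃ (g : ∀ j, Option k → Matrix (Fin (n j)) (Fin (n j)) K)
    (d : Fin t → ℕ) (τ : Option k → K) where
  /-- the rational section -/
  form : MvPolynomial (Σ j, Fin (n j)) K
  /-- its coordinates in the local frames -/
  loc : ∀ a : Option k, MvPolynomial (Σ j, Fin (n j)) (Curve.regularRing k K a)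
  homogeneous : ∀ a, (loc a).IsWeightedHomogeneous
    (fun p => Pi.single p.1 1 : (Σ j, Fin (n j)) → Fin t → ℕ) d
  eq : ∀ a, form = C (τ a) * aeval (fun p => ∑ i, C (g p.1 a i p.2) * X ⟨p.1, i⟩)
    (map (algebraMap (Curve.regularRing k K a) K) (loc a))

/-- The value of a section at the `R`-valued point of `X` given by an `R`-valued point `θ` of the
curve and the quotients `R^(n j) → R` of the fibres of the `E_j` with coordinates `ℓ j`, in the
given local frames. -/
noncomputable def GlobalSection₃.value {g : ∀ j, Option k → Matrix (Fin (n j)) (Fin (n j)) K}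
    {d : Fin t → ℕ} {τ : Option k → K} (s : GlobalSection₃ g d τ) {R : Type} [CommRing R]
    [Algebra k R] {a : Option k} (θ : Curve.PointOver k K a R) (ℓ : ∀ j, Fin (n j) → R) : R :=
  eval₂ (θ : Curve.regularRing k K a →+* R) (fun p => ℓ p.1 p.2) (s.loc a)

/-- The sections of `O(d) ⊗ M` have no common zero on `X`; a closed point of `X` is a closed
point `p` of the curve and one-dimensional quotients of the fibres of the `E_j`. -/
def NoCommonZero₃ (g : ∀ j, Option k → Matrix (Fin (n j)) (Fin (n j)) K) (d : Fin t → ℕ)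
    (τ : Option k → K) : Prop :=
  ∀ (p : Curve.ClosedPoint k K) (x : ∀ j, Projectivization k (Fin (n j) → k)),
    ∃ s : GlobalSection₃ g d τ, s.value p.2 (fun j => (x j).rep) ≠ 0

/-- The sections of `O(d) ⊗ M` separate the closed points of `X`. -/
def SeparatesPoints₃ (g : ∀ j, Option k → Matrix (Fin (n j)) (Fin (n j)) K) (d : Fin t → ℕ)
    (τ : Option k → K) : Prop :=
  ∀ (p p' : Curve.ClosedPoint k K) (x x' : ∀ j, Projectivization k (Fin (n j) → k)),
    (p, x) ≠ (p', x') → ∃ s : GlobalSection₃ g d τ,
      s.value p.2 (fun j => (x j).rep) = 0 ∧ s.value p'.2 (fun j => (x' j).rep) ≠ 0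

/-- The sections of `O(d) ⊗ M` separate the tangent vectors of `X`: for every nonzero tangent
vector, i.e. nonconstant `k[ε]`-valued point, some section vanishes at the point but not along the
tangent vector. -/
def SeparatesTangents₃ (g : ∀ j, Option k → Matrix (Fin (n j)) (Fin (n j)) K) (d : Fin t → ℕ)
    (τ : Option k → K) : Prop :=
  ∀ (a : Option k) (θ : Curve.PointOver k K a (DualNumber k))
    (ℓ : ∀ j, Fin (n j) → DualNumber k), (∀ j, ∃ i, (ℓ j i).fst ≠ 0) →
    ¬ ((∀ b, (θ b).snd = 0) ∧ ∀ j, Curve.IsZeroTangent θ (ℓ j)) →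
      ∃ s : GlobalSection₃ g d τ, (s.value θ ℓ).fst = 0 ∧ (s.value θ ℓ).snd ≠ 0

/-- The line bundle `O(d) ⊗ M` on `X` is very ample. -/
def IsVeryAmple₃ (g : ∀ j, Option k → Matrix (Fin (n j)) (Fin (n j)) K) (d : Fin t → ℕ)
    (τ : Option k → K) : Prop :=
  NoCommonZero₃ g d τ ∧ SeparatesPoints₃ g d τ ∧ SeparatesTangents₃ g d τ

end Pool.Agent.FJ3
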