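import Pool.Agent.FJ3.Defs
import Pool.Agent.FJ3.Statement

/-!
# FJ3 / LGT: the theorem in terms of `Statement.lean`
-/

set_option linter.unusedSectionVars false

namespace Pool.Agent.FJ3

open Pool.Agent.Helper38.Scroll Pool.Agent.FJ Matrix Module

section

variable {k K : Type} [Field k] [Field K] [Algebra (RatFunc k) K] [Algebra k K]
  [IsScalarTower k (RatFunc k) K] {t : ℕ} {n : Fin t → ℕ}

lemma lgt_algebraMap_inc (a : Option k) :
    (algebraMap (Curve.regularRing k K a) K).comp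
      (inc (k := k) (K := K) a).toRingHom = algebraMap (regRing k K a) K :=
  RingHom.ext fun _ => rfl

/-- weighted homogeneous polynomials and coefficient maps -/
lemma lgt_map {R R' σ M : Type} [CommRing R] [CommRing R'] [AddCommMonoid M] (f : R →+* R')
    {w : σ → M} {p : MvPolynomial σ R} {d : M} (hp : p.IsWeightedHomogeneous w d) :
    (MvPolynomial.map f p).IsWeightedHomogeneous w d := by
  intro m hm
  rw [MvPolynomial.coeff_map] at hm
  apply hp
  intro h
  rw [h, map_zero] at hm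
  exact hm rfl

lemma lgt_locMapb (a : Option k) (c : K) (g : ∀ j, Matrix (Fin (n j)) (Fin (n j)) K)
    (T : MvPolynomial (Var n) (regRing k K a)) :
    locMapb a c g T = MvPolynomial.C c * MvPolynomial.aeval
      (fun p : Var n => ∑ i, MvPolynomial.C (g p.1 i p.2) * MvPolynomial.X ⟨p.1, i⟩)
      (MvPolynomial.map (algebraMap (regRing k K a) K) T) := rfl

/-- The section attached to a section. -/
noncomputable def lgt_toLight {g : ∀ j, Option k → Matrix (Fin (n j)) (Fin (n j)) K}
    {D : Fin t → ℕ} {τ : Option k → K} (s : Secb k K g D τ) : GlobalSection₃ g D τ where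
  form := s.form
  loc a := MvPolynomial.map (inc (k := k) (K := K) a).toRingHom (s.loc a)
  homogeneous a := lgt_map _ (s.mh a)
  eq a := by
    rw [MvPolynomial.map_map, lgt_algebraMap_inc, s.eq a, lgt_locMapb]

lemma lgt_value {g : ∀ j, Option k → Matrix (Fin (n j)) (Fin (n j)) K}
    {D : Fin t → ℕ} {τ : Option k → K} (s : Secb k K g D τ) {R : Type}
    [CommRing R] [Algebra k R] {a : Option k}
    (θ : Curve.PointOver k K a R) (ℓ : ∀ j, Fin (n j) → R) :
    (lgt_toLight s).value θ ℓ = s.value (θ.comp (inc a)) ℓ := by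
  rw [GlobalSection₃.value, Secb.value]
  change MvPolynomial.eval₂ (θ : Curve.regularRing k K a →+* R) (fun p => ℓ p.1 p.2)
    (MvPolynomial.map (inc (k := k) (K := K) a).toRingHom (s.loc a)) = _
  rw [MvPolynomial.eval₂_map]
  rfl

end

section

variable {k K : Type} [Field k] [Field K] [Algebra (RatFunc k) K] [Algebra k K]
  [IsScalarTower k (RatFunc k) K] [IsAlgClosed k] [CharZero k] [FiniteDimensional (RatFunc k) K]
  {t : ℕ} {n : Fin t → ℕ}

theorem light_veryAmpleb {g : ∀ j, Option k → Matrix (Fin (n j)) (Fin (n j)) K} {D : Fin t → ℕ}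
    {τ : Option k → K}
    (h1 : ∀ (p : CurvePoint k K) (x : ∀ j, Projectivization k (Fin (n j) → k)),
      ∃ s : Secb k K g D τ, s.value p.2 (fun j => (x j).rep) ≠ 0)
    (h2 : ∀ (p p' : CurvePoint k K) (x x' : ∀ j, Projectivization k (Fin (n j) → k)),
      (p, x) ≠ (p', x') → ∃ s : Secb k K g D τ, s.value p.2 (fun j => (x j).rep) = 0 ∧
        s.value p'.2 (fun j => (x' j).rep) ≠ 0)
    (h3 : ∀ (a : Option k) (θ : regRing k K a →ₐ[k] DualNumber k)
      (ℓ : ∀ j, Fin (n j) → DualNumber k), (∀ j, ∃ i, (ℓ j i).fst ≠ 0) →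
      ¬ ((∀ b, (θ b).snd = 0) ∧ ∀ j, ∃ c : k, ∀ i, (ℓ j i).snd = c * (ℓ j i).fst) →
      ∃ s : Secb k K g D τ, (s.value θ ℓ).fst = 0 ∧ (s.value θ ℓ).snd ≠ 0) :
    IsVeryAmple₃ g D τ := by
  refine ⟨?_, ?_, ?_⟩
  · intro p x
    obtain ⟨s, hs⟩ := h1 ⟨p.1, p.2.comp (inc _)⟩ x
    refine ⟨lgt_toLight s, ?_⟩
    rw [lgt_value]
    exact hs
  · intro p p' x x' hne
    have hne' : ((⟨p.1, p.2.comp (inc _)⟩, x) :
        CurvePoint k K × ∀ j, Projectivization k (Fin (n j) → k)) ≠
        (⟨p'.1, p'.2.comp (inc _)⟩, x') := by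
      intro h
      apply hne
      obtain ⟨a, θ⟩ := p
      obtain ⟨b, θ'⟩ := p'
      have h1 := congrArg Prod.fst h
      have h2 := congrArg Prod.snd h
      have h3 : a = b := congrArg Sigma.fst h1
      subst h3
      have h4 : θ.comp (inc a) = θ'.comp (inc a) := eq_of_heq (Sigma.mk.inj h1).2
      have h5 : θ = θ' := by
        apply AlgHom.ext
        intro y
        obtain ⟨z, rfl⟩ := inc_surjective a y
        exact congrArg (fun F => F z) h4
      have h6 : x = x' := h2
      rw [h5, h6]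
    obtain ⟨s, hs, hs'⟩ := h2 _ _ x x' hne'
    refine ⟨lgt_toLight s, ?_, ?_⟩
    · rw [lgt_value]
      exact hs
    · rw [lgt_value]
      exact hs'
  · intro a θ ℓ hℓ hne
    obtain ⟨s, hs, hs'⟩ := h3 a (θ.comp (inc a)) ℓ hℓ (by
      rintro ⟨h1, h2⟩
      have h4 : ∀ b, (θ b).snd = 0 := fun b => by
        obtain ⟨z, rfl⟩ := inc_surjective a b
        exact h1 z
      exact hne ⟨h4, fun j => ⟨h4, h2 j⟩⟩)
    refine ⟨lgt_toLight s, ?_, ?_⟩
    · rw [lgt_value]
      exact hs
    · rw [lgt_value]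
      exact hs'

end

end Pool.Agent.FJ3
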