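import Pool.Agent.FJ3.Defs

/-!
# FJ3, module LIN: linear forms, substitutions and the local maps
-/

set_option linter.unusedSectionVars false

namespace Pool.Agent.FJ3

open Pool.Agent.Helper38.Scroll Pool.Agent.FJ Matrix Module

variable {k K : Type} [Field k] [Field K] [Algebra (RatFunc k) K] [Algebra k K]
  [IsScalarTower k (RatFunc k) K] {J : Type} [DecidableEq J] {n : J → ℕ}

theorem linb_isWH {R : Type} [CommRing R] (j : J) (v : Fin (n j) → R) :
    (linb j v).IsWeightedHomogeneous (wt n) (Pi.single j 1) := by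
  unfold linb
  apply MvPolynomial.IsWeightedHomogeneous.sum
  intro i _
  have h1 := (MvPolynomial.isWeightedHomogeneous_C (wt n) (v i)).mul
    (MvPolynomial.isWeightedHomogeneous_X R (wt n) ⟨j, i⟩)
  rw [zero_add] at h1
  exact h1

theorem prodb_isWH {R : Type} [CommRing R] [Fintype J] {D : J → ℕ}
    (v : ∀ p : (Σ j : J, Fin (D j)), Fin (n p.1) → R) :
    (prodb v).IsWeightedHomogeneous (wt n) D := by
  have h1 := MvPolynomial.IsWeightedHomogeneous.prod (w := wt n) Finset.univ
    (fun p : (Σ j : J, Fin (D j)) => linb p.1 (v p)) (fun p => Pi.single p.1 1)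
    (fun p _ => linb_isWH p.1 (v p))
  have h2 : ∑ p : (Σ j : J, Fin (D j)), (Pi.single p.1 1 : J → ℕ) = D := by
    funext j
    rw [Finset.sum_apply, Fintype.sum_sigma]
    simp [Pi.single_apply]
  rw [h2] at h1
  exact h1

theorem map_linb {R S : Type} [CommRing R] [CommRing S] (f : R →+* S) (j : J)
    (v : Fin (n j) → R) : MvPolynomial.map f (linb j v) = linb j (fun i => f (v i)) := by
  simp only [linb, map_sum, map_mul, MvPolynomial.map_C, MvPolynomial.map_X]

theorem eval₂_linb {R S : Type} [CommRing R] [CommRing S] (f : R →+* S) (ℓ : Var n → S) (j : J)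
    (v : Fin (n j) → R) : MvPolynomial.eval₂ f ℓ (linb j v) = ∑ i, ℓ ⟨j, i⟩ * f (v i) := by
  unfold linb
  rw [MvPolynomial.eval₂_sum]
  apply Finset.sum_congr rfl
  intro i _
  rw [MvPolynomial.eval₂_mul, MvPolynomial.eval₂_C, MvPolynomial.eval₂_X, mul_comm]

theorem substb_linb (g : ∀ j, Matrix (Fin (n j)) (Fin (n j)) K) (j : J) (v : Fin (n j) → K) :
    substb g (linb j v) = linb j (g j *ᵥ v) := by
  unfold substb
  rw [MvPolynomial.aeval_def, eval₂_linb]
  unfold linb
  simp only [Matrix.mulVec, dotProduct, map_sum, map_mul, Finset.sum_mul]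
  rw [Finset.sum_comm]
  apply Finset.sum_congr rfl
  intro i _
  apply Finset.sum_congr rfl
  intro l _
  rw [MvPolynomial.algebraMap_eq]
  ring

lemma lin_substb_X (g : ∀ j, Matrix (Fin (n j)) (Fin (n j)) K) (p : Var n) :
    substb g (MvPolynomial.X p) = linb p.1 (fun i => g p.1 i p.2) := by
  unfold substb
  rw [MvPolynomial.aeval_X]

lemma lin_linb_single {R : Type} [CommRing R] (j : J) (i : Fin (n j)) (c : R) :
    linb j (Pi.single i c : Fin (n j) → R) = MvPolynomial.C c * MvPolynomial.X ⟨j, i⟩ := by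
  unfold linb
  rw [Finset.sum_eq_single i]
  · rw [Pi.single_eq_same]
  · intro l _ hl
    rw [Pi.single_eq_of_ne hl, map_zero, zero_mul]
  · simp

theorem substb_isWH (g : ∀ j, Matrix (Fin (n j)) (Fin (n j)) K) {P : MvPolynomial (Var n) K}
    {D : J → ℕ} (hP : P.IsWeightedHomogeneous (wt n) D) :
    (substb g P).IsWeightedHomogeneous (wt n) D := by
  rw [P.as_sum, map_sum]
  apply MvPolynomial.IsWeightedHomogeneous.sum
  intro s hs
  have h1 := hP (MvPolynomial.mem_support_iff.mp hs)
  rw [MvPolynomial.monomial_eq, map_mul, MvPolynomial.algHom_C, MvPolynomial.algebraMap_eq,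
    Finsupp.prod, map_prod]
  have h2 := MvPolynomial.IsWeightedHomogeneous.prod (w := wt n) s.support
    (fun p => substb g (MvPolynomial.X p ^ s p)) (fun p => s p • wt n p) (by
      intro p _
      rw [map_pow, lin_substb_X]
      exact (linb_isWH p.1 _).pow (s p))
  have h3 := (MvPolynomial.isWeightedHomogeneous_C (wt n) (P.coeff s)).mul h2
  rw [zero_add] at h3
  have h4 : ∑ p ∈ s.support, s p • wt n p = D := by
    rw [← h1, Finsupp.weight_apply, Finsupp.sum]
  rw [h4] at h3
  exact h3

theorem substb_comp (g h : ∀ j, Matrix (Fin (n j)) (Fin (n j)) K) (P : MvPolynomial (Var n) K) :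
    substb g (substb h P) = substb (fun j => g j * h j) P := by
  have h1 : (substb g).comp (substb h) = substb (fun j => g j * h j) := by
    apply MvPolynomial.algHom_ext
    intro p
    rw [AlgHom.comp_apply, lin_substb_X, lin_substb_X, substb_linb]
    rfl
  rw [← h1]
  rfl

theorem substb_one (P : MvPolynomial (Var n) K) :
    substb (fun j => (1 : Matrix (Fin (n j)) (Fin (n j)) K)) P = P := by
  have h1 : substb (fun j => (1 : Matrix (Fin (n j)) (Fin (n j)) K)) = AlgHom.id K _ := by
    apply MvPolynomial.algHom_ext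
    intro p
    rw [lin_substb_X, AlgHom.id_apply]
    have h1 : (fun i => (1 : Matrix (Fin (n p.1)) (Fin (n p.1)) K) i p.2) = Pi.single p.2 1 := by
      ext i
      rw [Matrix.one_apply, Pi.single_apply]
    rw [h1, lin_linb_single, map_one, one_mul]
  rw [h1]
  rfl

lemma lin_locMapb_apply (a : Option k) (t : K) (g : ∀ j, Matrix (Fin (n j)) (Fin (n j)) K)
    (T : MvPolynomial (Var n) (regRing k K a)) :
    locMapb a t g T = MvPolynomial.C t *
      substb g (MvPolynomial.map (algebraMap (regRing k K a) K) T) := rfl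

lemma lin_map_isWH {R S : Type} [CommRing R] [CommRing S] (f : R →+* S)
    {T : MvPolynomial (Var n) R} {D : J → ℕ} (hT : T.IsWeightedHomogeneous (wt n) D) :
    (MvPolynomial.map f T).IsWeightedHomogeneous (wt n) D := by
  intro s hs
  apply hT
  intro h
  apply hs
  rw [MvPolynomial.coeff_map, h, map_zero]

theorem locMapb_isWH {a : Option k} (t : K) (g : ∀ j, Matrix (Fin (n j)) (Fin (n j)) K)
    {T : MvPolynomial (Var n) (regRing k K a)} {D : J → ℕ}
    (hT : T.IsWeightedHomogeneous (wt n) D) :
    (locMapb a t g T).IsWeightedHomogeneous (wt n) D := by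
  rw [lin_locMapb_apply]
  have h := (MvPolynomial.isWeightedHomogeneous_C (wt n) t).mul
    (substb_isWH g (lin_map_isWH (algebraMap (regRing k K a) K) hT))
  rwa [zero_add] at h

theorem locMapb_mul {a : Option k} (s t : K) (g : ∀ j, Matrix (Fin (n j)) (Fin (n j)) K)
    (S T : MvPolynomial (Var n) (regRing k K a)) :
    locMapb a (s * t) g (S * T) = locMapb a s g S * locMapb a t g T := by
  simp only [lin_locMapb_apply, map_mul]
  ring

theorem locMapb_smul {a : Option k} (t : K) (g : ∀ j, Matrix (Fin (n j)) (Fin (n j)) K)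
    (T : MvPolynomial (Var n) (regRing k K a)) :
    locMapb a t g T = t • locMapb a 1 g T := by
  rw [lin_locMapb_apply, lin_locMapb_apply, map_one, one_mul, MvPolynomial.smul_eq_C_mul]

theorem locMapb_linb {a : Option k} (g : ∀ j, Matrix (Fin (n j)) (Fin (n j)) K) (j : J)
    (v : Fin (n j) → regRing k K a) : locMapb a 1 g (linb j v) = linb j (opMap a (g j) v) := by
  rw [lin_locMapb_apply, map_one, one_mul, map_linb, substb_linb]
  rfl

theorem locMapb_prodb [Fintype J] {D : J → ℕ} {a : Option k}
    (g : ∀ j, Matrix (Fin (n j)) (Fin (n j)) K)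
    (v : ∀ p : (Σ j : J, Fin (D j)), Fin (n p.1) → regRing k K a) :
    locMapb a 1 g (prodb v) = prodb fun p => opMap a (g p.1) (v p) := by
  rw [lin_locMapb_apply, map_one, one_mul]
  unfold prodb
  rw [map_prod, map_prod]
  refine Finset.prod_congr rfl fun p _ => ?_
  rw [map_linb, substb_linb]
  rfl

/-- every form with regular coefficients after the inverse substitution is in the image -/
theorem exists_locMapb {a : Option k} {t : K} (ht : t ≠ 0)
    {g : ∀ j, Matrix (Fin (n j)) (Fin (n j)) K} (hg : ∀ j, (g j).det ≠ 0)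
    {P : MvPolynomial (Var n) K} {D : J → ℕ} (hP : P.IsWeightedHomogeneous (wt n) D)
    (hreg : ∀ s, (MvPolynomial.C t⁻¹ * substb (fun j => (g j)⁻¹) P).coeff s ∈ regRing k K a) :
    ∃ T : MvPolynomial (Var n) (regRing k K a), T.IsWeightedHomogeneous (wt n) D ∧
      locMapb a t g T = P := by
  classical
  obtain ⟨P', hP'⟩ : ∃ P', P' = MvPolynomial.C t⁻¹ * substb (fun j => (g j)⁻¹) P := ⟨_, rfl⟩
  rw [← hP'] at hreg
  have hhom : P'.IsWeightedHomogeneous (wt n) D := by
    have h := (MvPolynomial.isWeightedHomogeneous_C (wt n) t⁻¹).mul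
      (substb_isWH (fun j => (g j)⁻¹) hP)
    rwa [zero_add, ← hP'] at h
  obtain ⟨T, hT⟩ : ∃ T : MvPolynomial (Var n) (regRing k K a),
      T = ∑ s ∈ P'.support, MvPolynomial.monomial s ⟨P'.coeff s, hreg s⟩ := ⟨_, rfl⟩
  have hTP : MvPolynomial.map (algebraMap (regRing k K a) K) T = P' := by
    rw [hT, map_sum]
    conv_rhs => rw [P'.as_sum]
    apply Finset.sum_congr rfl
    intro s _
    rw [MvPolynomial.map_monomial]
    rfl
  refine ⟨T, ?_, ?_⟩
  · rw [hT]
    apply MvPolynomial.IsWeightedHomogeneous.sum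
    intro s hs
    apply MvPolynomial.isWeightedHomogeneous_monomial
    exact hhom (MvPolynomial.mem_support_iff.mp hs)
  · have hgg : (fun j => g j * (g j)⁻¹) = fun j => (1 : Matrix (Fin (n j)) (Fin (n j)) K) := by
      funext j
      exact Matrix.mul_nonsing_inv _ (isUnit_iff_ne_zero.mpr (hg j))
    rw [lin_locMapb_apply, hTP, hP', map_mul, substb_comp, hgg, substb_one,
      MvPolynomial.algHom_C, MvPolynomial.algebraMap_eq, ← mul_assoc, ← map_mul,
      mul_inv_cancel₀ ht, map_one, one_mul]

end Pool.Agent.FJ3
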