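import Pool.Agent.FJ3.Defs

/-!
# FJ3 / THE: the determinant form
-/

set_option linter.unusedSectionVars false

namespace Pool.Agent.FJ3

open Pool.Agent.Helper38.Scroll Pool.Agent.FJ Matrix Module

section

variable {K : Type} [Field K] {J : Type} [DecidableEq J] [Fintype J] {n : J → ℕ}

/-- the ranks of the slots -/
def slotRank (n : J → ℕ) (D : J → ℕ) (R₀ R₁ : ℕ) :
    Fin R₀ ⊕ Fin R₀ ⊕ Fin R₀ × (Σ j : J, Fin (D j)) → ℕ
  | Sum.inl _ => R₀
  | Sum.inr (Sum.inl _) => R₁
  | Sum.inr (Sum.inr p) => n p.2.1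

lemma the_linb_add {j : J} (v w : Fin (n j) → K) : linb (n := n) j (v + w) = linb j v + linb j w := by
  simp only [linb, Pi.add_apply, map_add, add_mul, Finset.sum_add_distrib]

lemma the_linb_smul {j : J} (c : K) (v : Fin (n j) → K) : linb (n := n) j (c • v) = c • linb j v := by
  simp only [linb, Pi.smul_apply, smul_eq_mul, map_mul, Finset.smul_sum,
    MvPolynomial.smul_eq_C_mul, mul_assoc]

/-- The matrix. -/
noncomputable def theMat (φ : MvPolynomial (Var n) K →ₗ[K] K) (D : J → ℕ) {R₀ R₁ : ℕ}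
    (s₀ : (Fin R₀ → K) →ₗ[K] MvPolynomial (Var n) K)
    (s₁ : (Fin R₁ → K) →ₗ[K] MvPolynomial (Var n) K)
    (v : ∀ l, Fin (slotRank n D R₀ R₁ l) → K) : Matrix (Fin R₀) (Fin R₀) K :=
  Matrix.of fun i l => φ (s₀ (v (Sum.inl i)) *
    (s₁ (v (Sum.inr (Sum.inl l))) * prodb fun p => v (Sum.inr (Sum.inr (l, p)))))

section

variable (φ : MvPolynomial (Var n) K →ₗ[K] K) (D : J → ℕ) {R₀ R₁ : ℕ}
    (s₀ : (Fin R₀ → K) →ₗ[K] MvPolynomial (Var n) K)
    (s₁ : (Fin R₁ → K) →ₗ[K] MvPolynomial (Var n) K)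
    [DecidableEq (Fin R₀ ⊕ Fin R₀ ⊕ Fin R₀ × (Σ j : J, Fin (D j)))]
    (v : ∀ l, Fin (slotRank n D R₀ R₁ l) → K)

lemma theMat_inl (i : Fin R₀) (x : Fin R₀ → K) :
    theMat φ D s₀ s₁ (Function.update v (Sum.inl i) x) =
      (theMat φ D s₀ s₁ v).updateRow i (fun l => φ (s₀ x *
        (s₁ (v (Sum.inr (Sum.inl l))) * prodb fun p => v (Sum.inr (Sum.inr (l, p)))))) := by
  ext i' l
  have h1 : Function.update v (Sum.inl i) x (Sum.inr (Sum.inl l)) = v (Sum.inr (Sum.inl l)) :=
    Function.update_of_ne (by simp) _ _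
  have h2 : (fun p => Function.update v (Sum.inl i) x (Sum.inr (Sum.inr (l, p)))) =
      fun p => v (Sum.inr (Sum.inr (l, p))) := by
    funext p
    exact Function.update_of_ne (by simp) _ _
  by_cases h : i' = i
  · subst h
    have h3 : Function.update v (Sum.inl i') x (Sum.inl i') = x := Function.update_self _ _ _
    rw [Matrix.updateRow_self]
    show φ (s₀ (Function.update v (Sum.inl i') x (Sum.inl i')) *
      (s₁ (Function.update v (Sum.inl i') x (Sum.inr (Sum.inl l))) *
        prodb fun p => Function.update v (Sum.inl i') x (Sum.inr (Sum.inr (l, p))))) = _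
    rw [h3, h1, h2]
  · have h3 : Function.update v (Sum.inl i) x (Sum.inl i') = v (Sum.inl i') :=
      Function.update_of_ne (fun h' => h (Sum.inl_injective h')) _ _
    rw [Matrix.updateRow_ne h]
    show φ (s₀ (Function.update v (Sum.inl i) x (Sum.inl i')) *
      (s₁ (Function.update v (Sum.inl i) x (Sum.inr (Sum.inl l))) *
        prodb fun p => Function.update v (Sum.inl i) x (Sum.inr (Sum.inr (l, p))))) = _
    rw [h3, h1, h2]
    rfl

lemma theMat_inm (l : Fin R₀) (x : Fin R₁ → K) :
    theMat φ D s₀ s₁ (Function.update v (Sum.inr (Sum.inl l)) x) =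
      (theMat φ D s₀ s₁ v).updateCol l (fun i => φ (s₀ (v (Sum.inl i)) *
        (s₁ x * prodb fun p => v (Sum.inr (Sum.inr (l, p)))))) := by
  ext i l'
  have h1 : Function.update v (Sum.inr (Sum.inl l)) x (Sum.inl i) = v (Sum.inl i) :=
    Function.update_of_ne (by simp) _ _
  have h2 : ∀ l', (fun p => Function.update v (Sum.inr (Sum.inl l)) x (Sum.inr (Sum.inr (l', p)))) =
      fun p => v (Sum.inr (Sum.inr (l', p))) := by
    intro l'
    funext p
    exact Function.update_of_ne (by simp) _ _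
  by_cases h : l' = l
  · subst h
    have h3 : Function.update v (Sum.inr (Sum.inl l')) x (Sum.inr (Sum.inl l')) = x :=
      Function.update_self _ _ _
    rw [Matrix.updateCol_self]
    show φ (s₀ (Function.update v (Sum.inr (Sum.inl l')) x (Sum.inl i)) *
      (s₁ (Function.update v (Sum.inr (Sum.inl l')) x (Sum.inr (Sum.inl l'))) *
        prodb fun p => Function.update v (Sum.inr (Sum.inl l')) x (Sum.inr (Sum.inr (l', p))))) = _
    rw [h3, h1, h2]
  · have h3 : Function.update v (Sum.inr (Sum.inl l)) x (Sum.inr (Sum.inl l')) =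
        v (Sum.inr (Sum.inl l')) :=
      Function.update_of_ne (fun h' => h (Sum.inl_injective (Sum.inr_injective h'))) _ _
    rw [Matrix.updateCol_ne h]
    show φ (s₀ (Function.update v (Sum.inr (Sum.inl l)) x (Sum.inl i)) *
      (s₁ (Function.update v (Sum.inr (Sum.inl l)) x (Sum.inr (Sum.inl l'))) *
        prodb fun p => Function.update v (Sum.inr (Sum.inl l)) x (Sum.inr (Sum.inr (l', p))))) = _
    rw [h3, h1, h2]
    rfl

lemma theMat_inr (l : Fin R₀) (q : Σ j : J, Fin (D j)) (x : Fin (n q.1) → K) :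
    theMat φ D s₀ s₁ (Function.update v (Sum.inr (Sum.inr (l, q))) x) =
      (theMat φ D s₀ s₁ v).updateCol l (fun i => φ (s₀ (v (Sum.inl i)) *
        (s₁ (v (Sum.inr (Sum.inl l))) * (linb q.1 x *
          ∏ p ∈ Finset.univ.erase q, linb p.1 (v (Sum.inr (Sum.inr (l, p)))))))) := by
  ext i l'
  have h1 : Function.update v (Sum.inr (Sum.inr (l, q))) x (Sum.inl i) = v (Sum.inl i) :=
    Function.update_of_ne (by simp) _ _
  have h2 : Function.update v (Sum.inr (Sum.inr (l, q))) x (Sum.inr (Sum.inl l')) =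
      v (Sum.inr (Sum.inl l')) := Function.update_of_ne (by simp) _ _
  by_cases h : l' = l
  · subst h
    have h3 : (prodb fun p => Function.update v (Sum.inr (Sum.inr (l', q))) x
        (Sum.inr (Sum.inr (l', p)))) = linb q.1 x *
          ∏ p ∈ Finset.univ.erase q, linb p.1 (v (Sum.inr (Sum.inr (l', p)))) := by
      unfold prodb
      rw [← Finset.mul_prod_erase Finset.univ _ (Finset.mem_univ q)]
      have h4 : Function.update v (Sum.inr (Sum.inr (l', q))) x (Sum.inr (Sum.inr (l', q))) = x :=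
        Function.update_self _ _ _
      have h5 : ∏ p ∈ Finset.univ.erase q, linb p.1
          (Function.update v (Sum.inr (Sum.inr (l', q))) x (Sum.inr (Sum.inr (l', p)))) =
          ∏ p ∈ Finset.univ.erase q, linb p.1 (v (Sum.inr (Sum.inr (l', p)))) := by
        refine Finset.prod_congr rfl fun p hp => ?_
        have h6 : Function.update v (Sum.inr (Sum.inr (l', q))) x (Sum.inr (Sum.inr (l', p))) =
            v (Sum.inr (Sum.inr (l', p))) := by
          refine Function.update_of_ne ?_ _ _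
          intro h'
          exact Finset.ne_of_mem_erase hp
            (congrArg Prod.snd (Sum.inr_injective (Sum.inr_injective h')))
        exact congrArg _ h6
      exact congrArg₂ (· * ·) (congrArg _ h4) h5
    rw [Matrix.updateCol_self]
    show φ (s₀ (Function.update v (Sum.inr (Sum.inr (l', q))) x (Sum.inl i)) *
      (s₁ (Function.update v (Sum.inr (Sum.inr (l', q))) x (Sum.inr (Sum.inl l'))) *
        prodb fun p => Function.update v (Sum.inr (Sum.inr (l', q))) x
          (Sum.inr (Sum.inr (l', p))))) = _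
    rw [h3, h1, h2]
  · have h3 : (fun p => Function.update v (Sum.inr (Sum.inr (l, q))) x
        (Sum.inr (Sum.inr (l', p)))) = fun p => v (Sum.inr (Sum.inr (l', p))) := by
      funext p
      refine Function.update_of_ne ?_ _ _
      intro h'
      exact h (congrArg Prod.fst (Sum.inr_injective (Sum.inr_injective h')))
    rw [Matrix.updateCol_ne h]
    show φ (s₀ (Function.update v (Sum.inr (Sum.inr (l, q))) x (Sum.inl i)) *
      (s₁ (Function.update v (Sum.inr (Sum.inr (l, q))) x (Sum.inr (Sum.inl l'))) *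
        prodb fun p => Function.update v (Sum.inr (Sum.inr (l, q))) x
          (Sum.inr (Sum.inr (l', p))))) = _
    rw [h3, h1, h2]
    rfl

lemma the_det_inl_add (i : Fin R₀) (x y : Fin R₀ → K) :
    (theMat φ D s₀ s₁ (Function.update v (Sum.inl i) (x + y))).det =
      (theMat φ D s₀ s₁ (Function.update v (Sum.inl i) x)).det +
      (theMat φ D s₀ s₁ (Function.update v (Sum.inl i) y)).det := by
  refine (congrArg Matrix.det (theMat_inl φ D s₀ s₁ v i (x + y))).trans ?_
  rw [theMat_inl, theMat_inl, ← Matrix.det_updateRow_add]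
  congr 2
  funext j
  simp only [Pi.add_apply]
  rw [map_add, add_mul, map_add]

lemma the_det_inl_smul (i : Fin R₀) (c : K) (x : Fin R₀ → K) :
    (theMat φ D s₀ s₁ (Function.update v (Sum.inl i) (c • x))).det =
      c • (theMat φ D s₀ s₁ (Function.update v (Sum.inl i) x)).det := by
  refine (congrArg Matrix.det (theMat_inl φ D s₀ s₁ v i (c • x))).trans ?_
  rw [theMat_inl, smul_eq_mul, ← Matrix.det_updateRow_smul]
  congr 2
  funext j
  simp only [Pi.smul_apply]
  rw [map_smul, smul_mul_assoc, map_smul]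

lemma the_det_inm_add (l : Fin R₀) (x y : Fin R₁ → K) :
    (theMat φ D s₀ s₁ (Function.update v (Sum.inr (Sum.inl l)) (x + y))).det =
      (theMat φ D s₀ s₁ (Function.update v (Sum.inr (Sum.inl l)) x)).det +
      (theMat φ D s₀ s₁ (Function.update v (Sum.inr (Sum.inl l)) y)).det := by
  refine (congrArg Matrix.det (theMat_inm φ D s₀ s₁ v l (x + y))).trans ?_
  rw [theMat_inm, theMat_inm, ← Matrix.det_updateCol_add]
  congr 2
  funext j
  simp only [Pi.add_apply]
  rw [map_add, add_mul, mul_add, map_add]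

lemma the_det_inm_smul (l : Fin R₀) (c : K) (x : Fin R₁ → K) :
    (theMat φ D s₀ s₁ (Function.update v (Sum.inr (Sum.inl l)) (c • x))).det =
      c • (theMat φ D s₀ s₁ (Function.update v (Sum.inr (Sum.inl l)) x)).det := by
  refine (congrArg Matrix.det (theMat_inm φ D s₀ s₁ v l (c • x))).trans ?_
  rw [theMat_inm, smul_eq_mul, ← Matrix.det_updateCol_smul]
  congr 2
  funext j
  simp only [Pi.smul_apply]
  rw [map_smul, smul_mul_assoc, mul_smul_comm, map_smul]

lemma the_det_inr_add (l : Fin R₀) (q : Σ j : J, Fin (D j)) (x y : Fin (n q.1) → K) :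
    (theMat φ D s₀ s₁ (Function.update v (Sum.inr (Sum.inr (l, q))) (x + y))).det =
      (theMat φ D s₀ s₁ (Function.update v (Sum.inr (Sum.inr (l, q))) x)).det +
      (theMat φ D s₀ s₁ (Function.update v (Sum.inr (Sum.inr (l, q))) y)).det := by
  refine (congrArg Matrix.det (theMat_inr φ D s₀ s₁ v l q (x + y))).trans ?_
  rw [theMat_inr, theMat_inr, ← Matrix.det_updateCol_add]
  congr 2
  funext j
  simp only [Pi.add_apply]
  rw [the_linb_add, add_mul, mul_add, mul_add, map_add]

lemma the_det_inr_smul (l : Fin R₀) (q : Σ j : J, Fin (D j)) (c : K) (x : Fin (n q.1) → K) :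
    (theMat φ D s₀ s₁ (Function.update v (Sum.inr (Sum.inr (l, q))) (c • x))).det =
      c • (theMat φ D s₀ s₁ (Function.update v (Sum.inr (Sum.inr (l, q))) x)).det := by
  refine (congrArg Matrix.det (theMat_inr φ D s₀ s₁ v l q (c • x))).trans ?_
  rw [theMat_inr, smul_eq_mul, ← Matrix.det_updateCol_smul]
  congr 2
  funext j
  simp only [Pi.smul_apply]
  rw [the_linb_smul, smul_mul_assoc, mul_smul_comm, mul_smul_comm, map_smul]

end

/-- The multilinear form. -/
noncomputable def theTheta (φ : MvPolynomial (Var n) K →ₗ[K] K) (D : J → ℕ) {R₀ R₁ : ℕ}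
    (s₀ : (Fin R₀ → K) →ₗ[K] MvPolynomial (Var n) K)
    (s₁ : (Fin R₁ → K) →ₗ[K] MvPolynomial (Var n) K) :
    MultilinearMap K (fun l => Fin (slotRank n D R₀ R₁ l) → K) K where
  toFun v := (theMat φ D s₀ s₁ v).det
  map_update_add' v i x y := by
    rcases i with i | l | ⟨l, q⟩
    · exact the_det_inl_add φ D s₀ s₁ v i x y
    · exact the_det_inm_add φ D s₀ s₁ v l x y
    · exact the_det_inr_add φ D s₀ s₁ v l q x y
  map_update_smul' v i c x := by
    rcases i with i | l | ⟨l, q⟩
    · exact the_det_inl_smul φ D s₀ s₁ v i c x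
    · exact the_det_inm_smul φ D s₀ s₁ v l c x
    · exact the_det_inr_smul φ D s₀ s₁ v l q c x

theorem exists_thetab (φ : MvPolynomial (Var n) K →ₗ[K] K) (D : J → ℕ) {R₀ R₁ : ℕ}
    (s₀ : (Fin R₀ → K) →ₗ[K] MvPolynomial (Var n) K)
    (s₁ : (Fin R₁ → K) →ₗ[K] MvPolynomial (Var n) K) :
    ∃ Θ : MultilinearMap K (fun l => Fin (slotRank n D R₀ R₁ l) → K) K,
      ∀ v : (∀ l, Fin (slotRank n D R₀ R₁ l) → K),
        Θ v = (Matrix.of fun i l => φ (s₀ (v (Sum.inl i)) *
          (s₁ (v (Sum.inr (Sum.inl l))) *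
            prodb fun p => v (Sum.inr (Sum.inr (l, p)))))).det :=
  ⟨theTheta φ D s₀ s₁, fun _ => rfl⟩

/-- linearity in the first slots, as a determinant -/
theorem thetab_alt (φ : MvPolynomial (Var n) K →ₗ[K] K) {R₀ : ℕ}
    (s₀ : (Fin R₀ → K) →ₗ[K] MvPolynomial (Var n) K) (M : Matrix (Fin R₀) (Fin R₀) K)
    (u : Fin R₀ → Fin R₀ → K) (y : Fin R₀ → MvPolynomial (Var n) K) :
    (Matrix.of fun i l => φ (s₀ (M *ᵥ u i) * y l)).det =
      M.det * (Matrix.of fun i l => φ (s₀ (u i) * y l)).det := by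
  have key : ∀ x : Fin R₀ → Fin R₀ → K, (Matrix.of fun i l => φ (s₀ (x i) * y l)) =
      (Matrix.of x) * (Matrix.of fun c l => φ (s₀ (Pi.single c 1) * y l)) := by
    intro x
    ext i l
    simp only [Matrix.of_apply, Matrix.mul_apply]
    have hx : x i = ∑ c, x i c • (Pi.single c 1 : Fin R₀ → K) := by
      funext c
      simp [Finset.sum_apply, Pi.single_apply]
    have hs : s₀ (x i) = ∑ c, x i c • s₀ (Pi.single c 1) := by
      conv_lhs => rw [hx]
      rw [map_sum]
      refine Finset.sum_congr rfl fun c _ => ?_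
      rw [map_smul]
    rw [hs, Finset.sum_mul, map_sum]
    refine Finset.sum_congr rfl fun c _ => ?_
    rw [smul_mul_assoc, map_smul, smul_eq_mul]
  have hM : (Matrix.of fun i => M *ᵥ u i) = (Matrix.of u) * Mᵀ := by
    ext i j
    simp [Matrix.mul_apply, Matrix.mulVec, dotProduct, mul_comm]
  rw [key u, key fun i => M *ᵥ u i, hM, Matrix.det_mul, Matrix.det_mul, Matrix.det_mul,
    Matrix.det_transpose]
  ring

end

end Pool.Agent.FJ3
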