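import Pool.Agent.FJ3.LIN
import Pool.Agent.FJ3.THE

/-!
# FJ3 / LOC: the local bound on the values of the determinant form
-/

set_option linter.unusedSectionVars false

namespace Pool.Agent.FJ3

open Pool.Agent.Helper38.Scroll Pool.Agent.FJ Matrix Module

section

variable {k K : Type} [Field k] [Field K] [Algebra (RatFunc k) K] [Algebra k K]
  [IsScalarTower k (RatFunc k) K] [IsAlgClosed k] [CharZero k] [FiniteDimensional (RatFunc k) K]
  {J : Type} [DecidableEq J] [Fintype J] {n : J → ℕ}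

theorem thetab_local (Q : Cond k K n) {a : Option k}
    {g : ∀ j, Matrix (Fin (n j)) (Fin (n j)) K}
    {γ : K} (hγ : γ ≠ 0) {m₀ m₁ D : J → ℕ} (φ : MvPolynomial (Var n) K →ₗ[K] K)
    (hφ : ∀ T ∈ condMod Q (m₀ + (m₁ + D)) a, γ * φ (locMapb a 1 g T) ∈ regRing k K a)
    {R₀ R₁ : ℕ} {π₀ : MvPolynomial (Var n) K →ₗ[K] (Fin R₀ → K)}
    {s₀ : (Fin R₀ → K) →ₗ[K] MvPolynomial (Var n) K} (hs₀ : ∀ c, s₀ c ∈ MH K n m₀)
    (hπ₀ : ∀ c, π₀ (s₀ c) = c)
    (hk₀ : ∀ P ∈ MH K n m₀, π₀ P = 0 → ∀ Y ∈ MH K n (m₁ + D), φ (P * Y) = 0)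
    {π₁ : MvPolynomial (Var n) K →ₗ[K] (Fin R₁ → K)}
    {s₁ : (Fin R₁ → K) →ₗ[K] MvPolynomial (Var n) K} (hs₁ : ∀ c, s₁ c ∈ MH K n m₁)
    (hπ₁ : ∀ c, π₁ (s₁ c) = c)
    (hk₁ : ∀ P ∈ MH K n m₁, π₁ P = 0 → ∀ Y ∈ MH K n (m₀ + D), φ (P * Y) = 0)
    {H₀ H₁ : Matrix (Fin R₀) (Fin R₀) K} (hH₀ : H₀.det ≠ 0) (hH₁ : H₁.det ≠ 0)
    (hl₀ : lattice a H₀ = (MH (regRing k K a) n m₀).map
        ((π₀.restrictScalars (regRing k K a)) ∘ₗ locMapb a 1 g))
    (hl₁ : lattice a H₁ = (condMod Q m₀ a).map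
        ((π₀.restrictScalars (regRing k K a)) ∘ₗ locMapb a 1 g))
    {H₂ : Matrix (Fin R₁) (Fin R₁) K}
    (hl₂ : lattice a H₂ = (MH (regRing k K a) n m₁).map
        ((π₁.restrictScalars (regRing k K a)) ∘ₗ locMapb a 1 g))
    (u : Fin R₀ → Fin R₀ → K) (hu : ∀ i, u i ∈ lattice a H₀)
    (z : Fin R₀ → Fin R₁ → K) (hz : ∀ i, z i ∈ lattice a H₂)
    (v : ∀ (_ : Fin R₀) (p : (Σ j : J, Fin (D j))), Fin (n p.1) → K)
    (hv : ∀ l p, v l p ∈ lattice a (g p.1)) :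
    ∃ c ∈ regRing k K a, (Matrix.of fun i l => φ (s₀ (u i) * (s₁ (z l) * prodb (v l)))).det =
      (γ⁻¹ ^ R₀ * (H₀.det * H₁.det⁻¹)) * c := by
  -- the local data
  have hu' : ∀ i : Fin R₀, ∃ S ∈ condMod Q m₀ a,
      u i = (H₀ * H₁⁻¹) *ᵥ π₀ (locMapb a 1 g S) := by
    intro i
    have h := hu i
    rw [lattice_eq_range] at h
    obtain ⟨c, hc⟩ := h
    have h2 : opMap a H₁ c ∈ lattice a H₁ := by rw [lattice_eq_range]; exact ⟨c, rfl⟩
    rw [hl₁] at h2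
    obtain ⟨S, hS, hS'⟩ := h2
    have hS'' : π₀ (locMapb a 1 g S) = opMap a H₁ c := hS'
    refine ⟨S, hS, ?_⟩
    rw [hS'', ← hc, opMap_apply, opMap_apply, mulVec_mulVec, Matrix.mul_assoc,
      Matrix.nonsing_inv_mul _ (isUnit_iff_ne_zero.mpr hH₁), Matrix.mul_one]
  have hz' : ∀ l : Fin R₀, ∃ Z ∈ MH (regRing k K a) n m₁, z l = π₁ (locMapb a 1 g Z) := by
    intro l
    have h := hz l
    rw [hl₂] at h
    obtain ⟨Z, hZ, hZ'⟩ := h
    exact ⟨Z, hZ, hZ'.symm⟩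
  have hv' : ∀ l (p : Σ j : J, Fin (D j)), ∃ y : Fin (n p.1) → regRing k K a,
      v l p = opMap a (g p.1) y := by
    intro l p
    have h := hv l p
    rw [lattice_eq_range] at h
    obtain ⟨y, hy⟩ := h
    exact ⟨y, hy.symm⟩
  choose S hS hu' using hu'
  choose Z hZ hz' using hz'
  choose y hy using hv'
  have hvl : ∀ l, prodb (v l) = locMapb a 1 g (prodb (y l)) := by
    intro l
    rw [locMapb_prodb]
    congr 1
    funext p
    exact hy l p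
  -- the entries
  set E : Matrix (Fin R₀) (Fin R₀) K :=
    Matrix.of fun i l => φ (s₀ (π₀ (locMapb a 1 g (S i))) * (s₁ (z l) * prodb (v l))) with hE
  have hSw : ∀ i, (locMapb a 1 g (S i)).IsWeightedHomogeneous (wt n) m₀ := fun i =>
    locMapb_isWH 1 g (hS i).2
  have hZw : ∀ l, (locMapb a 1 g (Z l)).IsWeightedHomogeneous (wt n) m₁ := fun l =>
    locMapb_isWH 1 g (hZ l)
  have hent' : ∀ i l, E i l = φ (locMapb a 1 g (S i * (Z l * prodb (y l)))) := by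
    intro i l
    have h1 : φ ((s₀ (π₀ (locMapb a 1 g (S i))) - locMapb a 1 g (S i)) *
        (s₁ (z l) * prodb (v l))) = 0 := by
      refine hk₀ _ (Submodule.sub_mem _ (hs₀ _) (hSw i)) ?_ _ ?_
      · rw [map_sub, hπ₀, sub_self]
      · exact (MvPolynomial.IsWeightedHomogeneous.mul (hs₁ _) (prodb_isWH _))
    have h2 : φ ((s₁ (π₁ (locMapb a 1 g (Z l))) - locMapb a 1 g (Z l)) *
        (locMapb a 1 g (S i) * prodb (v l))) = 0 := by
      refine hk₁ _ (Submodule.sub_mem _ (hs₁ _) (hZw l)) ?_ _ ?_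
      · rw [map_sub, hπ₁, sub_self]
      · exact (MvPolynomial.IsWeightedHomogeneous.mul (hSw i) (prodb_isWH _))
    rw [sub_mul, map_sub, sub_eq_zero] at h1 h2
    have h3 : locMapb a 1 g (S i * (Z l * prodb (y l))) =
        locMapb a 1 g (S i) * (locMapb a 1 g (Z l) * prodb (v l)) := by
      have e := locMapb_mul (a := a) (1 : K) 1 g (S i) (Z l * prodb (y l))
      have e' := locMapb_mul (a := a) (1 : K) 1 g (Z l) (prodb (y l))
      rw [one_mul] at e e'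
      rw [e, e', hvl]
    calc E i l = φ (s₀ (π₀ (locMapb a 1 g (S i))) * (s₁ (z l) * prodb (v l))) := rfl
      _ = φ (locMapb a 1 g (S i) * (s₁ (z l) * prodb (v l))) := h1
      _ = φ (s₁ (π₁ (locMapb a 1 g (Z l))) * (locMapb a 1 g (S i) * prodb (v l))) := by
          rw [hz' l]
          congr 1
          ring
      _ = φ (locMapb a 1 g (Z l) * (locMapb a 1 g (S i) * prodb (v l))) := h2
      _ = _ := by
          rw [h3]
          congr 1
          ring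
  have hent : ∀ i l, (γ • E) i l ∈ regRing k K a := by
    intro i l
    rw [Matrix.smul_apply, smul_eq_mul, hent' i l]
    refine hφ _ ⟨?_, ?_⟩
    · exact Ideal.mul_mem_right _ _ (hS i).1
    · exact MvPolynomial.IsWeightedHomogeneous.mul (hS i).2
        (MvPolynomial.IsWeightedHomogeneous.mul (hZ l) (prodb_isWH _))
  have hdet := regRing_prod_mem hent
  rw [Matrix.det_smul, Fintype.card_fin] at hdet
  refine ⟨γ ^ R₀ * E.det, hdet, ?_⟩
  have h1 : (Matrix.of fun i l => φ (s₀ (u i) * (s₁ (z l) * prodb (v l)))) =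
      Matrix.of fun i l => φ (s₀ ((H₀ * H₁⁻¹) *ᵥ π₀ (locMapb a 1 g (S i))) *
        (s₁ (z l) * prodb (v l))) := by
    ext i l
    rw [Matrix.of_apply, Matrix.of_apply, ← hu' i]
  rw [h1, thetab_alt φ s₀ (H₀ * H₁⁻¹) (fun i => π₀ (locMapb a 1 g (S i)))
    (fun l => s₁ (z l) * prodb (v l)), Matrix.det_mul, Matrix.det_nonsing_inv,
    Ring.inverse_eq_inv', ← hE]
  have h2 : γ⁻¹ ^ R₀ * γ ^ R₀ = 1 := by rw [← mul_pow, inv_mul_cancel₀ hγ, one_pow]
  calc H₀.det * H₁.det⁻¹ * E.det = (γ⁻¹ ^ R₀ * γ ^ R₀) * (H₀.det * H₁.det⁻¹ * E.det) := by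
        rw [h2, one_mul]
    _ = _ := by ring

end

end Pool.Agent.FJ3
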