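import Pool.Agent.FJ3.Defs
import Pool.Agent.FJ3.Statement

/-!
# FJ3, module POS: positivity
-/

set_option linter.unusedSectionVars false

namespace Pool.Agent.FJ3

open Pool.Agent.Helper38.Scroll Pool.Agent.FJ Matrix Module

variable {k K : Type} [Field k] [Field K] [Algebra (RatFunc k) K] [Algebra k K]
  [IsScalarTower k (RatFunc k) K] [IsAlgClosed k] [CharZero k] [FiniteDimensional (RatFunc k) K]
  {t : ℕ} {n : Fin t → ℕ}

/-- positivity with the definitions of `Scroll/Defs.lean` -/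
theorem light_positiveb {g : ∀ j, Option k → Matrix (Fin (n j)) (Fin (n j)) K} {m : Fin t → ℕ}
    {β : Option k → K} (hA : IsPositive₃ g m β) {s : Fin t → ℕ}
    {A : ∀ j, Matrix (Fin (s j)) (Fin (n j)) K}
    {h : ∀ j, Option k → Matrix (Fin (s j)) (Fin (s j)) K} (hs : ∀ j, 0 < s j)
    (hA' : ∀ j, (A j).rank = s j) (hh : ∀ j, IsQuotientBundle (g j) (A j) (h j)) :
    0 < ∑ j, (m j : ℚ) * ((degree (h j) : ℚ) / s j) + lineDegree β :=
  hA.2 s A h fun j => ⟨hs j, hA' j, light_quotient (hh j)⟩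

/-- the slopes of the quotient bundles of each `E_j` are bounded below -/
theorem slopes_bounded {g : ∀ j, Option k → Matrix (Fin (n j)) (Fin (n j)) K}
    (hg : ∀ j, IsBundle (g j)) (hn : ∀ j, 0 < n j) {m : Fin t → ℕ}
    {β : Option k → K} (hA : IsPositive₃ g m β) (j : Fin t) :
    ∃ C : ℚ, ∀ s : ℕ, 0 < s → ∀ A : Matrix (Fin s) (Fin (n j)) K, A.rank = s → ∀ h,
      IsQuotientBundle (g j) A h → C * s ≤ degree h := by
  classical
  set G : Fin t → ℚ := fun i => (m i : ℚ) * ((degree (g i) : ℚ) / n i) with hG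
  refine ⟨-(∑ i ∈ Finset.univ.erase j, G i + lineDegree β) / m j, ?_⟩
  intro s hs A hrk h hh
  let base : ∀ i : Fin t, (s : ℕ) × Matrix (Fin s) (Fin (n i)) K ×
    (Option k → Matrix (Fin s) (Fin s) K) := fun i => ⟨n i, 1, g i⟩
  let d : ∀ i : Fin t, (s : ℕ) × Matrix (Fin s) (Fin (n i)) K ×
    (Option k → Matrix (Fin s) (Fin s) K) := Function.update base j ⟨s, A, h⟩
  have hdj : d j = ⟨s, A, h⟩ := Function.update_self _ _ _
  have hdi : ∀ i, i ≠ j → d i = base i := fun i hi => Function.update_of_ne hi _ _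
  have h1 : ∀ i, 0 < (d i).1 ∧ (d i).2.1.rank = (d i).1 ∧
      IsQuotientBundle (g i) (d i).2.1 (d i).2.2 := by
    intro i
    by_cases hi : i = j
    · subst hi
      rw [hdj]
      exact ⟨hs, hrk, hh⟩
    · rw [hdi i hi]
      exact ⟨hn i, by change (1 : Matrix (Fin (n i)) (Fin (n i)) K).rank = n i
                      rw [Matrix.rank_one, Fintype.card_fin], isQuotientBundle_self (hg i)⟩
  have h2 := light_positiveb hA (s := fun i => (d i).1) (A := fun i => (d i).2.1)
    (h := fun i => (d i).2.2) (fun i => (h1 i).1) (fun i => (h1 i).2.1) (fun i => (h1 i).2.2)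
  rw [← Finset.add_sum_erase Finset.univ _ (Finset.mem_univ j)] at h2
  have h3 : ∑ i ∈ Finset.univ.erase j, (m i : ℚ) * ((degree (d i).2.2 : ℚ) / ((d i).1 : ℕ)) =
      ∑ i ∈ Finset.univ.erase j, G i := by
    refine Finset.sum_congr rfl fun i hi => ?_
    rw [hdi i (Finset.ne_of_mem_erase hi)]
  have h4 : (m j : ℚ) * ((degree (d j).2.2 : ℚ) / ((d j).1 : ℕ)) =
      (m j : ℚ) * ((degree h : ℚ) / s) := by
    rw [hdj]
  rw [h3, h4] at h2
  have hs' : (0 : ℚ) < s := by exact_mod_cast hs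
  have hm' : (0 : ℚ) < m j := by exact_mod_cast hA.1 j
  rw [div_mul_eq_mul_div, div_le_iff₀ hm']
  have h5 : (m j : ℚ) * ((degree h : ℚ) / s) * s = m j * degree h := by
    field_simp
  have h6 := mul_pos h2 hs'
  rw [add_mul, add_mul, h5] at h6
  linarith

end Pool.Agent.FJ3
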