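import Pool.Agent.FJ3.LAT

/-!
# FJ3: global sections with prescribed local behaviour
-/

set_option linter.unusedSectionVars false

namespace Pool.Agent.FJ3

open Pool.Agent.Helper38.Scroll Pool.Agent.FJ Matrix Module

section

variable {k K : Type} [Field k] [Field K] [Algebra (RatFunc k) K] [Algebra k K]
  [IsScalarTower k (RatFunc k) K] [IsAlgClosed k] [CharZero k] [FiniteDimensional (RatFunc k) K]
  {J : Type} [DecidableEq J] [Fintype J] {n : J → ℕ}

theorem exists_sectionb (Q : Cond k K n)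
    {g : ∀ j, Option k → Matrix (Fin (n j)) (Fin (n j)) K}
    (hg : ∀ j, IsBundle (g j)) {D : J → ℕ} {τ : Option k → K} (hτ : IsTwist τ)
    (hvan : ∀ u : MForms K n D, u ∈ (latFamb Q hg D hτ).W0 ⊔ (latFamb Q hg D hτ).Wi)
    (a : Option k) {T : MvPolynomial (Var n) (regRing k K a)}
    (hT : T.IsWeightedHomogeneous (wt n) D) :
    ∃ s : Secb k K g D τ, s.loc a - T ∈ Q.I a ∧ ∀ b, b ≠ a → s.loc b ∈ Q.I b := by
  classical
  obtain ⟨s, hsa, hsb⟩ := (latFamb Q hg D hτ).approx hvan a
    ⟨locMapb a (τ a) (fun j => g j a) T, locMapb_isWH _ _ hT⟩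
  obtain ⟨Ja, hJa, hJa'⟩ := mem_Wlb.mp hsa
  have hsb' : ∀ b, b ≠ a → ∃ P ∈ condMod Q D b,
      locMapb b (τ b) (fun j => g j b) P = (s : MvPolynomial (Var n) K) :=
    fun b hb => mem_Wlb.mp (hsb b hb)
  choose! P hP hP' using hsb'
  have hJa'' : locMapb a (τ a) (fun j => g j a) Ja =
      (s : MvPolynomial (Var n) K) - locMapb a (τ a) (fun j => g j a) T := hJa'
  let t : ∀ b, MvPolynomial (Var n) (regRing k K b) := Function.update P a (T + Ja)
  have hta : t a = T + Ja := Function.update_self _ _ _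
  have htb : ∀ b, b ≠ a → t b = P b := fun b hb => Function.update_of_ne hb _ _
  refine ⟨⟨(s : MvPolynomial (Var n) K), t, ?_, ?_⟩, ?_, ?_⟩
  · intro b
    by_cases hb : b = a
    · subst hb
      rw [hta]
      exact hT.add (mem_condMod.1 hJa).2
    · rw [htb b hb]
      exact (mem_condMod.1 (hP b hb)).2
  · intro b
    by_cases hb : b = a
    · subst hb
      rw [hta, map_add, hJa'']
      abel
    · rw [htb b hb]
      exact (hP' b hb).symm
  · change t a - T ∈ _
    have h1 : t a - T = Ja := by rw [hta]; ring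
    rw [h1]
    exact (mem_condMod.1 hJa).1
  · intro b hb
    change t b ∈ _
    rw [htb b hb]
    exact (mem_condMod.1 (hP b hb)).1

end

end Pool.Agent.FJ3
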