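import Pool.Agent.FJ3.LIN
import Pool.Agent.FJ3.SEC
import Pool.Agent.FJ3.Cnd

/-!
# FJ3, module VAP: sections of multidegree `D` have no base points and separate points
-/

set_option linter.unusedSectionVars false

namespace Pool.Agent.FJ3

open Pool.Agent.Helper38.Scroll Pool.Agent.FJ Matrix Module

section

variable {k K : Type} [Field k] [Field K] [Algebra (RatFunc k) K] [Algebra k K]
  [IsScalarTower k (RatFunc k) K] {J : Type} [DecidableEq J] {n : J → ℕ}

/-- The monomial with one variable for every factor. -/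
noncomputable def vapbMono (R : Type) [CommRing R] [Fintype J] (i : ∀ j, Fin (n j)) (D : J → ℕ) :
    MvPolynomial (Var n) R :=
  ∏ j, MvPolynomial.X ⟨j, i j⟩ ^ D j

lemma vapb_mono_isWH (R : Type) [CommRing R] [Fintype J] (i : ∀ j, Fin (n j)) (D : J → ℕ) :
    (vapbMono R i D).IsWeightedHomogeneous (wt n) D := by
  have h1 : ∀ j ∈ (Finset.univ : Finset J), (MvPolynomial.X ⟨j, i j⟩ ^ D j :
      MvPolynomial (Var n) R).IsWeightedHomogeneous (wt n) (Pi.single j (D j) : J → ℕ) := by
    intro j _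
    have h2 := (MvPolynomial.isWeightedHomogeneous_X R (wt n) (⟨j, i j⟩ : Var n)).pow (D j)
    have h3 : D j • wt n ⟨j, i j⟩ = (Pi.single j (D j) : J → ℕ) := by
      change D j • (Pi.single j 1 : J → ℕ) = _
      rw [← Pi.single_smul, smul_eq_mul, mul_one]
    rw [h3] at h2
    exact h2
  have h4 := MvPolynomial.IsWeightedHomogeneous.prod Finset.univ _ _ h1
  rw [Finset.univ_sum_single] at h4
  exact h4

lemma vapb_sub_isWH {R σ M : Type} [CommRing R] [AddCommMonoid M] {w : σ → M}
    {P Q : MvPolynomial σ R} {m : M} (hP : P.IsWeightedHomogeneous w m)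
    (hQ : Q.IsWeightedHomogeneous w m) : (P - Q).IsWeightedHomogeneous w m := by
  intro d hd
  rw [MvPolynomial.coeff_sub] at hd
  by_cases h : MvPolynomial.coeff d P = 0
  · exact hQ fun h2 => hd (by rw [h, h2, sub_zero])
  · exact hP h

lemma vapb_mono_eval₂ {R S : Type} [CommRing R] [CommRing S] [Fintype J] (f : R →+* S)
    (ℓ : Var n → S) (i : ∀ j, Fin (n j)) (D : J → ℕ) :
    MvPolynomial.eval₂ f ℓ (vapbMono R i D) = ∏ j, ℓ ⟨j, i j⟩ ^ D j := by
  rw [vapbMono, MvPolynomial.eval₂_prod]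
  refine Finset.prod_congr rfl fun j _ => ?_
  rw [MvPolynomial.eval₂_pow, MvPolynomial.eval₂_X]

lemma vapb_value_of_sub {R S : Type} [CommRing R] [CommRing S] {f : R →+* S} {ℓ : Var n → S}
    {I : Ideal (MvPolynomial (Var n) R)} (hI : ∀ T ∈ I, MvPolynomial.eval₂ f ℓ T = 0)
    {P T : MvPolynomial (Var n) R} (h : P - T ∈ I) :
    MvPolynomial.eval₂ f ℓ P = MvPolynomial.eval₂ f ℓ T := by
  have h1 := hI _ h
  rw [MvPolynomial.eval₂_sub] at h1
  exact sub_eq_zero.1 h1

end

section

variable {k K : Type} [Field k] [Field K] [Algebra (RatFunc k) K] [Algebra k K]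
  [IsScalarTower k (RatFunc k) K] [IsAlgClosed k] [CharZero k] [FiniteDimensional (RatFunc k) K]
  {J : Type} [DecidableEq J] [Fintype J] {n : J → ℕ}

lemma vapb_exists_minor {N : ℕ} {x x' : Projectivization k (Fin N → k)} (hx : x ≠ x') :
    ∃ i j, x.rep i * x'.rep j ≠ x.rep j * x'.rep i := by
  obtain ⟨i, hi⟩ := exists_coord_ne x
  refine ⟨i, ?_⟩
  by_contra hcon
  push Not at hcon
  apply hx
  rw [← x.mk_rep, ← x'.mk_rep]
  rw [Projectivization.mk_eq_mk_iff']
  have hne' : x'.rep i ≠ 0 := by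
    intro h0
    apply x'.rep_nonzero
    funext j
    have h1 := hcon j
    rw [h0, mul_zero] at h1
    exact (mul_eq_zero.mp h1).resolve_left hi
  refine ⟨x.rep i / x'.rep i, ?_⟩
  funext j
  rw [Pi.smul_apply, smul_eq_mul, div_mul_eq_mul_div, hcon j, mul_div_assoc,
    div_self hne', mul_one]

theorem sec_nonvanishingb {g : ∀ j, Option k → Matrix (Fin (n j)) (Fin (n j)) K}
    (hg : ∀ j, IsBundle (g j)) {D : J → ℕ} {τ : Option k → K} (hτ : IsTwist τ)
    (hV : Vanishb k K g hg D τ hτ) (p : CurvePoint k K)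
    (x : ∀ j, Projectivization k (Fin (n j) → k)) :
    ∃ s : Secb k K g D τ, s.value p.2 (fun j => (x j).rep) ≠ 0 := by
  obtain ⟨a, χ⟩ := p
  choose i hi using fun j => exists_coord_ne (x j)
  have hu : χ (unifB a) ^ 1 = 0 := by rw [hom_unifB, pow_one]
  obtain ⟨Q, hQ, hQI⟩ := exists_cond_one (K := K) (n := n) χ
    (fun q : Var n => (x q.1).rep q.2) hu (by rw [finrank_self]; norm_num)
  obtain ⟨s, hs, -⟩ := exists_sectionb Q hg hτ (hV Q hQ) a
    (vapb_mono_isWH (regRing k K a) i D)
  refine ⟨s, ?_⟩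
  change MvPolynomial.eval₂ (χ : regRing k K a →+* k) (fun q : Var n => (x q.1).rep q.2)
    (s.loc a) ≠ 0
  rw [vapb_value_of_sub hQI hs, vapb_mono_eval₂]
  exact Finset.prod_ne_zero_iff.2 fun j _ => pow_ne_zero _ (hi j)

theorem sec_separates_pointsb {g : ∀ j, Option k → Matrix (Fin (n j)) (Fin (n j)) K}
    (hg : ∀ j, IsBundle (g j)) {D : J → ℕ} (hD : ∀ j, 0 < D j) {τ : Option k → K}
    (hτ : IsTwist τ) (hV : Vanishb k K g hg D τ hτ) (p p' : CurvePoint k K)
    (x x' : ∀ j, Projectivization k (Fin (n j) → k)) (hne : (p, x) ≠ (p', x')) :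
    ∃ s : Secb k K g D τ, s.value p.2 (fun j => (x j).rep) = 0 ∧
      s.value p'.2 (fun j => (x' j).rep) ≠ 0 := by
  obtain ⟨a, χ⟩ := p
  obtain ⟨b, χ'⟩ := p'
  choose i hi using fun j => exists_coord_ne (x' j)
  by_cases hab : b = a
  · subst hab
    set θ : regRing k K b →ₐ[k] (k × k) := χ.prod χ' with hθ
    set ℓ : Var n → k × k := fun q => ((x q.1).rep q.2, (x' q.1).rep q.2) with hℓ
    have hu : θ (unifB b) ^ 1 = 0 := by
      rw [pow_one, hθ, AlgHom.prod_apply, hom_unifB, hom_unifB]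
      rfl
    have hfr : finrank k (k × k) ≤ 2 := by
      rw [Module.finrank_prod, finrank_self]
    obtain ⟨Q, hQ, hQI⟩ := exists_cond_one (K := K) (n := n) θ ℓ hu hfr
    have hQ1 : ∀ T ∈ Q.I b, MvPolynomial.eval₂ (χ : regRing k K b →+* k)
        (fun q : Var n => (x q.1).rep q.2) T = 0 := by
      intro T hT
      have h1 := congrArg (RingHom.fst k k) (hQI T hT)
      rw [MvPolynomial.hom_eval₂] at h1
      exact h1
    have hQ2 : ∀ T ∈ Q.I b, MvPolynomial.eval₂ (χ' : regRing k K b →+* k)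
        (fun q : Var n => (x' q.1).rep q.2) T = 0 := by
      intro T hT
      have h1 := congrArg (RingHom.snd k k) (hQI T hT)
      rw [MvPolynomial.hom_eval₂] at h1
      exact h1
    by_cases hχ : χ = χ'
    · subst hχ
      have hx : x ≠ x' := by
        rintro rfl
        exact hne rfl
      obtain ⟨j₀, hj₀⟩ := Function.ne_iff.1 hx
      obtain ⟨i₀, i₁, hmin⟩ := vapb_exists_minor hj₀
      -- the form
      set lf : MvPolynomial (Var n) (regRing k K b) :=
        MvPolynomial.C (algebraMap k (regRing k K b) ((x j₀).rep i₀)) *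
            MvPolynomial.X ⟨j₀, i₁⟩ -
          MvPolynomial.C (algebraMap k (regRing k K b) ((x j₀).rep i₁)) *
            MvPolynomial.X ⟨j₀, i₀⟩ with hlf
      have hlfWH : lf.IsWeightedHomogeneous (wt n) (Pi.single j₀ 1 : J → ℕ) := by
        have h1 : ∀ (c : regRing k K b) (l : Fin (n j₀)), (MvPolynomial.C c *
            MvPolynomial.X ⟨j₀, l⟩ : MvPolynomial (Var n) (regRing k K b)).IsWeightedHomogeneous
              (wt n) (Pi.single j₀ 1 : J → ℕ) := fun c l =>
          (MvPolynomial.isWeightedHomogeneous_X (regRing k K b) (wt n) (⟨j₀, l⟩ : Var n)).C_mul c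
        rw [hlf]
        exact vapb_sub_isWH (h1 _ _) (h1 _ _)
      have hTWH : (lf * vapbMono (regRing k K b) i (D - Pi.single j₀ 1)).IsWeightedHomogeneous
          (wt n) D := by
        have h1 := hlfWH.mul (vapb_mono_isWH (regRing k K b) i (D - Pi.single j₀ 1))
        have h2 : (Pi.single j₀ 1 : J → ℕ) + (D - Pi.single j₀ 1) = D := by
          funext j
          rw [Pi.add_apply, Pi.sub_apply]
          by_cases hj : j = j₀
          · subst hj
            rw [Pi.single_eq_same]
            have := hD j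
            omega
          · rw [Pi.single_eq_of_ne hj]
            omega
        rw [h2] at h1
        exact h1
      have hval : ∀ l : Var n → k, MvPolynomial.eval₂ (χ : regRing k K b →+* k) l
          (lf * vapbMono (regRing k K b) i (D - Pi.single j₀ 1)) =
          ((x j₀).rep i₀ * l ⟨j₀, i₁⟩ - (x j₀).rep i₁ * l ⟨j₀, i₀⟩) *
            ∏ j, l ⟨j, i j⟩ ^ (D - Pi.single j₀ 1 : J → ℕ) j := by
        intro l
        have hc : ∀ c : k, (χ : regRing k K b →+* k) (algebraMap k (regRing k K b) c) = c :=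
          fun c => χ.commutes c
        rw [MvPolynomial.eval₂_mul, vapb_mono_eval₂, hlf, MvPolynomial.eval₂_sub,
          MvPolynomial.eval₂_mul, MvPolynomial.eval₂_mul, MvPolynomial.eval₂_C,
          MvPolynomial.eval₂_C, MvPolynomial.eval₂_X, MvPolynomial.eval₂_X, hc, hc]
      obtain ⟨s, hs, -⟩ := exists_sectionb Q hg hτ (hV Q hQ) b hTWH
      refine ⟨s, ?_, ?_⟩
      · change MvPolynomial.eval₂ (χ : regRing k K b →+* k)
          (fun q : Var n => (x q.1).rep q.2) (s.loc b) = 0
        rw [vapb_value_of_sub hQ1 hs, hval]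
        have h1 : (x j₀).rep i₀ * (x j₀).rep i₁ - (x j₀).rep i₁ * (x j₀).rep i₀ = 0 := by ring
        simp only [h1, zero_mul]
      · change MvPolynomial.eval₂ (χ : regRing k K b →+* k)
          (fun q : Var n => (x' q.1).rep q.2) (s.loc b) ≠ 0
        rw [vapb_value_of_sub hQ2 hs, hval]
        refine mul_ne_zero (sub_ne_zero.2 hmin) ?_
        exact Finset.prod_ne_zero_iff.2 fun j _ => pow_ne_zero _ (hi j)
    · obtain ⟨f, hf⟩ : ∃ f, χ f ≠ χ' f := by
        by_contra hcon
        push Not at hcon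
        exact hχ (AlgHom.ext hcon)
      have hTWH : (MvPolynomial.C (f - algebraMap k (regRing k K b) (χ f)) *
          vapbMono (regRing k K b) i D).IsWeightedHomogeneous (wt n) D :=
        (vapb_mono_isWH (regRing k K b) i D).C_mul _
      have hval : ∀ (ψ : regRing k K b →ₐ[k] k) (l : Var n → k),
          MvPolynomial.eval₂ (ψ : regRing k K b →+* k) l
            (MvPolynomial.C (f - algebraMap k (regRing k K b) (χ f)) *
              vapbMono (regRing k K b) i D) = (ψ f - χ f) * ∏ j, l ⟨j, i j⟩ ^ D j := by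
        intro ψ l
        rw [MvPolynomial.eval₂_mul, vapb_mono_eval₂, MvPolynomial.eval₂_C]
        congr 1
        change ψ (f - algebraMap k (regRing k K b) (χ f)) = _
        rw [map_sub, AlgHom.commutes]
        rfl
      obtain ⟨s, hs, -⟩ := exists_sectionb Q hg hτ (hV Q hQ) b hTWH
      refine ⟨s, ?_, ?_⟩
      · change MvPolynomial.eval₂ (χ : regRing k K b →+* k)
          (fun q : Var n => (x q.1).rep q.2) (s.loc b) = 0
        rw [vapb_value_of_sub hQ1 hs, hval, sub_self, zero_mul]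
      · change MvPolynomial.eval₂ (χ' : regRing k K b →+* k)
          (fun q : Var n => (x' q.1).rep q.2) (s.loc b) ≠ 0
        rw [vapb_value_of_sub hQ2 hs, hval]
        refine mul_ne_zero (sub_ne_zero.mpr fun h => hf h.symm) ?_
        exact Finset.prod_ne_zero_iff.2 fun j _ => pow_ne_zero _ (hi j)
  · obtain ⟨Q, hQ, hQ1, hQ2⟩ := exists_cond_two (K := K) (n := n) hab χ
      (fun q : Var n => (x q.1).rep q.2) χ' (fun q : Var n => (x' q.1).rep q.2)
    obtain ⟨s, hs, hs'⟩ := exists_sectionb Q hg hτ (hV Q hQ) b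
      (vapb_mono_isWH (regRing k K b) i D)
    refine ⟨s, hQ1 _ (hs' a (Ne.symm hab)), ?_⟩
    change MvPolynomial.eval₂ (χ' : regRing k K b →+* k)
      (fun q : Var n => (x' q.1).rep q.2) (s.loc b) ≠ 0
    rw [vapb_value_of_sub hQ2 hs, vapb_mono_eval₂]
    exact Finset.prod_ne_zero_iff.2 fun j _ => pow_ne_zero _ (hi j)

end

end Pool.Agent.FJ3
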