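import Pool.Agent.FJ3.VAP

/-!
# FJ3, module VAT: sections of multidegree `D` separate tangent vectors
-/

set_option linter.unusedSectionVars false

namespace Pool.Agent.FJ3

open Pool.Agent.Helper38.Scroll Pool.Agent.FJ Matrix Module

section

variable {k K : Type} [Field k] [Field K] [Algebra (RatFunc k) K] [Algebra k K]
  [IsScalarTower k (RatFunc k) K] [IsAlgClosed k] [CharZero k] [FiniteDimensional (RatFunc k) K]
  {J : Type} [DecidableEq J] [Fintype J] {n : J → ℕ}

lemma vatb_fst_prod {ι : Type} (s : Finset ι) (f : ι → DualNumber k) :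
    (∏ i ∈ s, f i).fst = ∏ i ∈ s, (f i).fst :=
  map_prod (TrivSqZeroExt.fstHom k k k) f s

lemma vatb_fst_pow (x : DualNumber k) (m : ℕ) : (x ^ m).fst = x.fst ^ m :=
  map_pow (TrivSqZeroExt.fstHom k k k) x m

lemma vatb_mul {x y : DualNumber k} (hx : x.fst = 0) (hx' : x.snd ≠ 0) (hy : y.fst ≠ 0) :
    (x * y).fst = 0 ∧ (x * y).snd ≠ 0 := by
  constructor
  · rw [TrivSqZeroExt.fst_mul, hx, zero_mul]
  · rw [TrivSqZeroExt.snd_mul, hx]
    simp only [zero_smul, zero_add, MulOpposite.smul_eq_mul_unop, MulOpposite.unop_op]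
    exact mul_ne_zero hx' hy

theorem sec_separates_tangentsb {g : ∀ j, Option k → Matrix (Fin (n j)) (Fin (n j)) K}
    (hg : ∀ j, IsBundle (g j)) {D : J → ℕ} (hD : ∀ j, 0 < D j) {τ : Option k → K}
    (hτ : IsTwist τ) (hV : Vanishb k K g hg D τ hτ) (a : Option k)
    (θ : regRing k K a →ₐ[k] DualNumber k) (ℓ : ∀ j, Fin (n j) → DualNumber k)
    (hℓ : ∀ j, ∃ i, (ℓ j i).fst ≠ 0)
    (hne : ¬ ((∀ b, (θ b).snd = 0) ∧ ∀ j, ∃ c : k, ∀ i, (ℓ j i).snd = c * (ℓ j i).fst)) :
    ∃ s : Secb k K g D τ, (s.value θ ℓ).fst = 0 ∧ (s.value θ ℓ).snd ≠ 0 := by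
  have hfin : FiniteDimensional k (DualNumber k) :=
    inferInstanceAs (FiniteDimensional k (k × k))
  have hfr : finrank k (DualNumber k) ≤ 2 := by
    have h1 : finrank k (DualNumber k) = finrank k (k × k) := rfl
    rw [h1, Module.finrank_prod, finrank_self]
  have hu1 : (θ (unifB a)).fst = 0 :=
    hom_unifB ((TrivSqZeroExt.fstHom k k k).comp θ)
  have hu : θ (unifB a) ^ 2 = 0 := by
    rw [pow_two]
    ext
    · rw [TrivSqZeroExt.fst_mul, hu1, mul_zero]; rfl
    · rw [TrivSqZeroExt.snd_mul, hu1]; simp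
  choose i hi using hℓ
  set L : Var n → DualNumber k := fun p => ℓ p.1 p.2 with hL
  obtain ⟨Q, hQ, hQI⟩ := exists_cond_one (K := K) (n := n) θ L hu hfr
  have hmono : ∀ E : J → ℕ, (∏ j, L ⟨j, i j⟩ ^ E j).fst ≠ 0 := by
    intro E
    rw [vatb_fst_prod]
    refine Finset.prod_ne_zero_iff.2 fun j _ => ?_
    rw [vatb_fst_pow]
    exact pow_ne_zero _ (hi j)
  by_cases hθ : ∀ b, (θ b).snd = 0
  · have hj : ∃ j₀, ¬ ∃ c : k, ∀ l, (ℓ j₀ l).snd = c * (ℓ j₀ l).fst := by
      by_contra hcon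
      push Not at hcon
      exact hne ⟨hθ, hcon⟩
    obtain ⟨j₀, hj₀⟩ := hj
    have hi₁ : ∃ i₁, (ℓ j₀ (i j₀)).fst * (ℓ j₀ i₁).snd ≠
        (ℓ j₀ i₁).fst * (ℓ j₀ (i j₀)).snd := by
      by_contra hcon
      push Not at hcon
      apply hj₀
      refine ⟨(ℓ j₀ (i j₀)).snd / (ℓ j₀ (i j₀)).fst, fun l => ?_⟩
      rw [div_mul_eq_mul_div, eq_div_iff (hi j₀)]
      linear_combination hcon l
    obtain ⟨i₁, hi₁⟩ := hi₁
    set lf : MvPolynomial (Var n) (regRing k K a) :=
      MvPolynomial.C (algebraMap k (regRing k K a) (ℓ j₀ (i j₀)).fst) *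
          MvPolynomial.X ⟨j₀, i₁⟩ -
        MvPolynomial.C (algebraMap k (regRing k K a) (ℓ j₀ i₁).fst) *
          MvPolynomial.X ⟨j₀, i j₀⟩ with hlf
    have hlfWH : lf.IsWeightedHomogeneous (wt n) (Pi.single j₀ 1 : J → ℕ) := by
      have h1 : ∀ (c : regRing k K a) (l : Fin (n j₀)), (MvPolynomial.C c *
          MvPolynomial.X ⟨j₀, l⟩ : MvPolynomial (Var n) (regRing k K a)).IsWeightedHomogeneous
            (wt n) (Pi.single j₀ 1 : J → ℕ) := fun c l =>
        (MvPolynomial.isWeightedHomogeneous_X (regRing k K a) (wt n) (⟨j₀, l⟩ : Var n)).C_mul c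
      rw [hlf]
      exact vapb_sub_isWH (h1 _ _) (h1 _ _)
    have hTWH : (lf * vapbMono (regRing k K a) i (D - Pi.single j₀ 1)).IsWeightedHomogeneous
        (wt n) D := by
      have h1 := hlfWH.mul (vapb_mono_isWH (regRing k K a) i (D - Pi.single j₀ 1))
      have h2 : (Pi.single j₀ 1 : J → ℕ) + (D - Pi.single j₀ 1) = D := by
        funext j
        rw [Pi.add_apply, Pi.sub_apply]
        by_cases hj : j = j₀
        · subst hj
          rw [Pi.single_eq_same]
          have := hD j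
          omega
        · rw [Pi.single_eq_of_ne hj]
          omega
      rw [h2] at h1
      exact h1
    obtain ⟨s, hs, -⟩ := exists_sectionb Q hg hτ (hV Q hQ) a hTWH
    have hc : ∀ c : k, (θ : regRing k K a →+* DualNumber k) (algebraMap k (regRing k K a) c) =
        TrivSqZeroExt.inl c := fun c => θ.commutes c
    have hval : s.value θ ℓ = (TrivSqZeroExt.inl (ℓ j₀ (i j₀)).fst * ℓ j₀ i₁ -
        TrivSqZeroExt.inl (ℓ j₀ i₁).fst * ℓ j₀ (i j₀)) *
          ∏ j, L ⟨j, i j⟩ ^ (D - Pi.single j₀ 1 : J → ℕ) j := by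
      change MvPolynomial.eval₂ (θ : regRing k K a →+* DualNumber k) L (s.loc a) = _
      rw [vapb_value_of_sub hQI hs, MvPolynomial.eval₂_mul, vapb_mono_eval₂, hlf,
        MvPolynomial.eval₂_sub, MvPolynomial.eval₂_mul, MvPolynomial.eval₂_mul,
        MvPolynomial.eval₂_C, MvPolynomial.eval₂_C, MvPolynomial.eval₂_X, MvPolynomial.eval₂_X,
        hc, hc]
    refine ⟨s, ?_⟩
    rw [hval]
    apply vatb_mul
    · simp only [TrivSqZeroExt.fst_mul, TrivSqZeroExt.fst_sub, TrivSqZeroExt.fst_inl]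
      ring
    · simp only [TrivSqZeroExt.snd_mul, TrivSqZeroExt.snd_sub, TrivSqZeroExt.fst_inl,
        TrivSqZeroExt.snd_inl, smul_eq_mul, MulOpposite.smul_eq_mul_unop, MulOpposite.unop_op,
        zero_mul, add_zero]
      exact sub_ne_zero.mpr hi₁
    · exact hmono _
  · push Not at hθ
    obtain ⟨f, hf⟩ := hθ
    have hTWH : (MvPolynomial.C (f - algebraMap k (regRing k K a) (θ f).fst) *
        vapbMono (regRing k K a) i D).IsWeightedHomogeneous (wt n) D :=
      (vapb_mono_isWH (regRing k K a) i D).C_mul _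
    obtain ⟨s, hs, -⟩ := exists_sectionb Q hg hτ (hV Q hQ) a hTWH
    have hval : s.value θ ℓ = (θ f - TrivSqZeroExt.inl (θ f).fst) *
        ∏ j, L ⟨j, i j⟩ ^ D j := by
      change MvPolynomial.eval₂ (θ : regRing k K a →+* DualNumber k) L (s.loc a) = _
      rw [vapb_value_of_sub hQI hs, MvPolynomial.eval₂_mul, vapb_mono_eval₂,
        MvPolynomial.eval₂_C]
      congr 1
      change θ (f - algebraMap k (regRing k K a) (θ f).fst) = _
      rw [map_sub, AlgHom.commutes]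
      rfl
    refine ⟨s, ?_⟩
    rw [hval]
    apply vatb_mul
    · simp
    · simpa using hf
    · exact hmono _

end

end Pool.Agent.FJ3
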