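import Pool.Agent.FJ3.VAN
import Pool.Agent.FJ3.VAP
import Pool.Agent.FJ3.VAT
import Pool.Agent.FJ3.LGT
import Pool.Agent.FJ3.POS
import Pool.Agent.FJ2.MINS

/-!
# The main theorem
-/

set_option linter.unusedSectionVars false

namespace Pool.Agent.FJ3

open Pool.Agent.Helper38.Scroll Pool.Agent.FJ Matrix Module

variable {k K : Type} [Field k] [Field K] [Algebra (RatFunc k) K] [Algebra k K]
  [IsScalarTower k (RatFunc k) K] [IsAlgClosed k] [CharZero k] [FiniteDimensional (RatFunc k) K]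
  {t : ℕ} {n : Fin t → ℕ}

/-- no points if one of the ranks is zero -/
lemma main_trivial {g : ∀ j, Option k → Matrix (Fin (n j)) (Fin (n j)) K} {j : Fin t}
    (hj : n j = 0) (d : Fin t → ℕ) (τ : Option k → K) : IsVeryAmple₃ g d τ := by
  have h0 : ∀ x : Projectivization k (Fin (n j) → k), False := by
    intro x
    apply x.rep_nonzero
    funext i
    exact absurd i.2 (by omega)
  refine ⟨?_, ?_, ?_⟩
  · intro p x
    exact (h0 (x j)).elim
  · intro p p' x x' _
    exact (h0 (x j)).elim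
  · intro a θ ℓ hℓ _
    obtain ⟨i, _⟩ := hℓ j
    exact absurd i.2 (by omega)

lemma main_gamma {N : ℕ} {β : Fin N → Option k → K} (hβ : ∀ i, IsLineBundle (β i)) :
    (∀ a, ∏ i, β i a ≠ 0) ∧
    {a | ¬ (∏ i, β i a ∈ regRing k K a ∧ (∏ i, β i a)⁻¹ ∈ regRing k K a)}.Finite ∧
    -∑ᶠ a, ordOver a (∏ i, β i a) = ∑ i, lineDegree (β i) := by
  refine ⟨fun a => Finset.prod_ne_zero_iff.mpr fun i _ => (hβ i).1 a, ?_, ?_⟩
  · refine (Set.finite_iUnion fun i => (hβ i).2).subset ?_
    intro a ha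
    by_contra hcon
    rw [Set.mem_iUnion, not_exists] at hcon
    apply ha
    have h3 : ∀ i, β i a ∈ regRing k K a ∧ (β i a)⁻¹ ∈ regRing k K a := by
      intro i
      by_contra h
      exact hcon i h
    constructor
    · exact Subalgebra.prod_mem _ fun i _ => (h3 i).1
    · rw [← Finset.prod_inv_distrib]
      exact Subalgebra.prod_mem _ fun i _ => (h3 i).2
  · rw [← lgt_lineDegree_prod hβ]
    simp only [lineDegree, light_ordOver]

/-- nonnegativity with the definitions of `Scroll/Defs.lean` -/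
theorem light_nefb {g : ∀ j, Option k → Matrix (Fin (n j)) (Fin (n j)) K} {y : Fin t → ℕ}
    {μ : Option k → K} (hL : IsNef₃ g y μ) {s : Fin t → ℕ}
    {A : ∀ j, Matrix (Fin (s j)) (Fin (n j)) K}
    {h : ∀ j, Option k → Matrix (Fin (s j)) (Fin (s j)) K} (hs : ∀ j, 0 < s j)
    (hA' : ∀ j, (A j).rank = s j) (hh : ∀ j, IsQuotientBundle (g j) (A j) (h j)) :
    0 ≤ ∑ j, (y j : ℚ) * ((degree (h j) : ℚ) / s j) + lineDegree μ :=
  hL s A h fun j => ⟨hs j, hA' j, light_quotient (hh j)⟩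

/-- **The main theorem.** -/
theorem mainb {g : ∀ j, Option k → Matrix (Fin (n j)) (Fin (n j)) K}
    (hg : ∀ j, Curve.IsBundle (g j)) {c : Fin t → ℕ} {κ : Option k → K}
    (hκ : IsLineBundle κ)
    (hκd : ∑ j, (c j : ℚ) * (Curve.degree (g j) / n j) ≤ lineDegree κ)
    {y : Fin t → ℕ} {μ : Option k → K} (hμ : IsLineBundle μ)
    (hL : IsNef₃ g y μ) {N : ℕ} (hN : 3 ≤ N) (hcN : ∀ j, c j + 2 ≤ N + y j)
    {m : Fin N → Fin t → ℕ} {β : Fin N → Option k → K} (hβ : ∀ i, IsLineBundle (β i))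
    (hA : ∀ i, IsPositive₃ g (m i) (β i)) {w : Option k → K}
    (hw : ∀ a, Curve.IsCanonicalGenerator a (w a)) :
    IsVeryAmple₃ g (fun j => ∑ i, m i j + y j - c j)
      (fun a => w a * (κ a * (μ a * ∏ i, β i a))) := by
  by_cases hn0 : ∃ j, n j = 0
  · obtain ⟨j, hj⟩ := hn0
    exact main_trivial hj _ _
  push Not at hn0
  have hn : ∀ j, 0 < n j := fun j => Nat.pos_of_ne_zero (hn0 j)
  have hg' : ∀ j, IsBundle (g j) := fun j => light_isBundle (hg j)
  have hw' : ∀ a, IsCanonicalGenerator a (w a) := fun a => light_canonical_iff.mp (hw a)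
  obtain ⟨p, rfl⟩ : ∃ p, N = p + 2 := ⟨N - 2, by omega⟩
  have hp : 0 < p := by omega
  have hnp : ∀ j, c j ≤ p + y j := fun j => by have := hcN j; omega
  -- minimal slopes
  have hmin : ∀ j, ∃ (s : ℕ) (_ : 0 < s) (A : Matrix (Fin s) (Fin (n j)) K) (_ : A.rank = s)
      (h' : Option k → Matrix (Fin s) (Fin s) K), IsQuotientBundle (g j) A h' ∧
      ∀ t, 0 < t → ∀ B : Matrix (Fin t) (Fin (n j)) K, B.rank = t → ∀ h'',
        IsQuotientBundle (g j) B h'' → (degree h' : ℚ) / s * t ≤ degree h'' := by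
    intro j
    obtain ⟨C, hC⟩ := slopes_bounded hg' hn (hA 0) j
    obtain ⟨s, hs, _, A, hrk, h', hq, hm⟩ := Pool.Agent.FJ2.exists_min_slope (hn j) (hg' j) hC
    exact ⟨s, hs, A, hrk, h', hq, hm⟩
  choose s hs A hrk h hq hmin using hmin
  set x : Fin t → ℚ := fun j => (degree (h j) : ℚ) / s j with hx
  have hxd : ∑ j, x j * c j ≤ lineDegree κ := by
    refine le_trans (Finset.sum_le_sum fun j _ => ?_) hκd
    have h1 : x j * n j ≤ degree (g j) :=
      hmin j (n j) (hn j) 1 (by rw [Matrix.rank_one, Fintype.card_fin]) (g j)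
        (isQuotientBundle_self (hg' j))
    have h2 : (0 : ℚ) < n j := by exact_mod_cast hn j
    have h3 : x j ≤ (degree (g j) : ℚ) / n j := by
      rw [le_div_iff₀ h2]
      exact h1
    have h4 : (0 : ℚ) ≤ c j := by positivity
    have h5 := mul_le_mul_of_nonneg_left h3 h4
    rw [mul_comm (x j)]
    exact h5
  have hP : ∀ i, 0 < ∑ j, (m i j : ℚ) * x j + lineDegree (β i) := fun i =>
    light_positiveb (hA i) hs hrk hq
  have hPL : 0 ≤ ∑ j, (y j : ℚ) * x j + lineDegree μ := light_nefb hL hs hrk hq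
  -- the data
  set m₀ : Fin t → ℕ := m 0 with hm₀
  set m₁ : Fin t → ℕ := m (Fin.succ 0) with hm₁
  have hM : ∀ j, c j ≤ ∑ i : Fin p, m i.succ.succ j + y j := by
    intro j
    refine (hnp j).trans ?_
    have h1 : p ≤ ∑ i : Fin p, m i.succ.succ j := by
      calc p = ∑ _i : Fin p, 1 := by simp
        _ ≤ ∑ i : Fin p, m i.succ.succ j := Finset.sum_le_sum fun i _ => (hA _).1 j
    omega
  set D : Fin t → ℕ := fun j => ∑ i : Fin p, m i.succ.succ j + y j - c j with hD
  have hDe : (fun j => ∑ i, m i j + y j - c j) = m₀ + (m₁ + D) := by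
    funext j
    rw [Fin.sum_univ_succ, Fin.sum_univ_succ]
    have := hM j
    simp only [Pi.add_apply, hD, hm₀, hm₁]
    omega
  rw [hDe]
  have hβ' : ∀ i, IsLineBundle
      ((Fin.cons κ (Fin.cons μ β) : Fin (p + 2 + 1 + 1) → Option k → K) i) := by
    intro i
    refine Fin.cases ?_ (fun i => ?_) i
    · exact hκ
    · refine Fin.cases ?_ (fun i => ?_) i
      · exact hμ
      · exact hβ i
  have hprod : ∀ a, ∏ i, (Fin.cons κ (Fin.cons μ β) : Fin (p + 2 + 1 + 1) → Option k → K) i a =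
      κ a * (μ a * ∏ i, β i a) := by
    intro a
    rw [Fin.prod_univ_succ, Fin.prod_univ_succ]
    simp only [Fin.cons_zero, Fin.cons_succ]
  obtain ⟨hγ0, hγfin, hγdeg⟩ := main_gamma hβ'
  simp only [hprod] at hγ0 hγfin hγdeg
  have hγdeg' : -∑ᶠ a, ordOver a (κ a * (μ a * ∏ i, β i a)) =
      lineDegree κ + (lineDegree (β 0) + lineDegree (β (Fin.succ 0)) +
        (∑ i : Fin p, lineDegree (β i.succ.succ) + lineDegree μ)) := by
    rw [hγdeg, Fin.sum_univ_succ, Fin.sum_univ_succ, Fin.sum_univ_succ, Fin.sum_univ_succ]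
    simp only [Fin.cons_zero, Fin.cons_succ]
    ring
  have hτ : IsTwist fun a => w a * (κ a * (μ a * ∏ i, β i a)) := by
    refine ⟨fun a => mul_ne_zero (hw' a).1 (hγ0 a), ?_⟩
    refine (hγfin.union (Set.finite_singleton none)).subset ?_
    intro a ha
    by_contra hcon
    simp only [Set.mem_union, Set.mem_ofPred_eq, not_or, not_not, Set.mem_singleton_iff] at hcon
    obtain ⟨h1, h3⟩ := hcon
    apply ha
    obtain ⟨a, rfl⟩ := Option.ne_none_iff_exists'.mp h3
    have h5 := canonical_inv_mem (hw' (some a))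
    rw [mul_inv]
    exact Subalgebra.mul_mem _ h5 h1.2
  have h' : 0 < ∑ j, ((D j : ℚ) + c j) * x j +
      ((∑ i : Fin p, lineDegree (β i.succ.succ) + lineDegree μ : ℤ) : ℚ) := by
    have e1 : ∀ j, (D j : ℚ) + c j = ∑ i : Fin p, (m i.succ.succ j : ℚ) + y j := by
      intro j
      have h1 : D j + c j = ∑ i : Fin p, m i.succ.succ j + y j := by
        have := hM j
        simp only [hD]
        omega
      exact_mod_cast h1
    have e2 : ∑ j, ((D j : ℚ) + c j) * x j =
        ∑ i : Fin p, ∑ j, (m i.succ.succ j : ℚ) * x j + ∑ j, (y j : ℚ) * x j := by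
      rw [Finset.sum_comm, ← Finset.sum_add_distrib]
      refine Finset.sum_congr rfl fun j _ => ?_
      rw [e1, add_mul, Finset.sum_mul]
    rw [e2]
    push_cast
    have : NeZero p := ⟨hp.ne'⟩
    have e3 : 0 < ∑ i : Fin p, (∑ j, (m i.succ.succ j : ℚ) * x j + lineDegree (β i.succ.succ)) :=
      Finset.sum_pos (fun i _ => hP _) Finset.univ_nonempty
    rw [Finset.sum_add_distrib] at e3
    linarith
  have hV : Vanishb k K g hg' (m₀ + (m₁ + D)) _ hτ := by
    intro Q hc u
    exact vanishingb Q hc hg' (fun j => hmin j) hxd hw' hγ0 hγfin hγdeg' hτ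
      (hP 0) (hP (Fin.succ 0)) h' u
  have hDpos : ∀ j, 0 < (m₀ + (m₁ + D)) j := by
    intro j
    have := (hA 0).1 j
    simp only [Pi.add_apply, hm₀]
    omega
  exact light_veryAmpleb (sec_nonvanishingb hg' hτ hV) (sec_separates_pointsb hg' hDpos hτ hV)
    (sec_separates_tangentsb hg' hDpos hτ hV)

/-- the determinant line bundle -/
theorem main_det {g : ∀ j, Option k → Matrix (Fin (n j)) (Fin (n j)) K}
    (hg : ∀ j, Curve.IsBundle (g j)) (hn : ∀ j, 0 < n j) :
    IsLineBundle (fun a => ∏ j, (g j a).det) ∧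
    ∑ j, (n j : ℚ) * (Curve.degree (g j) / n j) = lineDegree (fun a => ∏ j, (g j a).det) := by
  have hg' : ∀ j, IsBundle (g j) := fun j => light_isBundle (hg j)
  have hd : ∀ j, IsLineBundle fun a => (g j a).det := by
    intro j
    refine ⟨(hg' j).1, (hg' j).2.subset ?_⟩
    intro a ha h
    exact ha (mem_regRing_inv_of_lattice_eq ((hg' j).1 a) h)
  have hprod : IsLineBundle (fun a => ∏ j, (g j a).det) := by
    obtain ⟨h1, h2, -⟩ := main_gamma (N := t) (β := fun j a => (g j a).det) hd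
    exact ⟨h1, h2⟩
  refine ⟨hprod, ?_⟩
  rw [lgt_lineDegree_prod (β := fun j a => (g j a).det) hd]
  push_cast
  refine Finset.sum_congr rfl fun j _ => ?_
  have h2 : (n j : ℚ) ≠ 0 := by exact_mod_cast (hn j).ne'
  rw [mul_div_cancel₀ _ h2]
  rfl

end Pool.Agent.FJ3
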