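import Pool.Agent.FJ3.Statement

/-!
# Line bundles on fibre products which are nonnegative at the minimal slopes: definition
-/

namespace Pool.Agent.FJ3

open Pool.Agent.Helper38.Scroll Pool.Agent.FJ

variable {k K : Type} [Field k] [Field K] [Algebra (RatFunc k) K] {t : ℕ} {n : Fin t → ℕ}

/-- Nonnegativity of the line bundle `G = O(b₁, ..., b_t) ⊗ κ` on `X`, with arbitrary integers
`b_j`, at the minimal slopes: `∑ b_j μ_min(E_j) + deg κ ≥ 0`, where `μ_min(E_j)` is the least slope
`deg Q / rk Q` of the quotient bundles `Q ≠ 0` of `E_j`. It is stated for all quotient bundles `Q_j`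
of `E_j` (with frames `h j`, of ranks `s j`) which have the least slope. -/
def IsMinSlopeNonneg (g : ∀ j, Option k → Matrix (Fin (n j)) (Fin (n j)) K) (b : Fin t → ℤ)
    (κ : Option k → K) : Prop :=
  ∀ (s : Fin t → ℕ) (A : ∀ j, Matrix (Fin (s j)) (Fin (n j)) K)
    (h : ∀ j, Option k → Matrix (Fin (s j)) (Fin (s j)) K),
    (∀ j, (0 < s j ∧ (A j).rank = s j ∧ Curve.IsQuotientBundle (g j) (A j) (h j)) ∧
      ∀ (r : ℕ) (B : Matrix (Fin r) (Fin (n j)) K) (h' : Option k → Matrix (Fin r) (Fin r) K),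
        0 < r ∧ B.rank = r ∧ Curve.IsQuotientBundle (g j) B h' →
          (Curve.degree (h j) : ℚ) / s j ≤ Curve.degree h' / r) →
      0 ≤ ∑ j, (b j : ℚ) * (Curve.degree (h j) / s j) + lineDegree κ

end Pool.Agent.FJ3
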