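import Pool.Agent.FJ3.MAIN
import Pool.Agent.FJ3.MinSlope

/-!
# The main theorem, general form
-/

set_option linter.unusedSectionVars false

namespace Pool.Agent.FJ3

open Pool.Agent.Helper38.Scroll Pool.Agent.FJ Matrix Module

variable {k K : Type} [Field k] [Field K] [Algebra (RatFunc k) K] [Algebra k K]
  [IsScalarTower k (RatFunc k) K] [IsAlgClosed k] [CharZero k] [FiniteDimensional (RatFunc k) K]
  {t : ℕ} {n : Fin t → ℕ}

/-- **The main theorem.** -/
theorem mainc {g : ∀ j, Option k → Matrix (Fin (n j)) (Fin (n j)) K}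
    (hg : ∀ j, Curve.IsBundle (g j)) {b : Fin t → ℤ} {κ : Option k → K}
    (hκ : IsLineBundle κ) (hG : IsMinSlopeNonneg g b κ)
    {N : ℕ} (hN : 3 ≤ N) (hbN : ∀ j, 2 ≤ N + b j)
    {m : Fin N → Fin t → ℕ} {β : Fin N → Option k → K} (hβ : ∀ i, IsLineBundle (β i))
    (hA : ∀ i, IsPositive₃ g (m i) (β i)) {w : Option k → K}
    (hw : ∀ a, Curve.IsCanonicalGenerator a (w a)) {d : Fin t → ℕ}
    (hd : ∀ j, (d j : ℤ) = ∑ i, (m i j : ℤ) + b j) :
    IsVeryAmple₃ g d (fun a => w a * (κ a * ∏ i, β i a)) := by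
  by_cases hn0 : ∃ j, n j = 0
  · obtain ⟨j, hj⟩ := hn0
    exact main_trivial hj _ _
  push Not at hn0
  have hn : ∀ j, 0 < n j := fun j => Nat.pos_of_ne_zero (hn0 j)
  have hg' : ∀ j, IsBundle (g j) := fun j => light_isBundle (hg j)
  have hw' : ∀ a, IsCanonicalGenerator a (w a) := fun a => light_canonical_iff.mp (hw a)
  obtain ⟨p, rfl⟩ : ∃ p, N = p + 2 := ⟨N - 2, by omega⟩
  have hp : 0 < p := by omega
  have hnp : ∀ j, 0 ≤ p + b j := fun j => by
    have := hbN j
    push_cast at this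
    omega
  -- minimal slopes
  have hmin : ∀ j, ∃ (s : ℕ) (_ : 0 < s) (A : Matrix (Fin s) (Fin (n j)) K) (_ : A.rank = s)
      (h' : Option k → Matrix (Fin s) (Fin s) K), IsQuotientBundle (g j) A h' ∧
      ∀ t, 0 < t → ∀ B : Matrix (Fin t) (Fin (n j)) K, B.rank = t → ∀ h'',
        IsQuotientBundle (g j) B h'' → (degree h' : ℚ) / s * t ≤ degree h'' := by
    intro j
    obtain ⟨C, hC⟩ := slopes_bounded hg' hn (hA 0) j
    obtain ⟨s, hs, _, A, hrk, h', hq, hm⟩ := Pool.Agent.FJ2.exists_min_slope (hn j) (hg' j) hC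
    exact ⟨s, hs, A, hrk, h', hq, hm⟩
  choose s hs A hrk h hq hmin using hmin
  set x : Fin t → ℚ := fun j => (degree (h j) : ℚ) / s j with hx
  have hP : ∀ i, 0 < ∑ j, (m i j : ℚ) * x j + lineDegree (β i) := fun i =>
    light_positiveb (hA i) hs hrk hq
  have hPG : 0 ≤ ∑ j, (b j : ℚ) * x j + lineDegree κ := by
    refine hG s A h fun j => ⟨⟨hs j, hrk j, light_quotient (hq j)⟩, ?_⟩
    rintro r B h' ⟨hr, hB, hh'⟩
    have h1 := hmin j r hr B hB h' (light_quotient' hh')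
    have h2 : (0 : ℚ) < r := by exact_mod_cast hr
    rw [le_div_iff₀ h2]
    exact h1
  -- the data
  set m₀ : Fin t → ℕ := m 0 with hm₀
  set m₁ : Fin t → ℕ := m (Fin.succ 0) with hm₁
  have hM : ∀ j, 0 ≤ ∑ i : Fin p, (m i.succ.succ j : ℤ) + b j := by
    intro j
    have h1 : (p : ℤ) ≤ ∑ i : Fin p, (m i.succ.succ j : ℤ) := by
      calc (p : ℤ) = ∑ _i : Fin p, (1 : ℤ) := by simp
        _ ≤ ∑ i : Fin p, (m i.succ.succ j : ℤ) :=
          Finset.sum_le_sum fun i _ => by exact_mod_cast (hA _).1 j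
    have := hnp j
    omega
  set D : Fin t → ℕ := fun j => (∑ i : Fin p, (m i.succ.succ j : ℤ) + b j).toNat with hD
  have hDz : ∀ j, (D j : ℤ) = ∑ i : Fin p, (m i.succ.succ j : ℤ) + b j := fun j =>
    Int.toNat_of_nonneg (hM j)
  have hDe : d = m₀ + (m₁ + D) := by
    funext j
    have h1 := hd j
    rw [Fin.sum_univ_succ, Fin.sum_univ_succ] at h1
    have h2 := hDz j
    simp only [Pi.add_apply, hm₀, hm₁]
    omega
  rw [hDe]
  have hβ' : ∀ i, IsLineBundle ((Fin.cons κ β : Fin (p + 2 + 1) → Option k → K) i) := by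
    intro i
    refine Fin.cases ?_ (fun i => ?_) i
    · exact hκ
    · exact hβ i
  have hprod : ∀ a, ∏ i, (Fin.cons κ β : Fin (p + 2 + 1) → Option k → K) i a =
      κ a * ∏ i, β i a := by
    intro a
    rw [Fin.prod_univ_succ]
    simp only [Fin.cons_zero, Fin.cons_succ]
  obtain ⟨hγ0, hγfin, hγdeg⟩ := main_gamma hβ'
  simp only [hprod] at hγ0 hγfin hγdeg
  have hγdeg' : -∑ᶠ a, ordOver a (κ a * ∏ i, β i a) =
      0 + (lineDegree (β 0) + lineDegree (β (Fin.succ 0)) +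
        (∑ i : Fin p, lineDegree (β i.succ.succ) + lineDegree κ)) := by
    rw [hγdeg, Fin.sum_univ_succ, Fin.sum_univ_succ, Fin.sum_univ_succ]
    simp only [Fin.cons_zero, Fin.cons_succ]
    ring
  have hτ : IsTwist fun a => w a * (κ a * ∏ i, β i a) := by
    refine ⟨fun a => mul_ne_zero (hw' a).1 (hγ0 a), ?_⟩
    refine (hγfin.union (Set.finite_singleton none)).subset ?_
    intro a ha
    by_contra hcon
    simp only [Set.mem_union, Set.mem_ofPred_eq, not_or, not_not, Set.mem_singleton_iff] at hcon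
    obtain ⟨h1, h3⟩ := hcon
    apply ha
    obtain ⟨a, rfl⟩ := Option.ne_none_iff_exists'.mp h3
    have h5 := canonical_inv_mem (hw' (some a))
    rw [mul_inv]
    exact Subalgebra.mul_mem _ h5 h1.2
  have h' : 0 < ∑ j, ((D j : ℚ) + ((fun _ => 0 : Fin t → ℕ) j : ℕ)) * x j +
      ((∑ i : Fin p, lineDegree (β i.succ.succ) + lineDegree κ : ℤ) : ℚ) := by
    have e1 : ∀ j, (D j : ℚ) + ((fun _ => 0 : Fin t → ℕ) j : ℕ) =
        ∑ i : Fin p, (m i.succ.succ j : ℚ) + b j := by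
      intro j
      have h1 : ((D j : ℤ) : ℚ) = ((∑ i : Fin p, (m i.succ.succ j : ℤ) + b j : ℤ) : ℚ) := by
        rw [hDz j]
      push_cast at h1
      simp only [Nat.cast_zero, add_zero]
      exact h1
    have e2 : ∑ j, ((D j : ℚ) + ((fun _ => 0 : Fin t → ℕ) j : ℕ)) * x j =
        ∑ i : Fin p, ∑ j, (m i.succ.succ j : ℚ) * x j + ∑ j, (b j : ℚ) * x j := by
      rw [Finset.sum_comm, ← Finset.sum_add_distrib]
      refine Finset.sum_congr rfl fun j _ => ?_
      rw [e1, add_mul, Finset.sum_mul]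
    rw [e2]
    push_cast
    have : NeZero p := ⟨hp.ne'⟩
    have e3 : 0 < ∑ i : Fin p, (∑ j, (m i.succ.succ j : ℚ) * x j + lineDegree (β i.succ.succ)) :=
      Finset.sum_pos (fun i _ => hP _) Finset.univ_nonempty
    rw [Finset.sum_add_distrib] at e3
    linarith
  have hV : Vanishb k K g hg' (m₀ + (m₁ + D)) _ hτ := by
    intro Q hc u
    exact vanishingb Q hc hg' (fun j => hmin j) (c := fun _ => 0) (κ := 0) (by simp) hw' hγ0
      hγfin hγdeg' hτ (hP 0) (hP (Fin.succ 0)) h' u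
  have hDpos : ∀ j, 0 < (m₀ + (m₁ + D)) j := by
    intro j
    have := (hA 0).1 j
    simp only [Pi.add_apply, hm₀]
    omega
  exact light_veryAmpleb (sec_nonvanishingb hg' hτ hV) (sec_separates_pointsb hg' hDpos hτ hV)
    (sec_separates_tangentsb hg' hDpos hτ hV)

/-- the condition on `G` -/
theorem mainc_cond {g : ∀ j, Option k → Matrix (Fin (n j)) (Fin (n j)) K}
    (hg : ∀ j, Curve.IsBundle (g j)) (hn : ∀ j, 0 < n j) {c : Fin t → ℕ} {κ : Option k → K}
    (hκ : IsLineBundle κ)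
    (hκd : ∑ j, (c j : ℚ) * (Curve.degree (g j) / n j) ≤ lineDegree κ)
    {y : Fin t → ℕ} {μ : Option k → K} (hμ : IsLineBundle μ) (hL : IsNef₃ g y μ) :
    IsLineBundle (fun a => κ a * μ a) ∧
      IsMinSlopeNonneg g (fun j => (y j : ℤ) - c j) (fun a => κ a * μ a) := by
  have hg' : ∀ j, IsBundle (g j) := fun j => light_isBundle (hg j)
  have hβ' : ∀ i, IsLineBundle ((Fin.cons κ (fun _ => μ) : Fin (1 + 1) → Option k → K) i) := by
    intro i
    refine Fin.cases ?_ (fun i => ?_) i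
    · exact hκ
    · exact hμ
  have hprod : ∀ a, ∏ i, (Fin.cons κ (fun _ => μ) : Fin (1 + 1) → Option k → K) i a =
      κ a * μ a := by
    intro a
    rw [Fin.prod_univ_succ]
    simp only [Fin.cons_zero, Fin.cons_succ, Finset.univ_unique, Finset.prod_const,
      Finset.card_singleton, pow_one]
  obtain ⟨hγ0, hγfin, hγdeg⟩ := main_gamma hβ'
  simp only [hprod] at hγ0 hγfin hγdeg
  have hdeg : lineDegree (fun a => κ a * μ a) = lineDegree κ + lineDegree μ := by
    have h1 : lineDegree (fun a => κ a * μ a) = -∑ᶠ a, ordOver a (κ a * μ a) := by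
      simp only [lineDegree, light_ordOver]
    rw [h1, hγdeg, Fin.sum_univ_succ]
    simp only [Fin.cons_zero, Fin.cons_succ, Finset.univ_unique, Finset.sum_const,
      Finset.card_singleton, one_smul]
  refine ⟨⟨hγ0, hγfin⟩, ?_⟩
  intro s A h hh
  have h1 := hL s A h fun j => (hh j).1
  have h2 : ∑ j, (c j : ℚ) * (Curve.degree (h j) / s j) ≤
      ∑ j, (c j : ℚ) * (Curve.degree (g j) / n j) := by
    refine Finset.sum_le_sum fun j _ => ?_
    refine mul_le_mul_of_nonneg_left ?_ (Nat.cast_nonneg _)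
    exact (hh j).2 (n j) 1 (g j) ⟨hn j, by rw [Matrix.rank_one, Fintype.card_fin],
      light_quotient (isQuotientBundle_self (hg' j))⟩
  rw [hdeg]
  have h3 : ∑ j, (((y j : ℤ) - c j : ℤ) : ℚ) * ((Curve.degree (h j) : ℚ) / s j) =
      ∑ j, (y j : ℚ) * ((Curve.degree (h j) : ℚ) / s j) -
        ∑ j, (c j : ℚ) * ((Curve.degree (h j) : ℚ) / s j) := by
    rw [← Finset.sum_sub_distrib]
    refine Finset.sum_congr rfl fun j _ => ?_
    push_cast
    ring
  rw [h3]
  push_cast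
  linarith

end Pool.Agent.FJ3
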