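import Pool.Agent.FJ3.LIN
import Pool.Agent.FJ3.LAT

/-!
# FJ3 / PHI: the functional given by Serre duality (helper92)
-/

set_option linter.unusedSectionVars false

namespace Pool.Agent.FJ3

open Pool.Agent.Helper38.Scroll Pool.Agent.FJ Matrix Module

section

variable {k K : Type} [Field k] [Field K] [Algebra (RatFunc k) K] [Algebra k K]
  [IsScalarTower k (RatFunc k) K] [IsAlgClosed k] [CharZero k] [FiniteDimensional (RatFunc k) K]
  {J : Type} [DecidableEq J] [Fintype J] {n : J → ℕ}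

theorem exists_phib (Q : Cond k K n) {g : ∀ j, Option k → Matrix (Fin (n j)) (Fin (n j)) K}
    (hg : ∀ j, IsBundle (g j)) (D : J → ℕ) {τ : Option k → K} (hτ : IsTwist τ)
    {w : Option k → K} (hw : ∀ a, IsCanonicalGenerator a (w a)) {u : MForms K n D}
    (hu : u ∉ (latFamb Q hg D hτ).W0 ⊔ (latFamb Q hg D hτ).Wi) :
    ∃ φ : MvPolynomial (Var n) K →ₗ[K] K, (∃ P ∈ MH K n D, φ P ≠ 0) ∧
      ∀ a, ∀ T ∈ condMod Q D a, ∃ b ∈ regRing k K a,
        φ (locMapb a (τ a) (fun j => g j a) T) = w a * b := by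
  obtain ⟨l, hl0, hlf, hli⟩ := (latFamb Q hg D hτ).exists_functional ⟨u, hu⟩
  obtain ⟨φ₀, hφ₀⟩ := reg_exists_repr (K := K) l
  let π : MvPolynomial (Var n) K →ₗ[K] MForms K n D :=
    LinearMap.codRestrict _ (MvPolynomial.weightedHomogeneousComponent (wt n) D) fun P =>
      MvPolynomial.weightedHomogeneousComponent_isWeightedHomogeneous _ _
  have hπ : ∀ (P : MvPolynomial (Var n) K) (hP : P ∈ MH K n D), π P = ⟨P, hP⟩ := fun P hP => by
    apply Subtype.ext
    show MvPolynomial.weightedHomogeneousComponent (wt n) D P = P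
    exact MvPolynomial.IsWeightedHomogeneous.weightedHomogeneousComponent_same hP
  refine ⟨φ₀ ∘ₗ π, ?_, ?_⟩
  · by_contra hcon
    push Not at hcon
    apply hl0
    ext1 X
    have h1 := hcon X.1 X.2
    rw [LinearMap.comp_apply, hπ _ X.2] at h1
    rw [hφ₀, h1, map_zero, LinearMap.zero_apply]
  · intro a T hT
    have hTh : locMapb a (τ a) (fun j => g j a) T ∈ MH K n D :=
      locMapb_isWH _ _ (mem_condMod.1 hT).2
    rw [LinearMap.comp_apply, hπ _ hTh]
    set X : MForms K n D := ⟨locMapb a (τ a) (fun j => g j a) T, hTh⟩ with hX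
    apply ((hw a).2 (φ₀ X)).mp
    intro b hb
    have hbX : b • X ∈ (latFamb Q hg D hτ).W a := by
      show b • X ∈ Wlb Q g D τ a
      refine mem_Wlb.2 ⟨(⟨b, hb⟩ : regRing k K a) • T, Submodule.smul_mem _ _ hT, ?_⟩
      rw [map_smul]
      rfl
    have h1 : Algebra.trace (RatFunc k) K (φ₀ X * b) = l (b • X) := by
      rw [hφ₀, map_smul, smul_eq_mul, mul_comm]
    rw [h1]
    cases a with
    | none => exact X_sq_mul_mem (hli _ hbX)
    | some a =>
      change 1 * _ ∈ _
      rw [one_mul]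
      exact hlf a _ hbX

end

end Pool.Agent.FJ3
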