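import Pool.Agent.FJ3.Defs
import Pool.Agent.FJ3.SPN

/-!
# FJ3 / RAD: the quotient of the forms by the radical of a pairing
-/

set_option linter.unusedSectionVars false

namespace Pool.Agent.FJ3

open Pool.Agent.Helper38.Scroll Pool.Agent.FJ Matrix Module

/-- An injective linear map `K^r → K^W` has `r` independent coordinates (`W` arbitrary). -/
lemma rad_minor {K W : Type} [Field K] {r : ℕ}
    (q : (Fin r → K) →ₗ[K] (W → K)) (hq : Function.Injective q) :
    ∃ w : Fin r → W, (Matrix.of fun i j => q (Pi.single i 1) (w j)).det ≠ 0 := by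
  classical
  let N : W → Fin r → K := fun w i => q (Pi.single i 1) w
  have hspan : Submodule.span K (Set.range N) = ⊤ := by
    by_contra hne
    obtain ⟨f, hf0, hf⟩ := Submodule.exists_le_ker_of_lt_top _ (lt_top_iff_ne_top.2 hne)
    apply hf0
    have hsum : ∀ c : Fin r → K, c = ∑ i, c i • (Pi.single i 1 : Fin r → K) := by
      intro c
      funext j
      rw [Finset.sum_apply, Finset.sum_eq_single j]
      · simp
      · intro i _ hi
        simp [Pi.single_eq_of_ne (Ne.symm hi)]
      · intro h
        exact absurd (Finset.mem_univ j) h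
    have h1 : q (fun i => f (Pi.single i 1)) = 0 := by
      funext w
      have h2 : f (N w) = 0 := hf (Submodule.subset_span ⟨w, rfl⟩)
      rw [hsum (N w), map_sum] at h2
      rw [hsum (fun i => f (Pi.single i 1)), map_sum, Finset.sum_apply, Pi.zero_apply, ← h2]
      refine Finset.sum_congr rfl fun i _ => ?_
      rw [map_smul, map_smul, Pi.smul_apply, smul_eq_mul, smul_eq_mul, mul_comm]
    have h2 : (fun i => f (Pi.single i 1)) = (0 : Fin r → K) := hq (by rw [h1, map_zero])
    ext i
    simpa using congrFun h2 i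
  obtain ⟨κ, a, ha, hsp, hli⟩ := exists_linearIndependent' K N
  have hfin : Finite κ := hli.finite
  have : Fintype κ := Fintype.ofFinite κ
  have hcard : Fintype.card κ = r := by
    rw [linearIndependent_iff_card_eq_finrank_span.mp hli, Set.finrank, hsp, hspan,
      finrank_top, finrank_fin_fun]
  let E : Fin r ≃ κ := (Fintype.equivFinOfCardEq hcard).symm
  refine ⟨fun j => a (E j), ?_⟩
  have h1 : LinearIndependent K (N ∘ (fun j => a (E j))) := hli.comp E E.injective
  have h2 : IsUnit (Matrix.of fun j i => q (Pi.single i 1) (a (E j))) := by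
    rw [← Matrix.linearIndependent_rows_iff_isUnit]
    exact h1
  have h4 := (Matrix.isUnit_iff_isUnit_det _).mp h2
  rw [← Matrix.det_transpose]
  exact h4.ne_zero

section

variable {K : Type} [Field K] {J : Type} [DecidableEq J] [Fintype J] {n : J → ℕ}

/-- The quotient of the forms of multidegree `m` by the radical of the pairing given by `φ`. -/
theorem exists_rad (φ : MvPolynomial (Var n) K →ₗ[K] K) {m m' : J → ℕ}
    (hφ : ∃ P ∈ MH K n (m + m'), φ P ≠ 0) :
    ∃ (R : ℕ) (_ : 0 < R) (π : MvPolynomial (Var n) K →ₗ[K] (Fin R → K))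
      (s : (Fin R → K) →ₗ[K] MvPolynomial (Var n) K), (∀ c, s c ∈ MH K n m) ∧
      (∀ c, π (s c) = c) ∧
      (∀ P ∈ MH K n m, π P = 0 → ∀ Y ∈ MH K n m', φ (P * Y) = 0) ∧
      ∀ S : Set (MvPolynomial (Var n) K), MH K n m' ≤ Submodule.span K S →
        ∃ y : Fin R → MvPolynomial (Var n) K, (∀ l, y l ∈ S) ∧
          (Matrix.of fun i l => φ (s (Pi.single i 1) * y l)).det ≠ 0 := by
  classical
  -- the pairing
  let f : MH K n m →ₗ[K] (MH K n m' → K) :=
    LinearMap.pi fun Y => φ ∘ₗ (LinearMap.mulRight K (Y : MvPolynomial (Var n) K)) ∘ₗ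
      (MH K n m).subtype
  have hfa : ∀ Z Y, f Z Y = φ ((Z : MvPolynomial (Var n) K) * Y) := fun _ _ => rfl
  have hf0 : f ≠ 0 := by
    intro h0
    obtain ⟨P, hP, hP0⟩ := hφ
    apply hP0
    have h1 := MH_add_le_span (R := K) (n := n) m m' hP
    refine Submodule.span_induction (p := fun P _ => φ P = 0) ?_ (map_zero _) ?_ ?_ h1
    · rintro _ ⟨Z, hZ, v, rfl⟩
      have h2 : f ⟨Z, hZ⟩ ⟨prodb v, spn_prodb_isWH v⟩ = 0 := by rw [h0]; rfl
      rw [hfa] at h2
      exact h2
    · intro a b _ _ ha hb
      rw [map_add, ha, hb, add_zero]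
    · intro c a _ ha
      rw [map_smul, ha, smul_zero]
  set r := finrank K (LinearMap.range f) with hr
  have hpos : 0 < r := by
    rw [hr, Module.finrank_pos_iff_exists_ne_zero]
    by_contra hcon
    push Not at hcon
    apply hf0
    ext1 Z
    exact congrArg Subtype.val (hcon ⟨f Z, ⟨_, rfl⟩⟩)
  let E : LinearMap.range f ≃ₗ[K] (Fin r → K) :=
    LinearEquiv.ofFinrankEq _ _ (by rw [Module.finrank_fin_fun])
  let p : MH K n m →ₗ[K] (Fin r → K) := E.toLinearMap ∘ₗ f.rangeRestrict
  have hp : Function.Surjective p :=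
    E.surjective.comp (LinearMap.surjective_rangeRestrict f)
  have hpf : ∀ Z, p Z = 0 → f Z = 0 := by
    intro Z hZ
    have h1 : f.rangeRestrict Z = 0 := by
      apply E.injective
      rw [map_zero]
      exact hZ
    exact congrArg Subtype.val h1
  obtain ⟨s, hs⟩ := p.exists_rightInverse_of_surjective (LinearMap.range_eq_top.mpr hp)
  have hs' : ∀ c, p (s c) = c := fun c => LinearMap.congr_fun hs c
  obtain ⟨π, hπ⟩ := LinearMap.exists_extend p
  have hπ' : ∀ Z : MH K n m, π (Z : MvPolynomial (Var n) K) = p Z := fun Z =>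
    LinearMap.congr_fun hπ Z
  refine ⟨r, hpos, π, (MH K n m).subtype ∘ₗ s, fun c => (s c).2, fun c => ?_, ?_, ?_⟩
  · rw [LinearMap.comp_apply, Submodule.subtype_apply, hπ', hs']
  · intro P hP hP0 Y hY
    have h1 : f ⟨P, hP⟩ = 0 := hpf _ (by rw [← hπ']; exact hP0)
    have h2 := congrFun h1 ⟨Y, hY⟩
    rw [hfa] at h2
    exact h2
  · intro S hS
    let q : (Fin r → K) →ₗ[K] (S → K) :=
      LinearMap.pi fun y => φ ∘ₗ (LinearMap.mulRight K (y : MvPolynomial (Var n) K)) ∘ₗ
        (MH K n m).subtype ∘ₗ s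
    have hqa : ∀ c y, q c y = φ ((s c : MvPolynomial (Var n) K) * y) := fun _ _ => rfl
    have hq : Function.Injective q := by
      rw [injective_iff_map_eq_zero]
      intro c hc
      have h1 : f (s c) = 0 := by
        funext Y
        rw [hfa]
        change φ _ = 0
        have h2 := hS Y.2
        refine Submodule.span_induction
          (p := fun Y _ => φ ((s c : MvPolynomial (Var n) K) * Y) = 0) ?_ ?_ ?_ ?_ h2
        · intro y hy
          have h3 := congrFun hc ⟨y, hy⟩
          rw [hqa] at h3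
          exact h3
        · rw [mul_zero, map_zero]
        · intro a b _ _ ha hb
          rw [mul_add, map_add, ha, hb, add_zero]
        · intro d a _ ha
          rw [mul_smul_comm, map_smul, ha, smul_zero]
      rw [← hs' c]
      change E (f.rangeRestrict (s c)) = 0
      have h2 : f.rangeRestrict (s c) = 0 := Subtype.ext h1
      rw [h2, map_zero]
    obtain ⟨w, hw⟩ := rad_minor q hq
    exact ⟨fun l => w l, fun l => (w l).2, hw⟩

end

end Pool.Agent.FJ3
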