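import Pool.Agent.FJ3.Defs
import Pool.Agent.FJ2.SF

/-!
# FJ3 / SLF: the slope theorem for a family
-/

set_option linter.unusedSectionVars false

namespace Pool.Agent.FJ3

open Pool.Agent.Helper38.Scroll Pool.Agent.FJ Matrix Module

section

variable {k K : Type} [Field k] [Field K] [Algebra (RatFunc k) K] [Algebra k K]
  [IsScalarTower k (RatFunc k) K] [IsAlgClosed k] [CharZero k] [FiniteDimensional (RatFunc k) K]

theorem slope_family {ι : Type} [Fintype ι] {ρ : ι → ℕ}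
    {h : ∀ l, Option k → Matrix (Fin (ρ l)) (Fin (ρ l)) K} (hh : ∀ l, IsBundle (h l))
    {μ : ι → ℚ}
    (hμ : ∀ l, ∀ s : ℕ, 0 < s → ∀ A : Matrix (Fin s) (Fin (ρ l)) K, A.rank = s →
      ∀ h' : Option k → Matrix (Fin s) (Fin s) K, IsQuotientBundle (h l) A h' →
        μ l * s ≤ degree h')
    (Θ : MultilinearMap K (fun l : ι => Fin (ρ l) → K) K) (h0 : Θ ≠ 0) {ν : Option k → K}
    (hν : ∀ a, ν a ≠ 0)
    (hfin : {a | ¬ (ν a ∈ regRing k K a ∧ (ν a)⁻¹ ∈ regRing k K a)}.Finite)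
    (hval : ∀ (a : Option k) (v : ∀ l, Fin (ρ l) → K), (∀ l, v l ∈ lattice a (h l a)) →
      ∃ c ∈ regRing k K a, Θ v = ν a * c) :
    ∑ l, μ l ≤ ((-∑ᶠ a, ordOver a (ν a) : ℤ) : ℚ) :=
  Pool.Agent.FJ2.slope_family hh hμ Θ h0 hν hfin hval

end

end Pool.Agent.FJ3
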