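import Pool.Agent.FJ3.LIN
import Pool.Agent.FJ3.SPN
import Pool.Agent.FJ3.SLF

/-!
# FJ3 / SLP: the slopes of the bundle of forms of a given multidegree
-/

set_option linter.unusedSectionVars false

namespace Pool.Agent.FJ3

open Pool.Agent.Helper38.Scroll Pool.Agent.FJ Matrix Module

section

variable {K : Type} [Field K] {J : Type} [DecidableEq J] [Fintype J] {n : J → ℕ}

lemma slp_linb_add (j : J) (v w : Fin (n j) → K) : linb j (v + w) = linb j v + linb j w := by
  simp only [linb, Pi.add_apply, map_add, add_mul, Finset.sum_add_distrib]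

lemma slp_linb_smul (j : J) (c : K) (v : Fin (n j) → K) : linb j (c • v) = c • linb j v := by
  simp only [linb, Pi.smul_apply, smul_eq_mul, map_mul, Finset.smul_sum,
    MvPolynomial.smul_eq_C_mul, mul_assoc]

lemma slp_prodb_update {m : J → ℕ} (v : ∀ p : (Σ j : J, Fin (m j)), Fin (n p.1) → K)
    (p₀ : Σ j : J, Fin (m j)) (z : Fin (n p₀.1) → K) :
    prodb (Function.update v p₀ z) =
      linb p₀.1 z * ∏ p ∈ Finset.univ.erase p₀, linb p.1 (v p) := by
  unfold prodb
  rw [← Finset.mul_prod_erase Finset.univ _ (Finset.mem_univ p₀), Function.update_self]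
  congr 1
  apply Finset.prod_congr rfl
  intro p hp
  rw [Function.update_of_ne (Finset.ne_of_mem_erase hp)]

/-- The matrix of the determinant form. -/
noncomputable def slpMat {m : J → ℕ} {s : ℕ} (ψ : MvPolynomial (Var n) K →ₗ[K] (Fin s → K))
    (w : ∀ l : Fin s × (Σ j : J, Fin (m j)), Fin (n l.2.1) → K) : Matrix (Fin s) (Fin s) K :=
  Matrix.of fun l => ψ (prodb fun p => w (l, p))

lemma slpMat_update {m : J → ℕ} {s : ℕ} (ψ : MvPolynomial (Var n) K →ₗ[K] (Fin s → K))
    [DecidableEq (Fin s × (Σ j : J, Fin (m j)))]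
    (w : ∀ l : Fin s × (Σ j : J, Fin (m j)), Fin (n l.2.1) → K)
    (l₀ : Fin s) (p₀ : Σ j : J, Fin (m j)) (z : Fin (n p₀.1) → K) :
    slpMat ψ (Function.update w (l₀, p₀) z) =
      (slpMat ψ w).updateRow l₀
        (ψ (linb p₀.1 z * ∏ p ∈ Finset.univ.erase p₀, linb p.1 (w (l₀, p)))) := by
  ext l i
  by_cases h : l = l₀
  · subst h
    rw [Matrix.updateRow_self]
    have h1 : (fun p => Function.update w (l, p₀) z (l, p)) =
        Function.update (fun p => w (l, p)) p₀ z := by
      funext p
      by_cases hp : p = p₀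
      · subst hp
        rw [Function.update_self, Function.update_self]
      · rw [Function.update_of_ne hp, Function.update_of_ne]
        intro h2
        exact hp (Prod.ext_iff.mp h2).2
    change ψ (prodb fun p => Function.update w (l, p₀) z (l, p)) i = _
    rw [h1, slp_prodb_update]
  · rw [Matrix.updateRow_ne h]
    have h1 : (fun p => Function.update w (l₀, p₀) z (l, p)) = fun p => w (l, p) := by
      funext p
      rw [Function.update_of_ne]
      intro h2
      exact h (Prod.ext_iff.mp h2).1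
    change ψ (prodb fun p => Function.update w (l₀, p₀) z (l, p)) i = _
    rw [h1]
    rfl

/-- The determinant form. -/
noncomputable def slpTheta {m : J → ℕ} {s : ℕ} (ψ : MvPolynomial (Var n) K →ₗ[K] (Fin s → K)) :
    MultilinearMap K (fun l : Fin s × (Σ j : J, Fin (m j)) => Fin (n l.2.1) → K) K where
  toFun w := (slpMat ψ w).det
  map_update_add' w l x y := by
    obtain ⟨l₀, p₀⟩ := l
    rw [slpMat_update, slpMat_update, slpMat_update, slp_linb_add, add_mul, map_add,
      Matrix.det_updateRow_add]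
  map_update_smul' w l c x := by
    obtain ⟨l₀, p₀⟩ := l
    rw [slpMat_update, slpMat_update, slp_linb_smul, smul_mul_assoc, map_smul,
      Matrix.det_updateRow_smul, smul_eq_mul]

lemma slpTheta_apply {m : J → ℕ} {s : ℕ} (ψ : MvPolynomial (Var n) K →ₗ[K] (Fin s → K))
    (w : ∀ l : Fin s × (Σ j : J, Fin (m j)), Fin (n l.2.1) → K) :
    slpTheta ψ w = (slpMat ψ w).det := rfl

/-- A spanning family of `K^s` has a nonzero minor. -/
lemma slp_minor {W : Type} {s : ℕ} (f : W → Fin s → K)
    (hf : ⊤ ≤ Submodule.span K (Set.range f)) :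
    ∃ w : Fin s → W, (Matrix.of fun l => f (w l)).det ≠ 0 := by
  obtain ⟨κ, a, ha, hsp, hli⟩ := exists_linearIndependent' K f
  have hle : ⊤ ≤ Submodule.span K (Set.range (f ∘ a)) := by
    rw [hsp]
    exact hf
  let b : Basis κ K (Fin s → K) := Basis.mk hli hle
  have hfin : Finite κ := Module.Finite.finite_basis b
  have : Fintype κ := Fintype.ofFinite κ
  have hcard : Fintype.card κ = s := by
    rw [← Module.finrank_eq_card_basis b, Module.finrank_fin_fun]
  let E : Fin s ≃ κ := (Fintype.equivFinOfCardEq hcard).symm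
  refine ⟨fun l => a (E l), ?_⟩
  have h1 : LinearIndependent K ((f ∘ a) ∘ E) := hli.comp E E.injective
  have h2 : IsUnit (Matrix.of fun l => f (a (E l))) := by
    rw [← Matrix.linearIndependent_rows_iff_isUnit]
    exact h1
  exact ((Matrix.isUnit_iff_isUnit_det _).mp h2).ne_zero

lemma slpTheta_ne {m : J → ℕ} {s : ℕ} (ψ : MvPolynomial (Var n) K →ₗ[K] (Fin s → K))
    (hψ : ∀ c, ∃ P ∈ MH K n m, ψ P = c) : slpTheta (m := m) ψ ≠ 0 := by
  have hspan : ⊤ ≤ Submodule.span K (Set.range
      fun v : (∀ p : (Σ j : J, Fin (m j)), Fin (n p.1) → K) => ψ (prodb v)) := by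
    intro c _
    obtain ⟨P, hP, rfl⟩ := hψ c
    have h1 := Submodule.mem_map_of_mem (f := ψ) (MH_le_span m hP)
    rw [Submodule.map_span, ← Set.range_comp] at h1
    exact h1
  obtain ⟨v, hv⟩ := slp_minor _ hspan
  intro h0
  apply hv
  have h1 := slpTheta_apply ψ (fun l => v l.1 l.2)
  rw [h0] at h1
  exact h1.symm

lemma slp_sum (m : J → ℕ) (s : ℕ) (x : J → ℚ) :
    ∑ l : Fin s × (Σ j : J, Fin (m j)), x l.2.1 = (∑ j, (m j : ℚ) * x j) * s := by
  rw [Fintype.sum_prod_type]
  simp only [Finset.sum_const, Finset.card_univ, Fintype.card_fin, nsmul_eq_mul,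
    Fintype.sum_sigma]
  ring

/-- A matrix of full row rank has a right inverse. -/
lemma slp_right_inv {r s : ℕ} {A : Matrix (Fin s) (Fin r) K} (hA : A.rank = s) :
    ∃ R : Matrix (Fin r) (Fin s) K, A * R = 1 := by
  have h1 : LinearMap.range A.mulVecLin = ⊤ := by
    apply Submodule.eq_top_of_finrank_eq
    rw [Module.finrank_fin_fun]
    exact hA
  obtain ⟨t, ht⟩ := A.mulVecLin.exists_rightInverse_of_surjective h1
  refine ⟨LinearMap.toMatrix' t, ?_⟩
  have h2 : A * LinearMap.toMatrix' t = LinearMap.toMatrix' (A.mulVecLin ∘ₗ t) := by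
    rw [LinearMap.toMatrix'_comp, ← Matrix.toLin'_apply', LinearMap.toMatrix'_toLin']
  rw [h2, ht, LinearMap.toMatrix'_id]

end

section

variable {k K : Type} [Field k] [Field K] [Algebra (RatFunc k) K] [Algebra k K]
  [IsScalarTower k (RatFunc k) K] [IsAlgClosed k] [CharZero k] [FiniteDimensional (RatFunc k) K]
  {J : Type} [DecidableEq J] [Fintype J] {n : J → ℕ}

/-- the slopes of the quotients of a quotient of the bundle of forms of multidegree `m` -/
theorem mbundle_slope {g : ∀ j, Option k → Matrix (Fin (n j)) (Fin (n j)) K}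
    (hg : ∀ j, IsBundle (g j)) {x : J → ℚ}
    (hx : ∀ j, ∀ s : ℕ, 0 < s → ∀ A : Matrix (Fin s) (Fin (n j)) K, A.rank = s →
      ∀ h : Option k → Matrix (Fin s) (Fin s) K, IsQuotientBundle (g j) A h →
        x j * s ≤ degree h)
    (m : J → ℕ) {R : ℕ} (π : MvPolynomial (Var n) K →ₗ[K] (Fin R → K))
    (hπ : ∀ c, ∃ P ∈ MH K n m, π P = c) {H : Option k → Matrix (Fin R) (Fin R) K}
    (hHb : IsBundle H)
    (hH : ∀ a, lattice a (H a) = (MH (regRing k K a) n m).map
        ((π.restrictScalars (regRing k K a)) ∘ₗ locMapb a 1 fun j => g j a))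
    {s : ℕ} (hs : 0 < s) {A : Matrix (Fin s) (Fin R) K} (hA : A.rank = s)
    {h' : Option k → Matrix (Fin s) (Fin s) K} (hh' : IsQuotientBundle H A h') :
    (∑ j, (m j : ℚ) * x j) * s ≤ degree h' := by
  obtain ⟨R', hAR⟩ := slp_right_inv hA
  have hb' : IsBundle h' := quotient_isBundle hHb hAR hh'
  set ψ : MvPolynomial (Var n) K →ₗ[K] (Fin s → K) := A.mulVecLin ∘ₗ π with hψ
  have hψs : ∀ c, ∃ P ∈ MH K n m, ψ P = c := by
    intro c
    obtain ⟨P, hP, hPc⟩ := hπ (R' *ᵥ c)
    refine ⟨P, hP, ?_⟩
    rw [hψ, LinearMap.comp_apply, hPc, Matrix.mulVecLin_apply, mulVec_mulVec, hAR, one_mulVec]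
  have hfam := slope_family (k := k) (K := K)
    (ι := Fin s × (Σ j : J, Fin (m j))) (ρ := fun l => n l.2.1) (h := fun l => g l.2.1)
    (fun l => hg l.2.1) (μ := fun l => x l.2.1) (fun l => hx l.2.1)
    (slpTheta ψ) (slpTheta_ne ψ hψs) (ν := fun a => (h' a).det) (fun a => (hh' a).1) ?_ ?_
  · rw [slp_sum] at hfam
    exact hfam
  · refine hb'.2.subset ?_
    intro a ha
    by_contra hcon
    simp only [Set.mem_ofPred_eq, not_not] at hcon
    exact ha (mem_regRing_inv_of_lattice_eq (hb'.1 a) hcon)
  · intro a v hv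
    -- coordinates of the vectors
    have hv' : ∀ l, ∃ c : Fin (n l.2.1) → regRing k K a, opMap a (g l.2.1 a) c = v l := by
      intro l
      have h1 := hv l
      rw [lattice_eq_range] at h1
      exact h1
    choose c hc using hv'
    -- the rows are in the lattice
    have hrow : ∀ l, ∃ d : Fin s → regRing k K a,
        opMap a (h' a) d = ψ (prodb fun p => v (l, p)) := by
      intro l
      have h1 : locMapb a 1 (fun j => g j a) (prodb fun p => c (l, p)) =
          prodb fun p => v (l, p) := by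
        rw [locMapb_prodb (fun j => g j a)]
        congr 1
        funext p
        exact hc (l, p)
      have h2 : π (prodb fun p => v (l, p)) ∈ lattice a (H a) := by
        rw [hH a, ← h1]
        exact Submodule.mem_map_of_mem (prodb_isWH fun p => c (l, p))
      have h3 : ψ (prodb fun p => v (l, p)) ∈ lattice a (h' a) := by
        rw [(hh' a).2]
        exact Submodule.mem_map_of_mem h2
      rw [lattice_eq_range] at h3
      exact h3
    choose d hd using hrow
    refine ⟨(Matrix.of fun l i => (d l i : K)).det, regRing_prod_mem fun l i => (d l i).2, ?_⟩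
    have h4 : slpMat ψ v = (Matrix.of fun l i => (d l i : K)) * (h' a)ᵀ := by
      ext l i
      change ψ (prodb fun p => v (l, p)) i = _
      rw [← hd l, opMap_apply, Matrix.mul_apply]
      simp only [Matrix.mulVec, dotProduct, Matrix.of_apply, Matrix.transpose_apply]
      apply Finset.sum_congr rfl
      intro q _
      ring
    rw [slpTheta_apply, h4, Matrix.det_mul, Matrix.det_transpose, mul_comm]

end

end Pool.Agent.FJ3
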