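import Pool.Agent.FJ3.LIN
import Pool.Agent.FJ3.SPN
import Pool.Agent.FJ3.LAT
import Pool.Agent.FJ3.PHI
import Pool.Agent.FJ3.SLF
import Pool.Agent.FJ3.BUN
import Pool.Agent.FJ3.SLP
import Pool.Agent.FJ3.RAD
import Pool.Agent.FJ3.THE
import Pool.Agent.FJ3.LOC

/-!
# The vanishing theorem
-/

set_option linter.unusedSectionVars false

namespace Pool.Agent.FJ3

open Pool.Agent.Helper38.Scroll Pool.Agent.FJ Matrix Module

variable {k K : Type} [Field k] [Field K] [Algebra (RatFunc k) K] [Algebra k K]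
  [IsScalarTower k (RatFunc k) K] [IsAlgClosed k] [CharZero k] [FiniteDimensional (RatFunc k) K]
  {J : Type} [DecidableEq J] [Fintype J] {n : J → ℕ}

/-- the bundles of the slots -/
noncomputable def slotB (g : ∀ j, Option k → Matrix (Fin (n j)) (Fin (n j)) K) (D : J → ℕ)
    {R₀ R₁ : ℕ} (H₀ : Option k → Matrix (Fin R₀) (Fin R₀) K)
    (H₂ : Option k → Matrix (Fin R₁) (Fin R₁) K) :
    ∀ l, Option k → Matrix (Fin (slotRank n D R₀ R₁ l)) (Fin (slotRank n D R₀ R₁ l)) K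
  | Sum.inl _ => H₀
  | Sum.inr (Sum.inl _) => H₂
  | Sum.inr (Sum.inr p) => g p.2.1

/-- the slopes of the slots -/
def slotM (D : J → ℕ) (R₀ : ℕ) (x : J → ℚ) (μ₀ μ₁ : ℚ) :
    Fin R₀ ⊕ Fin R₀ ⊕ Fin R₀ × (Σ j : J, Fin (D j)) → ℚ
  | Sum.inl _ => μ₀
  | Sum.inr (Sum.inl _) => μ₁
  | Sum.inr (Sum.inr p) => x p.2.1

omit [DecidableEq J] in
lemma sum_slotM (D : J → ℕ) (R₀ : ℕ) (x : J → ℚ) (μ₀ μ₁ : ℚ) :
    ∑ l, slotM D R₀ x μ₀ μ₁ l = R₀ * (μ₀ + μ₁ + ∑ j, (D j : ℚ) * x j) := by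
  rw [Fintype.sum_sum_type, Fintype.sum_sum_type, Fintype.sum_prod_type]
  simp only [slotM, Finset.sum_const, Finset.card_univ, Fintype.card_fin, nsmul_eq_mul,
    Fintype.sum_sigma]
  ring

/-- integrality of the degrees -/
lemma van_int {s R : ℕ} {d b : ℤ} {P : ℚ} (hs : 0 < s) (hsR : s ≤ R) (hP : 0 < P + b)
    (h : P * s ≤ d) : (1 / (R : ℚ) - b) * s ≤ d := by
  have hs' : (0 : ℚ) < s := by exact_mod_cast hs
  have hR' : (0 : ℚ) < R := by exact_mod_cast (lt_of_lt_of_le hs hsR)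
  have h1 : (0 : ℚ) < d + s * b := by nlinarith
  have h2 : (0 : ℤ) < d + s * b := by exact_mod_cast h1
  have h3 : (1 : ℤ) ≤ d + s * b := h2
  have h4 : (1 : ℚ) ≤ d + s * b := by exact_mod_cast h3
  have h5 : (s : ℚ) / R ≤ 1 := by
    rw [div_le_one hR']
    exact_mod_cast hsR
  have h6 : (1 / (R : ℚ) - b) * s = s / R - s * b := by ring
  rw [h6]
  linarith

theorem van_core (Q : Cond k K n) (hc : ∑ᶠ a, Q.c a ≤ 2)
    {g : ∀ j, Option k → Matrix (Fin (n j)) (Fin (n j)) K} (hg : ∀ j, IsBundle (g j))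
    {m₀ m₁ D : J → ℕ} {x : J → ℚ}
    (hx : ∀ j, ∀ s : ℕ, 0 < s → ∀ A : Matrix (Fin s) (Fin (n j)) K, A.rank = s →
      ∀ h : Option k → Matrix (Fin s) (Fin s) K, IsQuotientBundle (g j) A h →
        x j * s ≤ degree h)
    {c : J → ℕ} {κ : ℤ} (hxd : ∑ j, x j * c j ≤ κ)
    {b₀ b₁ b' : ℤ} {γ : Option k → K} (hγ0 : ∀ a, γ a ≠ 0)
    (hγfin : {a | ¬ (γ a ∈ regRing k K a ∧ (γ a)⁻¹ ∈ regRing k K a)}.Finite)
    (hγdeg : -∑ᶠ a, ordOver a (γ a) = κ + (b₀ + b₁ + b'))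
    (φ : MvPolynomial (Var n) K →ₗ[K] K)
    (hφreg : ∀ a, ∀ T ∈ condMod Q (m₀ + (m₁ + D)) a,
      γ a * φ (locMapb a 1 (fun j => g j a) T) ∈ regRing k K a)
    (h0 : 0 < ∑ j, (m₀ j : ℚ) * x j + b₀) (h1 : 0 < ∑ j, (m₁ j : ℚ) * x j + b₁)
    (h' : 0 < ∑ j, ((D j : ℚ) + c j) * x j + b')
    {R₀ : ℕ} (hR₀ : 0 < R₀) {π₀ : MvPolynomial (Var n) K →ₗ[K] (Fin R₀ → K)}
    {s₀ : (Fin R₀ → K) →ₗ[K] MvPolynomial (Var n) K} (hs₀ : ∀ c, s₀ c ∈ MH K n m₀)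
    (hπ₀ : ∀ c, π₀ (s₀ c) = c)
    (hk₀ : ∀ P ∈ MH K n m₀, π₀ P = 0 → ∀ Y ∈ MH K n (m₁ + D), φ (P * Y) = 0)
    (hdet₀ : ∀ S : Set (MvPolynomial (Var n) K), MH K n (m₁ + D) ≤ Submodule.span K S →
        ∃ y : Fin R₀ → MvPolynomial (Var n) K, (∀ l, y l ∈ S) ∧
          (Matrix.of fun i l => φ (s₀ (Pi.single i 1) * y l)).det ≠ 0)
    {R₁ : ℕ} {π₁ : MvPolynomial (Var n) K →ₗ[K] (Fin R₁ → K)}
    {s₁ : (Fin R₁ → K) →ₗ[K] MvPolynomial (Var n) K} (hs₁ : ∀ c, s₁ c ∈ MH K n m₁)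
    (hπ₁ : ∀ c, π₁ (s₁ c) = c)
    (hk₁ : ∀ P ∈ MH K n m₁, π₁ P = 0 → ∀ Y ∈ MH K n (m₀ + D), φ (P * Y) = 0)
    (hR : R₁ ≤ R₀) : False := by
  have hsur₀ : ∀ c, ∃ P ∈ MH K n m₀, π₀ P = c := fun c => ⟨s₀ c, hs₀ c, hπ₀ c⟩
  have hsur₁ : ∀ c, ∃ P ∈ MH K n m₁, π₁ P = c := fun c => ⟨s₁ c, hs₁ c, hπ₁ c⟩
  obtain ⟨H₀, hH₀b, hH₀⟩ := exists_mbundle hg m₀ π₀ hsur₀
  obtain ⟨H₂, hH₂b, hH₂⟩ := exists_mbundle hg m₁ π₁ hsur₁
  have hH₁ := fun a => exists_condFrame Q (a := a) (fun j => (hg j).1 a) m₀ π₀ hsur₀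
    (hH₀b.1 a) (hH₀ a)
  choose H₁ hH₁d hH₁l claim5 using hH₁
  obtain ⟨Θ, hΘ⟩ := exists_thetab φ D s₀ s₁
  -- nonzero
  have hΘ0 : Θ ≠ 0 := by
    obtain ⟨y, hyS, hydet⟩ := hdet₀ {P | ∃ Z ∈ MH K n m₁,
      ∃ v : (∀ p : (Σ j : J, Fin (D j)), Fin (n p.1) → K), P = Z * prodb v} (MH_add_le_span m₁ D)
    choose Z hZ v hv using hyS
    intro hcon
    apply hydet
    have h2 : (Matrix.of fun i l => φ (s₀ (Pi.single i 1) * y l)) =
        Matrix.of fun i l => φ (s₀ (Pi.single i 1) * (s₁ (π₁ (Z l)) * prodb (v l))) := by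
      ext i l
      simp only [Matrix.of_apply]
      rw [hv l]
      have h3 : φ ((Z l - s₁ (π₁ (Z l))) * (s₀ (Pi.single i 1) * prodb (v l))) = 0 := by
        apply hk₁ _ (Submodule.sub_mem _ (hZ l) (hs₁ _))
        · rw [map_sub, hπ₁, sub_self]
        · exact (hs₀ _).mul (prodb_isWH _)
      have h4 : (Z l - s₁ (π₁ (Z l))) * (s₀ (Pi.single i 1) * prodb (v l)) =
          s₀ (Pi.single i 1) * (Z l * prodb (v l)) -
            s₀ (Pi.single i 1) * (s₁ (π₁ (Z l)) * prodb (v l)) := by ring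
      rw [h4, map_sub, sub_eq_zero] at h3
      exact h3
    rw [h2]
    let V : ∀ l, Fin (slotRank n D R₀ R₁ l) → K := fun l =>
      match l with
      | Sum.inl i => (Pi.single i 1 : Fin R₀ → K)
      | Sum.inr (Sum.inl l) => π₁ (Z l)
      | Sum.inr (Sum.inr p) => v p.1 p.2
    have h5 := hΘ V
    rw [hcon] at h5
    exact h5.symm
  set ν : Option k → K := fun a => (γ a)⁻¹ ^ R₀ * ((H₀ a).det * ((H₁ a).det)⁻¹) with hν
  have hν0 : ∀ a, ν a ≠ 0 := fun a => mul_ne_zero (pow_ne_zero _ (inv_ne_zero (hγ0 a)))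
    (mul_ne_zero (hH₀b.1 a) (inv_ne_zero (hH₁d a)))
  have hunit : ∀ a, a ∉ {a | Q.I a ≠ ⊤} → lattice a (H₁ a) = lattice a (H₀ a) := by
    intro a ha
    simp only [Set.mem_ofPred_eq, not_not] at ha
    rw [hH₁l, hH₀]
    congr 1
    rw [condMod, ha]
    exact inf_eq_right.mpr fun _ _ => trivial
  have hfin : {a | ¬ (ν a ∈ regRing k K a ∧ (ν a)⁻¹ ∈ regRing k K a)}.Finite := by
    refine ((hγfin.union hH₀b.2).union Q.fin).subset ?_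
    intro a ha
    by_contra hcon
    simp only [Set.mem_union, Set.mem_ofPred_eq, not_or, not_not] at hcon
    obtain ⟨⟨h5, h3⟩, h4⟩ := hcon
    apply ha
    have h6 := mem_regRing_inv_of_lattice_eq (hH₀b.1 a) h3
    have h7 : lattice a (H₁ a) = lattice a 1 := by
      rw [hunit a (fun h => h h4), h3]
    have h8 := mem_regRing_inv_of_lattice_eq (hH₁d a) h7
    constructor
    · refine Subalgebra.mul_mem _ (Subalgebra.pow_mem _ h5.2 _) (Subalgebra.mul_mem _ h6.1 h8.2)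
    · change (ν a)⁻¹ ∈ regRing k K a
      rw [hν]
      simp only [mul_inv, inv_pow, inv_inv]
      exact Subalgebra.mul_mem _ (Subalgebra.pow_mem _ h5.1 _) (Subalgebra.mul_mem _ h6.2 h8.1)
  have hR₀' : (0 : ℚ) < R₀ := by exact_mod_cast hR₀
  have hslope := slope_family (h := slotB g D H₀ H₂)
    (μ := slotM D R₀ x (1 / (R₀ : ℚ) - b₀) (1 / (R₀ : ℚ) - b₁)) (by
      rintro (i | i | p)
      · exact hH₀b
      · exact hH₂b
      · exact hg p.2.1) (by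
      rintro (i | i | p) s hs A hA h₁ hh₁
      · have h2 := mbundle_slope hg hx m₀ π₀ hsur₀ hH₀b hH₀ hs hA hh₁
        have h3 : s ≤ R₀ := by
          have h4 : A.rank ≤ R₀ := A.rank_le_width
          omega
        exact van_int hs h3 h0 h2
      · have h2 := mbundle_slope hg hx m₁ π₁ hsur₁ hH₂b hH₂ hs hA hh₁
        have h3 : s ≤ R₀ := by
          have h4 : A.rank ≤ R₁ := A.rank_le_width
          omega
        exact van_int hs h3 h1 h2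
      · exact hx p.2.1 s hs A hA h₁ hh₁) Θ hΘ0 hν0 hfin (by
      intro a v hv
      rw [hΘ]
      exact thetab_local Q (g := fun j => g j a) (hγ0 a) φ (hφreg a) hs₀ hπ₀ hk₀ hs₁ hπ₁ hk₁
        (hH₀b.1 a) (hH₁d a) (hH₀ a) (hH₁l a) (hH₂ a) (fun i => v (Sum.inl i))
        (fun i => hv (Sum.inl i)) (fun i => v (Sum.inr (Sum.inl i)))
        (fun i => hv (Sum.inr (Sum.inl i))) (fun l p => v (Sum.inr (Sum.inr (l, p))))
        (fun l p => hv (Sum.inr (Sum.inr (l, p)))))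
  rw [sum_slotM] at hslope
  -- the sum
  have hfγ : {a | ordOver a (γ a) ≠ 0}.Finite := by
    refine hγfin.subset ?_
    intro a ha hcon
    exact ha (ordOver_unit (hγ0 a) hcon.1 hcon.2)
  have hfν : {a | ordOver a (ν a) ≠ 0}.Finite := by
    refine hfin.subset ?_
    intro a ha hcon
    exact ha (ordOver_unit (hν0 a) hcon.1 hcon.2)
  set F := ((hfγ.union hfν).union Q.cfin).toFinset with hF
  have hmem : ∀ a, a ∈ F ↔ ((ordOver a (γ a) ≠ 0 ∨ ordOver a (ν a) ≠ 0) ∨ Q.c a ≠ 0) := by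
    intro a
    rw [hF, Set.Finite.mem_toFinset]
    rfl
  have e1 : ∑ᶠ a, ordOver a (γ a) = ∑ a ∈ F, ordOver a (γ a) := by
    rw [finsum_eq_sum_of_support_subset]
    intro a ha
    exact Finset.mem_coe.mpr ((hmem a).mpr (Or.inl (Or.inl ha)))
  have e3 : ∑ᶠ a, ordOver a (ν a) = ∑ a ∈ F, ordOver a (ν a) := by
    rw [finsum_eq_sum_of_support_subset]
    intro a ha
    exact Finset.mem_coe.mpr ((hmem a).mpr (Or.inl (Or.inr ha)))
  have e4 : ∑ᶠ a, Q.c a = ∑ a ∈ F, Q.c a := by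
    rw [finsum_eq_sum_of_support_subset]
    intro a ha
    exact Finset.mem_coe.mpr ((hmem a).mpr (Or.inr ha))
  rw [e4] at hc
  have hc' : (∑ a ∈ F, (Q.c a : ℤ)) ≤ 2 := by exact_mod_cast hc
  have claim6 : ∀ a, -(R₀ * ordOver a (γ a) + Q.c a) ≤ ordOver a (ν a) := by
    intro a
    have h2 : ordOver a (ν a) = -(R₀ * ordOver a (γ a)) +
        (ordOver a (H₀ a).det - ordOver a (H₁ a).det) := by
      rw [hν]
      simp only
      rw [ordOver_mul a (pow_ne_zero _ (inv_ne_zero (hγ0 a)))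
        (mul_ne_zero (hH₀b.1 a) (inv_ne_zero (hH₁d a))), ordOver_pow a (inv_ne_zero (hγ0 a)),
        ordOver_inv a (hγ0 a), ordOver_mul a (hH₀b.1 a) (inv_ne_zero (hH₁d a)),
        ordOver_inv a (hH₁d a)]
      ring
    have h3 := claim5 a
    rw [h2]
    linarith
  have hsum : -(R₀ * ∑ a ∈ F, ordOver a (γ a) + ∑ a ∈ F, (Q.c a : ℤ)) ≤
      ∑ a ∈ F, ordOver a (ν a) := by
    rw [Finset.mul_sum, ← Finset.sum_add_distrib, ← Finset.sum_neg_distrib]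
    exact Finset.sum_le_sum fun a _ => claim6 a
  have hsum2 : -∑ a ∈ F, ordOver a (ν a) ≤
      -(R₀ * (κ + (b₀ + b₁ + b'))) + 2 := by
    rw [← hγdeg, e1]
    linarith
  rw [e3] at hslope
  have hsum3 : ((-∑ a ∈ F, ordOver a (ν a) : ℤ) : ℚ) ≤
      -(R₀ * ((κ : ℚ) + (b₀ + b₁ + b'))) + 2 := by
    exact_mod_cast hsum2
  have hk := hslope.trans hsum3
  have e5 : ∑ j, ((D j : ℚ) + c j) * x j = ∑ j, (D j : ℚ) * x j + ∑ j, x j * c j := by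
    rw [← Finset.sum_add_distrib]
    exact Finset.sum_congr rfl fun j _ => by ring
  rw [e5] at h'
  have e6 : (R₀ : ℚ) * (1 / (R₀ : ℚ) - b₀ + (1 / (R₀ : ℚ) - b₁) + ∑ j, (D j : ℚ) * x j) =
      2 + R₀ * (∑ j, (D j : ℚ) * x j - b₀ - b₁) := by
    field_simp
    ring
  rw [e6] at hk
  have e7 : (0 : ℚ) < R₀ * (∑ j, (D j : ℚ) * x j + (κ : ℚ) + b') := by
    apply mul_pos hR₀'
    linarith
  nlinarith

/-- **The vanishing theorem.** -/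
theorem vanishingb (Q : Cond k K n) (hc : ∑ᶠ a, Q.c a ≤ 2)
    {g : ∀ j, Option k → Matrix (Fin (n j)) (Fin (n j)) K} (hg : ∀ j, IsBundle (g j))
    {m₀ m₁ D : J → ℕ} {x : J → ℚ}
    (hx : ∀ j, ∀ s : ℕ, 0 < s → ∀ A : Matrix (Fin s) (Fin (n j)) K, A.rank = s →
      ∀ h : Option k → Matrix (Fin s) (Fin s) K, IsQuotientBundle (g j) A h →
        x j * s ≤ degree h)
    {c : J → ℕ} {κ : ℤ} (hxd : ∑ j, x j * c j ≤ κ) {w : Option k → K}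
    (hw : ∀ a, IsCanonicalGenerator a (w a))
    {b₀ b₁ b' : ℤ} {γ : Option k → K} (hγ0 : ∀ a, γ a ≠ 0)
    (hγfin : {a | ¬ (γ a ∈ regRing k K a ∧ (γ a)⁻¹ ∈ regRing k K a)}.Finite)
    (hγdeg : -∑ᶠ a, ordOver a (γ a) = κ + (b₀ + b₁ + b'))
    (hτ : IsTwist fun a => w a * γ a)
    (h0 : 0 < ∑ j, (m₀ j : ℚ) * x j + b₀) (h1 : 0 < ∑ j, (m₁ j : ℚ) * x j + b₁)
    (h' : 0 < ∑ j, ((D j : ℚ) + c j) * x j + b') (u : MForms K n (m₀ + (m₁ + D))) :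
    u ∈ (latFamb Q hg (m₀ + (m₁ + D)) hτ).W0 ⊔ (latFamb Q hg (m₀ + (m₁ + D)) hτ).Wi := by
  by_contra hu
  obtain ⟨φ, hφne, hφ⟩ := exists_phib Q hg _ hτ hw hu
  have hφreg : ∀ a, ∀ T ∈ condMod Q (m₀ + (m₁ + D)) a,
      γ a * φ (locMapb a 1 (fun j => g j a) T) ∈ regRing k K a := by
    intro a T hT
    obtain ⟨b, hb, hbe⟩ := hφ a T hT
    rw [locMapb_smul, map_smul, smul_eq_mul, mul_assoc] at hbe
    rw [← mul_left_cancel₀ (hw a).1 hbe] at hb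
    exact hb
  have hcomm : m₀ + (m₁ + D) = m₁ + (m₀ + D) := add_left_comm _ _ _
  obtain ⟨R₀, hR₀, π₀, s₀, hs₀, hπ₀, hk₀, hdet₀⟩ := exists_rad φ hφne
  obtain ⟨R₁, hR₁, π₁, s₁, hs₁, hπ₁, hk₁, hdet₁⟩ := exists_rad (m := m₁) (m' := m₀ + D) φ
    (by rw [← hcomm]; exact hφne)
  rcases le_total R₁ R₀ with hR | hR
  · exact van_core Q hc hg hx hxd hγ0 hγfin hγdeg φ hφreg h0 h1 h' hR₀ hs₀ hπ₀ hk₀ hdet₀
      hs₁ hπ₁ hk₁ hR
  · exact van_core Q hc hg hx hxd hγ0 hγfin (b₀ := b₁) (b₁ := b₀) (b' := b')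
      (by rw [hγdeg]; ring) φ (by rw [← hcomm]; exact hφreg) h1 h0 h' hR₁ hs₁ hπ₁ hk₁ hdet₁
      hs₀ hπ₀ hk₀ hR

end Pool.Agent.FJ3
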